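import Pool.Agent.LibSP23.Defs

set_option linter.unusedVariables false
set_option linter.unusedSectionVars false

namespace LibSP23


/-- sieve support -/
def Ls (m R : ℕ) : Finset ℕ := (Finset.Icc 1 R).filter (fun l => Squarefree l ∧ l.Coprime m)

noncomputable def Vs (m R : ℕ) : ℝ := ∑ l ∈ Ls m R, (l : ℝ)⁻¹

noncomputable def lam (m R d : ℕ) : ℝ :=
  d * ∑ l ∈ (Ls m R).filter (fun l => d ∣ l), (ArithmeticFunction.moebius (l / d) : ℝ) *
    ((ArithmeticFunction.moebius l : ℝ) / (l * Vs m R))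

lemma mem_Ls {m R l : ℕ} : l ∈ Ls m R ↔ 1 ≤ l ∧ l ≤ R ∧ Squarefree l ∧ l.Coprime m := by
  simp [Ls, and_assoc]

lemma one_mem_Ls {m R : ℕ} (hR : 1 ≤ R) : 1 ∈ Ls m R := by
  rw [mem_Ls]; exact ⟨le_rfl, hR, squarefree_one, Nat.coprime_one_left m⟩

lemma Ls_dvd {m R l d : ℕ} (hl : l ∈ Ls m R) (hd : d ∣ l) : d ∈ Ls m R := by
  rw [mem_Ls] at *
  have hl0 : 0 < l := by omega
  exact ⟨Nat.pos_of_dvd_of_pos hd hl0, (Nat.le_of_dvd hl0 hd).trans hl.2.1,
    hl.2.2.1.squarefree_of_dvd hd, hl.2.2.2.coprime_dvd_left hd⟩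

lemma Vs_ge_one {m R : ℕ} (hR : 1 ≤ R) : 1 ≤ Vs m R := by
  have := Finset.single_le_sum (f := fun l : ℕ => (l : ℝ)⁻¹) (s := Ls m R)
    (fun _ _ => by positivity) (one_mem_Ls hR)
  simpa [Vs] using this

lemma lam_one {m R : ℕ} (hR : 1 ≤ R) : lam m R 1 = 1 := by
  have hV : 0 < Vs m R := lt_of_lt_of_le one_pos (Vs_ge_one hR)
  rw [lam, Nat.cast_one, one_mul]
  have h1 : (Ls m R).filter (fun l => 1 ∣ l) = Ls m R := by
    apply Finset.filter_true_of_mem; intro l _; exact one_dvd l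
  rw [h1]
  have h2 : ∀ l ∈ Ls m R, (ArithmeticFunction.moebius (l / 1) : ℝ) *
      ((ArithmeticFunction.moebius l : ℝ) / (l * Vs m R)) = (l : ℝ)⁻¹ * (Vs m R)⁻¹ := by
    intro l hl
    rw [mem_Ls] at hl
    have h3 : (ArithmeticFunction.moebius l : ℝ) ^ 2 = 1 := by
      exact_mod_cast ArithmeticFunction.moebius_sq_eq_one_of_squarefree hl.2.2.1
    have hl0 : (l : ℝ) ≠ 0 := by exact_mod_cast (by omega : l ≠ 0)
    rw [Nat.div_one]
    field_simp
    linarith [h3]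
  rw [Finset.sum_congr rfl h2, ← Finset.sum_mul]
  exact mul_inv_cancel₀ hV.ne'

lemma abs_lam_le {m R : ℕ} (hR : 1 ≤ R) (d : ℕ) : |lam m R d| ≤ d := by
  have hV : 0 < Vs m R := lt_of_lt_of_le one_pos (Vs_ge_one hR)
  rw [lam, abs_mul, Nat.abs_cast]
  refine mul_le_of_le_one_right (Nat.cast_nonneg _) ?_
  refine (Finset.abs_sum_le_sum_abs _ _).trans ?_
  calc ∑ l ∈ (Ls m R).filter (fun l => d ∣ l), |(ArithmeticFunction.moebius (l / d) : ℝ) *
        ((ArithmeticFunction.moebius l : ℝ) / (l * Vs m R))|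
      ≤ ∑ l ∈ (Ls m R).filter (fun l => d ∣ l), (l : ℝ)⁻¹ * (Vs m R)⁻¹ := by
        refine Finset.sum_le_sum fun l hl => ?_
        have hl' := mem_Ls.1 (Finset.mem_filter.1 hl).1
        have hl0 : (0 : ℝ) < l := by exact_mod_cast hl'.1
        have a1 : |(ArithmeticFunction.moebius (l / d) : ℝ)| ≤ 1 := by
          exact_mod_cast ArithmeticFunction.abs_moebius_le_one
        have a2 : |(ArithmeticFunction.moebius l : ℝ)| ≤ 1 := by
          exact_mod_cast ArithmeticFunction.abs_moebius_le_one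
        rw [abs_mul, abs_div, abs_of_pos (mul_pos hl0 hV), ← mul_inv]
        calc |(ArithmeticFunction.moebius (l / d) : ℝ)| *
              (|(ArithmeticFunction.moebius l : ℝ)| / (l * Vs m R))
            ≤ 1 * (1 / (l * Vs m R)) := by
              apply mul_le_mul a1 _ (by positivity) (by norm_num)
              exact div_le_div_of_nonneg_right a2 (by positivity)
          _ = (l * Vs m R)⁻¹ := by rw [one_mul, one_div]
    _ ≤ ∑ l ∈ Ls m R, (l : ℝ)⁻¹ * (Vs m R)⁻¹ :=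
        Finset.sum_le_sum_of_subset_of_nonneg (Finset.filter_subset _ _)
          (fun _ _ _ => by positivity)
    _ = 1 := by rw [← Finset.sum_mul]; exact mul_inv_cancel₀ hV.ne'

lemma inner_moebius {m R g l : ℕ} (hg : g ∈ Ls m R) (hl : l ∈ Ls m R) (hgl : g ∣ l) :
    ∑ d ∈ (Ls m R).filter (fun d => g ∣ d ∧ d ∣ l), (ArithmeticFunction.moebius (l / d) : ℝ)
      = if l = g then 1 else 0 := by
  have hg0 : 0 < g := (mem_Ls.1 hg).1
  have hl0 : 0 < l := (mem_Ls.1 hl).1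
  have h1 : ∑ d ∈ (Ls m R).filter (fun d => g ∣ d ∧ d ∣ l),
      (ArithmeticFunction.moebius (l / d) : ℝ)
      = ∑ e ∈ (l / g).divisors, (ArithmeticFunction.moebius e : ℝ) := by
    refine Finset.sum_nbij' (fun d => l / d) (fun e => l / e) ?_ ?_ ?_ ?_ ?_
    · intro d hd
      obtain ⟨hdL, ⟨a, rfl⟩, ⟨b, hb⟩⟩ := Finset.mem_filter.1 hd
      have ha0 : 0 < a := by
        rcases Nat.eq_zero_or_pos a with rfl | h
        · simp at hb; omega
        · exact h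
      rw [Nat.mem_divisors]
      constructor
      · rw [hb, Nat.mul_div_cancel_left _ (by positivity), mul_assoc,
          Nat.mul_div_cancel_left _ hg0]
        exact dvd_mul_left _ _
      · have := Nat.div_pos (Nat.le_of_dvd hl0 hgl) hg0
        omega
    · intro e he
      rw [Nat.mem_divisors] at he
      obtain ⟨⟨c, hc⟩, he0⟩ := he
      have hle : l = g * (e * c) := by
        rw [← hc]; exact (Nat.mul_div_cancel' hgl).symm
      have hepos : 0 < e := by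
        rcases Nat.eq_zero_or_pos e with rfl | h
        · simp at hle; omega
        · exact h
      have hle2 : l / e = g * c := by
        rw [hle]
        have : g * (e * c) = e * (g * c) := by ring
        rw [this, Nat.mul_div_cancel_left _ hepos]
      rw [Finset.mem_filter, hle2]
      have hdl : g * c ∣ l := ⟨e, by rw [hle]; ring⟩
      exact ⟨Ls_dvd hl hdl, dvd_mul_right _ _, hdl⟩
    · intro d hd
      exact Nat.div_div_self (Finset.mem_filter.1 hd).2.2 hl0.ne'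
    · intro e he
      rw [Nat.mem_divisors] at he
      exact Nat.div_div_self (he.1.trans (Nat.div_dvd_of_dvd hgl)) hl0.ne'
    · intro d hd; rfl
  rw [h1]
  have h2 : ∑ e ∈ (l / g).divisors, (ArithmeticFunction.moebius e : ℤ)
      = if l / g = 1 then 1 else 0 := by
    have := congrArg (fun f : ArithmeticFunction ℤ => f (l / g))
      ArithmeticFunction.moebius_mul_coe_zeta
    simp only [ArithmeticFunction.one_apply] at this
    rw [← this, ArithmeticFunction.coe_mul_zeta_apply]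
  have h3 : ∑ e ∈ (l / g).divisors, (ArithmeticFunction.moebius e : ℝ)
      = ((∑ e ∈ (l / g).divisors, (ArithmeticFunction.moebius e : ℤ) : ℤ) : ℝ) := by
    push_cast; rfl
  rw [h3, h2]
  have h4 : l / g = 1 ↔ l = g := by
    constructor
    · intro h
      obtain ⟨c, rfl⟩ := hgl
      rw [Nat.mul_div_cancel_left _ hg0] at h
      rw [h, mul_one]
    · rintro rfl; exact Nat.div_self hg0
  by_cases h : l = g
  · rw [if_pos h, if_pos (h4.2 h)]; norm_num
  · rw [if_neg h, if_neg (fun h' => h (h4.1 h'))]; norm_num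

lemma diag {m R g : ℕ} (hR : 1 ≤ R) (hg : g ∈ Ls m R) :
    ∑ d ∈ (Ls m R).filter (fun d => g ∣ d), lam m R d / d
      = (ArithmeticFunction.moebius g : ℝ) / (g * Vs m R) := by
  have h1 : ∀ d ∈ (Ls m R).filter (fun d => g ∣ d), lam m R d / d
      = ∑ l ∈ Ls m R, if d ∣ l then (ArithmeticFunction.moebius (l / d) : ℝ) *
        ((ArithmeticFunction.moebius l : ℝ) / (l * Vs m R)) else 0 := by
    intro d hd
    have hd0 : (d : ℝ) ≠ 0 := by
      exact_mod_cast (by have := (mem_Ls.1 (Finset.mem_filter.1 hd).1).1; omega : d ≠ 0)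
    rw [lam, mul_div_cancel_left₀ _ hd0, Finset.sum_filter]
  rw [Finset.sum_congr rfl h1, Finset.sum_comm]
  have h2 : ∀ l ∈ Ls m R, (∑ d ∈ (Ls m R).filter (fun d => g ∣ d),
      if d ∣ l then (ArithmeticFunction.moebius (l / d) : ℝ) *
        ((ArithmeticFunction.moebius l : ℝ) / (l * Vs m R)) else 0)
      = if l = g then (ArithmeticFunction.moebius l : ℝ) / (l * Vs m R) else 0 := by
    intro l hl
    rw [← Finset.sum_filter, Finset.filter_filter, ← Finset.sum_mul]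
    by_cases hgl : g ∣ l
    · rw [inner_moebius hg hl hgl]
      split_ifs <;> simp
    · have he : (Ls m R).filter (fun d => g ∣ d ∧ d ∣ l) = ∅ := by
        apply Finset.filter_false_of_mem
        rintro d _ ⟨h1, h2⟩
        exact hgl (h1.trans h2)
      rw [he, Finset.sum_empty, zero_mul, if_neg]
      rintro rfl
      exact hgl dvd_rfl
  rw [Finset.sum_congr rfl h2, Finset.sum_ite_eq' _ g, if_pos hg]

lemma main_form {m R : ℕ} (hR : 1 ≤ R) :
    ∑ d ∈ Ls m R, ∑ e ∈ Ls m R, lam m R d * lam m R e / (Nat.lcm d e : ℝ) ≤ (Vs m R)⁻¹ := by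
  have hV : 0 < Vs m R := lt_of_lt_of_le one_pos (Vs_ge_one hR)
  have h1 : ∀ d ∈ Ls m R, ∀ e ∈ Ls m R, lam m R d * lam m R e / (Nat.lcm d e : ℝ)
      = ∑ g ∈ Ls m R, if g ∣ d ∧ g ∣ e then
          (Nat.totient g : ℝ) * ((lam m R d / d) * (lam m R e / e)) else 0 := by
    intro d hd e he
    have hd0 : 0 < d := (mem_Ls.1 hd).1
    have he0 : 0 < e := (mem_Ls.1 he).1
    have h2 : ((Nat.gcd d e : ℕ) : ℝ) = ∑ g ∈ Ls m R, if g ∣ d ∧ g ∣ e then
        (Nat.totient g : ℝ) else 0 := by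
      rw [← Finset.sum_filter]
      have h3 : (Ls m R).filter (fun g => g ∣ d ∧ g ∣ e) = (Nat.gcd d e).divisors := by
        ext g
        rw [Finset.mem_filter, Nat.mem_divisors]
        constructor
        · rintro ⟨_, h⟩
          exact ⟨Nat.dvd_gcd h.1 h.2, (Nat.gcd_pos_of_pos_left _ hd0).ne'⟩
        · rintro ⟨h, _⟩
          have h4 := h.trans (Nat.gcd_dvd_left d e)
          have h5 := h.trans (Nat.gcd_dvd_right d e)
          exact ⟨Ls_dvd hd h4, h4, h5⟩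
      rw [h3]
      exact_mod_cast (Nat.sum_totient (Nat.gcd d e)).symm
    have h3 : (Nat.gcd d e : ℝ) * (Nat.lcm d e : ℝ) = d * e := by
      exact_mod_cast Nat.gcd_mul_lcm d e
    have hl0 : (0 : ℝ) < (Nat.lcm d e : ℝ) := by exact_mod_cast Nat.lcm_pos hd0 he0
    have hd0' : (0 : ℝ) < d := by exact_mod_cast hd0
    have he0' : (0 : ℝ) < e := by exact_mod_cast he0
    have h4 : lam m R d * lam m R e / (Nat.lcm d e : ℝ)
        = ((Nat.gcd d e : ℕ) : ℝ) * ((lam m R d / d) * (lam m R e / e)) := by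
      rw [div_mul_div_comm, ← h3]
      field_simp
    rw [h4, h2, Finset.sum_mul]
    refine Finset.sum_congr rfl fun g _ => ?_
    split_ifs <;> simp
  have h5 : ∑ d ∈ Ls m R, ∑ e ∈ Ls m R, lam m R d * lam m R e / (Nat.lcm d e : ℝ)
      = ∑ g ∈ Ls m R, (Nat.totient g : ℝ) *
        (∑ d ∈ (Ls m R).filter (fun d => g ∣ d), lam m R d / d) ^ 2 := by
    rw [Finset.sum_congr rfl fun d hd => Finset.sum_congr rfl fun e he => h1 d hd e he]
    have h6 : ∀ d ∈ Ls m R, (∑ e ∈ Ls m R, ∑ g ∈ Ls m R, if g ∣ d ∧ g ∣ e then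
          (Nat.totient g : ℝ) * ((lam m R d / d) * (lam m R e / e)) else 0)
        = ∑ g ∈ Ls m R, ∑ e ∈ Ls m R, if g ∣ d ∧ g ∣ e then
          (Nat.totient g : ℝ) * ((lam m R d / d) * (lam m R e / e)) else 0 :=
      fun d _ => Finset.sum_comm
    rw [Finset.sum_congr rfl h6, Finset.sum_comm]
    refine Finset.sum_congr rfl fun g _ => ?_
    rw [sq, Finset.sum_mul_sum, Finset.mul_sum, Finset.sum_filter]
    refine Finset.sum_congr rfl fun d _ => ?_
    rw [Finset.mul_sum, Finset.sum_filter]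
    by_cases hgd : g ∣ d
    · rw [if_pos hgd]
      refine Finset.sum_congr rfl fun e _ => ?_
      simp [hgd]
    · rw [if_neg hgd]
      apply Finset.sum_eq_zero
      intro e _
      simp [hgd]
  rw [h5]
  calc ∑ g ∈ Ls m R, (Nat.totient g : ℝ) *
        (∑ d ∈ (Ls m R).filter (fun d => g ∣ d), lam m R d / d) ^ 2
      ≤ ∑ g ∈ Ls m R, (g : ℝ)⁻¹ * ((Vs m R)⁻¹ * (Vs m R)⁻¹) := by
        refine Finset.sum_le_sum fun g hg => ?_
        rw [diag hR hg]
        have hg0 : (0 : ℝ) < g := by exact_mod_cast (mem_Ls.1 hg).1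
        have a1 : (ArithmeticFunction.moebius g : ℝ) ^ 2 = 1 := by
          exact_mod_cast ArithmeticFunction.moebius_sq_eq_one_of_squarefree (mem_Ls.1 hg).2.2.1
        rw [div_pow, a1]
        have a2 : (Nat.totient g : ℝ) ≤ g := by exact_mod_cast Nat.totient_le g
        have a3 : (0 : ℝ) ≤ 1 / (g * Vs m R) ^ 2 := by positivity
        calc (Nat.totient g : ℝ) * (1 / (g * Vs m R) ^ 2) ≤ g * (1 / (g * Vs m R) ^ 2) :=
              mul_le_mul_of_nonneg_right a2 a3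
          _ = (g : ℝ)⁻¹ * ((Vs m R)⁻¹ * (Vs m R)⁻¹) := by field_simp
    _ = (Vs m R)⁻¹ := by
        rw [← Finset.sum_mul]
        change Vs m R * ((Vs m R)⁻¹ * (Vs m R)⁻¹) = (Vs m R)⁻¹
        rw [← mul_assoc, mul_inv_cancel₀ hV.ne', one_mul]

/-- count of `n ∈ (X, 2X]`, `n ≡ b mod m`, `D ∣ n`. -/
lemma count_AP (m b D X : ℕ) (hm : 0 < m) (hD : 0 < D) (hco : D.Coprime m) :
    |((((Finset.Ioc X (2 * X)).filter (fun n => n ≡ b [MOD m] ∧ D ∣ n)).card : ℕ) : ℝ)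
      - (X : ℝ) / m / D| ≤ 1 := by
  obtain ⟨v, hv1, hv2⟩ := Nat.chineseRemainder hco.symm b 0
  have h1 : (Finset.Ioc X (2 * X)).filter (fun n => n ≡ b [MOD m] ∧ D ∣ n)
      = (Finset.Ioc X (2 * X)).filter (fun n => n ≡ v [MOD (m * D)]) := by
    apply Finset.filter_congr
    intro n _
    rw [← Nat.modEq_and_modEq_iff_modEq_mul hco.symm]
    constructor
    · rintro ⟨h1, h2⟩
      exact ⟨h1.trans hv1.symm, ((Nat.modEq_zero_iff_dvd).2 h2).trans hv2.symm⟩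
    · rintro ⟨h1, h2⟩
      exact ⟨h1.trans hv1, (Nat.modEq_zero_iff_dvd).1 (h2.trans hv2)⟩
  have hr : 0 < m * D := by positivity
  have h2 := Nat.Ioc_filter_modEq_card X (2 * X) hr v
  rw [← h1] at h2
  have hr' : (0 : ℚ) < ((m * D : ℕ) : ℚ) := by exact_mod_cast hr
  set α : ℚ := ((X : ℚ) - v) / ((m * D : ℕ) : ℚ) with hα
  set β : ℚ := (((2 * X : ℕ) : ℚ) - v) / ((m * D : ℕ) : ℚ) with hβ
  have hαβ : α ≤ β := by
    rw [hα, hβ]
    apply div_le_div_of_nonneg_right _ hr'.le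
    push_cast
    have : (0 : ℚ) ≤ X := Nat.cast_nonneg X
    linarith
  have hfl : ⌊α⌋ ≤ ⌊β⌋ := Int.floor_le_floor hαβ
  have h3 : max (⌊β⌋ - ⌊α⌋) 0 = ⌊β⌋ - ⌊α⌋ := max_eq_left (by omega)
  rw [h3] at h2
  have h4 : ((((Finset.Ioc X (2 * X)).filter (fun n => n ≡ b [MOD m] ∧ D ∣ n)).card : ℕ) : ℚ)
      = (⌊β⌋ : ℚ) - ⌊α⌋ := by exact_mod_cast h2
  have h5 : β - α = (X : ℚ) / m / D := by
    rw [hα, hβ, ← sub_div]
    push_cast
    rw [div_div]
    congr 1
    ring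
  have f1 := Int.floor_le α
  have f2 := Int.lt_floor_add_one α
  have f3 := Int.floor_le β
  have f4 := Int.lt_floor_add_one β
  have h6 : |((((Finset.Ioc X (2 * X)).filter (fun n => n ≡ b [MOD m] ∧ D ∣ n)).card : ℕ) : ℚ)
      - (X : ℚ) / m / D| ≤ 1 := by
    rw [h4, ← h5, abs_le]
    constructor <;> linarith
  have h7 := (Rat.cast_le (K := ℝ)).2 h6
  push_cast at h7
  exact h7


/-- Selberg upper bound for primes in `(X, 2X]`, `≡ b mod m`. -/
lemma selberg_bound (m b X R : ℕ) (hm : 0 < m) (hR : 1 ≤ R) (hRX : R ≤ X) :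
    ((((Finset.Ioc X (2 * X)).filter (fun n => n.Prime ∧ n ≡ b [MOD m])).card : ℕ) : ℝ)
      ≤ (X : ℝ) / m * (Vs m R)⁻¹ + (R : ℝ) ^ 4 := by
  classical
  have hV : 0 < Vs m R := lt_of_lt_of_le one_pos (Vs_ge_one hR)
  set A := (Finset.Ioc X (2 * X)).filter (fun n => n ≡ b [MOD m]) with hA
  have h1 : ((((Finset.Ioc X (2 * X)).filter (fun n => n.Prime ∧ n ≡ b [MOD m])).card : ℕ) : ℝ)
      ≤ ∑ n ∈ A, (∑ d ∈ (Ls m R).filter (fun d => d ∣ n), lam m R d) ^ 2 := by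
    rw [Finset.card_eq_sum_ones, Nat.cast_sum]
    have hsub : (Finset.Ioc X (2 * X)).filter (fun n => n.Prime ∧ n ≡ b [MOD m]) ⊆ A := by
      intro n hn
      rw [Finset.mem_filter] at hn
      rw [hA, Finset.mem_filter]
      exact ⟨hn.1, hn.2.2⟩
    refine le_trans ?_ (Finset.sum_le_sum_of_subset_of_nonneg hsub fun _ _ _ => sq_nonneg _)
    refine Finset.sum_le_sum fun n hn => ?_
    rw [Finset.mem_filter, Finset.mem_Ioc] at hn
    have h2 : (Ls m R).filter (fun d => d ∣ n) = {1} := by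
      ext d
      rw [Finset.mem_filter, Finset.mem_singleton]
      constructor
      · rintro ⟨hd, hdn⟩
        rw [mem_Ls] at hd
        rcases (Nat.dvd_prime hn.2.1).1 hdn with h | h
        · exact h
        · omega
      · rintro rfl
        exact ⟨one_mem_Ls hR, one_dvd _⟩
    rw [h2, Finset.sum_singleton, lam_one hR]
    norm_num
  refine h1.trans ?_
  have h2 : ∑ n ∈ A, (∑ d ∈ (Ls m R).filter (fun d => d ∣ n), lam m R d) ^ 2
      = ∑ d ∈ Ls m R, ∑ e ∈ Ls m R, lam m R d * lam m R e *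
        ((((Finset.Ioc X (2 * X)).filter (fun n => n ≡ b [MOD m] ∧ Nat.lcm d e ∣ n)).card : ℕ)
          : ℝ) := by
    have h3 : ∀ n ∈ A, (∑ d ∈ (Ls m R).filter (fun d => d ∣ n), lam m R d) ^ 2
        = ∑ d ∈ Ls m R, ∑ e ∈ Ls m R, if Nat.lcm d e ∣ n then lam m R d * lam m R e else 0 := by
      intro n _
      rw [sq, Finset.sum_mul_sum, Finset.sum_filter]
      refine Finset.sum_congr rfl fun d _ => ?_
      by_cases hd : d ∣ n
      · rw [if_pos hd, Finset.sum_filter]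
        refine Finset.sum_congr rfl fun e _ => ?_
        by_cases he : e ∣ n
        · rw [if_pos he, if_pos (Nat.lcm_dvd hd he)]
        · rw [if_neg he, if_neg (fun h => he ((Nat.dvd_lcm_right d e).trans h))]
      · rw [if_neg hd]
        symm
        apply Finset.sum_eq_zero
        intro e _
        rw [if_neg (fun h => hd ((Nat.dvd_lcm_left d e).trans h))]
    rw [Finset.sum_congr rfl h3, Finset.sum_comm]
    refine Finset.sum_congr rfl fun d _ => ?_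
    rw [Finset.sum_comm]
    refine Finset.sum_congr rfl fun e _ => ?_
    rw [← Finset.sum_filter, Finset.sum_const, nsmul_eq_mul, mul_comm, hA, Finset.filter_filter]
  rw [h2]
  have h4 : ∀ d ∈ Ls m R, ∀ e ∈ Ls m R, lam m R d * lam m R e *
        ((((Finset.Ioc X (2 * X)).filter (fun n => n ≡ b [MOD m] ∧ Nat.lcm d e ∣ n)).card : ℕ)
          : ℝ) ≤ (X : ℝ) / m * (lam m R d * lam m R e / (Nat.lcm d e : ℝ)) + (d : ℝ) * e := by
    intro d hd e he
    have hd' := mem_Ls.1 hd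
    have he' := mem_Ls.1 he
    have hco : (Nat.lcm d e).Coprime m := by
      have : Nat.lcm d e ∣ d * e := Nat.lcm_dvd (dvd_mul_right _ _) (dvd_mul_left _ _)
      exact (Nat.Coprime.mul_left hd'.2.2.2 he'.2.2.2).coprime_dvd_left this
    have h5 := count_AP m b (Nat.lcm d e) X hm (Nat.lcm_pos hd'.1 he'.1) hco
    set c : ℝ := ((((Finset.Ioc X (2 * X)).filter
      (fun n => n ≡ b [MOD m] ∧ Nat.lcm d e ∣ n)).card : ℕ) : ℝ) with hc
    have h6 : lam m R d * lam m R e * (c - (X : ℝ) / m / (Nat.lcm d e : ℝ)) ≤ (d : ℝ) * e := by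
      refine (le_abs_self _).trans ?_
      rw [abs_mul, abs_mul]
      calc |lam m R d| * |lam m R e| * |c - (X : ℝ) / m / (Nat.lcm d e : ℝ)|
          ≤ ((d : ℝ) * e) * 1 := by
            apply mul_le_mul _ h5 (abs_nonneg _) (by positivity)
            exact mul_le_mul (abs_lam_le hR d) (abs_lam_le hR e) (abs_nonneg _) (by positivity)
        _ = (d : ℝ) * e := mul_one _
    have h7 : lam m R d * lam m R e * c
        = (X : ℝ) / m * (lam m R d * lam m R e / (Nat.lcm d e : ℝ))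
          + lam m R d * lam m R e * (c - (X : ℝ) / m / (Nat.lcm d e : ℝ)) := by ring
    rw [h7]
    linarith
  calc ∑ d ∈ Ls m R, ∑ e ∈ Ls m R, lam m R d * lam m R e *
        ((((Finset.Ioc X (2 * X)).filter (fun n => n ≡ b [MOD m] ∧ Nat.lcm d e ∣ n)).card : ℕ)
          : ℝ)
      ≤ ∑ d ∈ Ls m R, ∑ e ∈ Ls m R, ((X : ℝ) / m *
          (lam m R d * lam m R e / (Nat.lcm d e : ℝ)) + (d : ℝ) * e) :=
        Finset.sum_le_sum fun d hd => Finset.sum_le_sum fun e he => h4 d hd e he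
    _ = (X : ℝ) / m * (∑ d ∈ Ls m R, ∑ e ∈ Ls m R, lam m R d * lam m R e / (Nat.lcm d e : ℝ))
          + (∑ d ∈ Ls m R, (d : ℝ)) ^ 2 := by
        simp_rw [Finset.sum_add_distrib]
        rw [sq, Finset.sum_mul_sum, Finset.mul_sum]
        simp_rw [Finset.mul_sum]
    _ ≤ (X : ℝ) / m * (Vs m R)⁻¹ + (R : ℝ) ^ 4 := by
        have h8 := mul_le_mul_of_nonneg_left (main_form (m := m) hR)
          (by positivity : (0 : ℝ) ≤ (X : ℝ) / m)
        have h9 : ∑ d ∈ Ls m R, (d : ℝ) ≤ (R : ℝ) ^ 2 := by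
          have h10 : ∑ d ∈ Ls m R, (d : ℝ) ≤ ∑ d ∈ Ls m R, (R : ℝ) :=
            Finset.sum_le_sum fun d hd => by exact_mod_cast (mem_Ls.1 hd).2.1
          rw [Finset.sum_const, nsmul_eq_mul] at h10
          have h11 : ((Ls m R).card : ℝ) ≤ R := by
            have : (Ls m R).card ≤ (Finset.Icc 1 R).card := Finset.card_filter_le _ _
            rw [Nat.card_Icc] at this
            exact_mod_cast (by omega : (Ls m R).card ≤ R)
          calc ∑ d ∈ Ls m R, (d : ℝ) ≤ ((Ls m R).card : ℝ) * R := h10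
            _ ≤ R * R := mul_le_mul_of_nonneg_right h11 (Nat.cast_nonneg _)
            _ = (R : ℝ) ^ 2 := by ring
        have h12 : (∑ d ∈ Ls m R, (d : ℝ)) ^ 2 ≤ ((R : ℝ) ^ 2) ^ 2 :=
          pow_le_pow_left₀ (Finset.sum_nonneg fun _ _ => Nat.cast_nonneg _) h9 2
        have h13 : ((R : ℝ) ^ 2) ^ 2 = (R : ℝ) ^ 4 := by ring
        linarith

/-- every `n ≥ 1` is `a * b`, `a` composed of primes of `m`, `b` coprime to `m`. -/
lemma split_factored (m : ℕ) (hm : 0 < m) (n : ℕ) : 0 < n →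
    ∃ a b : ℕ, n = a * b ∧ a ∈ Nat.factoredNumbers m.primeFactors ∧ b.Coprime m := by
  induction n using induction_on_primes with
  | zero => intro h; omega
  | one =>
    intro _
    refine ⟨1, 1, rfl, ?_, Nat.coprime_one_left m⟩
    rw [Nat.mem_factoredNumbers]
    simp
  | prime_mul p n hp ih =>
    intro hpn
    have hn : 0 < n := Nat.pos_of_ne_zero (by rintro rfl; simp at hpn)
    obtain ⟨a, b, rfl, ha, hb⟩ := ih hn
    by_cases hpm : p ∣ m
    · refine ⟨p * a, b, by ring, ?_, hb⟩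
      rw [Nat.mem_factoredNumbers'] at *
      intro q hq hqpa
      rcases (Nat.Prime.dvd_mul hq).1 hqpa with h | h
      · rw [(Nat.prime_dvd_prime_iff_eq hq hp).1 h]
        exact Nat.mem_primeFactors.2 ⟨hp, hpm, hm.ne'⟩
      · exact ha q hq h
    · exact ⟨a, p * b, by ring, ha, Nat.Coprime.mul_left ((Nat.Prime.coprime_iff_not_dvd hp).2 hpm) hb⟩

lemma sum_factored_le (m : ℕ) (hm : 0 < m) (A : Finset ℕ)
    (hA : ∀ a ∈ A, a ∈ Nat.factoredNumbers m.primeFactors) :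
    ∑ a ∈ A, (a : ℝ)⁻¹ ≤ m / Nat.totient m := by
  classical
  let f : ℕ →* ℝ := 
    { toFun := fun n => (n : ℝ)⁻¹, map_one' := by simp, map_mul' := fun a b => by
        push_cast; rw [mul_inv] }
  have h := EulerProduct.summable_and_hasSum_factoredNumbers_prod_filter_prime_geometric
    (f := f) (fun {p} hp => by
      change ‖((p : ℕ) : ℝ)⁻¹‖ < 1
      rw [norm_inv, Real.norm_natCast]
      exact inv_lt_one_of_one_lt₀ (by exact_mod_cast hp.one_lt)) m.primeFactors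
  obtain ⟨hs, hsum⟩ := h
  have h1 : ∏ p ∈ m.primeFactors with p.Prime, (1 - f p)⁻¹ = (m : ℝ) / Nat.totient m := by
    have h2 : (m.primeFactors.filter (fun p => p.Prime)) = m.primeFactors :=
      Finset.filter_true_of_mem fun p hp => Nat.prime_of_mem_primeFactors hp
    rw [h2]
    have h3 : ((Nat.totient m : ℕ) : ℝ) = m * ∏ p ∈ m.primeFactors, (1 - (p : ℝ)⁻¹) := by
      have := congrArg (fun x : ℚ => (x : ℝ)) (Nat.totient_eq_mul_prod_factors m)
      push_cast at this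
      exact this
    rw [h3, Finset.prod_inv_distrib]
    have hm' : (m : ℝ) ≠ 0 := by exact_mod_cast hm.ne'
    have h4 : (∏ p ∈ m.primeFactors, (1 - f p)) = ∏ p ∈ m.primeFactors, (1 - (p : ℝ)⁻¹) := rfl
    rw [h4]
    field_simp
  rw [h1] at hsum
  have h5 : ∑ a ∈ A, (a : ℝ)⁻¹
      = ∑ a ∈ A.attach.map ⟨fun a => (⟨a.1, hA a.1 a.2⟩ : Nat.factoredNumbers m.primeFactors),
          fun x y h => Subtype.ext (by
            have h' := congrArg (fun z : Nat.factoredNumbers m.primeFactors => z.1) h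
            exact h')⟩, f a.1 := by
    rw [Finset.sum_map, ← Finset.sum_attach]
    rfl
  rw [h5]
  exact sum_le_hasSum _ (fun a _ => by
    change (0 : ℝ) ≤ ((a.1 : ℕ) : ℝ)⁻¹
    positivity) hsum

lemma sum_inv_sq_le (K : ℕ) : ∑ k ∈ Finset.Icc 1 K, ((k : ℝ) ^ 2)⁻¹ ≤ 2 := by
  have h : ∀ K : ℕ, ∑ k ∈ Finset.Icc 1 (K + 1), ((k : ℝ) ^ 2)⁻¹ ≤ 2 - 1 / (K + 1) := by
    intro K
    induction K with
    | zero => norm_num
    | succ K ih =>
      rw [Finset.sum_Icc_succ_top (by omega)]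
      push_cast
      have h1 : ((K : ℝ) + 1 + 1) ^ 2 ≥ (K + 1) * (K + 1 + 1) := by nlinarith
      have h2 : (((K : ℝ) + 1 + 1) ^ 2)⁻¹ ≤ 1 / ((K : ℝ) + 1) - 1 / ((K : ℝ) + 1 + 1) := by
        have h3 : 1 / ((K : ℝ) + 1) - 1 / (K + 1 + 1) = 1 / ((K + 1) * (K + 1 + 1)) := by
          field_simp; ring
        rw [h3, one_div]
        exact inv_anti₀ (by positivity) h1
      linarith
  rcases K with _ | K
  · simp
  · have := h K
    have h1 : (0 : ℝ) ≤ 1 / ((K : ℝ) + 1) := by positivity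
    linarith

/-- lower bound for `Vs`. -/
lemma Vs_lower (m R : ℕ) (hm : 0 < m) (hR : 1 ≤ R) :
    Real.log (R + 1) ≤ (m : ℝ) / Nat.totient m * (2 * Vs m R) := by
  classical
  have hex : ∀ n : ℕ, 0 < n → ∃ t : ℕ × ℕ × ℕ, n = t.1 * (t.2.1 ^ 2 * t.2.2) ∧
      t.1 ∈ Nat.factoredNumbers m.primeFactors ∧ Squarefree t.2.2 ∧ t.2.2.Coprime m := by
    intro n hn
    obtain ⟨a, b, rfl, ha, hb⟩ := split_factored m hm n hn
    obtain ⟨l, k, hkl, hl⟩ := Nat.sq_mul_squarefree b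
    refine ⟨(a, k, l), by rw [hkl], ha, hl, hb.coprime_dvd_left ⟨k ^ 2, by rw [← hkl]; ring⟩⟩
  choose! t ht1 ht2 ht3 ht4 using hex
  have hinj : Set.InjOn t (Finset.Icc 1 R : Finset ℕ) := by
    intro x hx y hy h
    rw [Finset.coe_Icc, Set.mem_Icc] at hx hy
    rw [ht1 x (by omega), ht1 y (by omega), h]
  set A := (Finset.Icc 1 R).filter (fun a => a ∈ Nat.factoredNumbers m.primeFactors) with hA
  set T := A ×ˢ (Finset.Icc 1 R ×ˢ Ls m R) with hT
  have hsub : (Finset.Icc 1 R).image t ⊆ T := by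
    intro z hz
    obtain ⟨n, hn, rfl⟩ := Finset.mem_image.1 hz
    rw [Finset.mem_Icc] at hn
    have hn0 : 0 < n := by omega
    have e := ht1 n hn0
    have p1 : 0 < (t n).1 := Nat.pos_of_ne_zero (by
      intro h; rw [h] at e; simp at e; omega)
    have p2 : 0 < (t n).2.1 := Nat.pos_of_ne_zero (by
      intro h; rw [h] at e; simp at e; omega)
    have p3 : 0 < (t n).2.2 := Nat.pos_of_ne_zero (by
      intro h; rw [h] at e; simp at e; omega)
    have d1 : (t n).1 ∣ n := ⟨_, e⟩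
    have d2 : (t n).2.1 ∣ n := ⟨(t n).1 * ((t n).2.1 * (t n).2.2), by
      conv_lhs => rw [e]
      ring⟩
    have d3 : (t n).2.2 ∣ n := ⟨(t n).1 * (t n).2.1 ^ 2, by
      conv_lhs => rw [e]
      ring⟩
    rw [hT, Finset.mem_product, Finset.mem_product, hA, Finset.mem_filter, Finset.mem_Icc,
      Finset.mem_Icc, mem_Ls]
    exact ⟨⟨⟨p1, (Nat.le_of_dvd hn0 d1).trans hn.2⟩, ht2 n hn0⟩,
      ⟨p2, (Nat.le_of_dvd hn0 d2).trans hn.2⟩, p3, (Nat.le_of_dvd hn0 d3).trans hn.2,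
      ht3 n hn0, ht4 n hn0⟩
  have h1 : Real.log (R + 1) ≤ ∑ n ∈ Finset.Icc 1 R, (n : ℝ)⁻¹ := by
    have h := log_add_one_le_harmonic R
    rw [harmonic_eq_sum_Icc] at h
    push_cast at h
    exact h
  have h2 : ∑ n ∈ Finset.Icc 1 R, (n : ℝ)⁻¹
      = ∑ z ∈ (Finset.Icc 1 R).image t, ((z.1 : ℝ)⁻¹ * ((((z.2.1 : ℝ) ^ 2)⁻¹) * (z.2.2 : ℝ)⁻¹)) := by
    rw [Finset.sum_image hinj]
    refine Finset.sum_congr rfl fun n hn => ?_
    rw [Finset.mem_Icc] at hn
    conv_lhs => rw [ht1 n (by omega)]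
    push_cast
    rw [mul_inv, mul_inv]
  have h3 : ∑ z ∈ (Finset.Icc 1 R).image t,
        ((z.1 : ℝ)⁻¹ * ((((z.2.1 : ℝ) ^ 2)⁻¹) * (z.2.2 : ℝ)⁻¹))
      ≤ ∑ z ∈ T, ((z.1 : ℝ)⁻¹ * ((((z.2.1 : ℝ) ^ 2)⁻¹) * (z.2.2 : ℝ)⁻¹)) :=
    Finset.sum_le_sum_of_subset_of_nonneg hsub fun _ _ _ => by positivity
  have h4 : ∑ z ∈ T, ((z.1 : ℝ)⁻¹ * ((((z.2.1 : ℝ) ^ 2)⁻¹) * (z.2.2 : ℝ)⁻¹))
      = (∑ a ∈ A, (a : ℝ)⁻¹) * ((∑ k ∈ Finset.Icc 1 R, ((k : ℝ) ^ 2)⁻¹) * Vs m R) := by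
    rw [hT, Finset.sum_product, Vs, Finset.sum_mul_sum, Finset.sum_mul_sum]
    refine Finset.sum_congr rfl fun a _ => ?_
    rw [Finset.sum_product]
    refine Finset.sum_congr rfl fun k _ => ?_
    rw [Finset.mul_sum]
  have h5 : ∑ a ∈ A, (a : ℝ)⁻¹ ≤ m / Nat.totient m :=
    sum_factored_le m hm A fun a ha => (Finset.mem_filter.1 ha).2
  have hV : 0 < Vs m R := lt_of_lt_of_le one_pos (Vs_ge_one hR)
  have h6 : (∑ k ∈ Finset.Icc 1 R, ((k : ℝ) ^ 2)⁻¹) * Vs m R ≤ 2 * Vs m R :=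
    mul_le_mul_of_nonneg_right (sum_inv_sq_le R) hV.le
  have h7 : (∑ a ∈ A, (a : ℝ)⁻¹) * ((∑ k ∈ Finset.Icc 1 R, ((k : ℝ) ^ 2)⁻¹) * Vs m R)
      ≤ (m : ℝ) / Nat.totient m * (2 * Vs m R) :=
    mul_le_mul h5 h6 (mul_nonneg (Finset.sum_nonneg fun _ _ => by positivity) hV.le)
      (by positivity)
  linarith


lemma pow_four_le (j : ℕ) (hj : 16 ≤ j) : j ^ 4 ≤ 2 ^ j := by
  induction j, hj using Nat.le_induction with
  | base => norm_num
  | succ j hj ih =>
    have h1 : (j + 1) ^ 4 ≤ 2 * j ^ 4 := by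
      have h2 : (j + 1) ^ 4 = j ^ 4 + 4 * j ^ 3 + 6 * j ^ 2 + 4 * j + 1 := by ring
      have h3 : 16 * j ^ 3 ≤ j ^ 4 := by
        calc 16 * j ^ 3 ≤ j * j ^ 3 := Nat.mul_le_mul_right _ hj
          _ = j ^ 4 := by ring
      have h4 : 16 * j ^ 2 ≤ j ^ 3 := by
        calc 16 * j ^ 2 ≤ j * j ^ 2 := Nat.mul_le_mul_right _ hj
          _ = j ^ 3 := by ring
      have h5 : 16 * j ≤ j ^ 2 := by
        calc 16 * j ≤ j * j := Nat.mul_le_mul_right _ hj
          _ = j ^ 2 := by ring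
      omega
    rw [pow_succ 2 j]
    omega

/-- Brun–Titchmarsh in dyadic blocks. -/
lemma bt_dyadic (m b j : ℕ) (hm : 0 < m) (hj : 16 ≤ j) (hmj : m ^ 2 ≤ 2 ^ j) :
    ((((Finset.Ioc (2 ^ j) (2 * 2 ^ j)).filter (fun n => n.Prime ∧ n ≡ b [MOD m])).card : ℕ) : ℝ)
      ≤ 129 * 2 ^ j / (Nat.totient m * j) := by
  set i := j / 16 with hi
  have hi1 : 1 ≤ i := by omega
  have hi16 : 16 * i ≤ j := by omega
  have hij : j ≤ 32 * i := by omega
  have hR : 1 ≤ 2 ^ i := Nat.one_le_two_pow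
  have hRX : 2 ^ i ≤ 2 ^ j := Nat.pow_le_pow_right (by norm_num) (by omega)
  have h1 := selberg_bound m b (2 ^ j) (2 ^ i) hm hR hRX
  have hV : 0 < Vs m (2 ^ i) := lt_of_lt_of_le one_pos (Vs_ge_one hR)
  have hφ : 0 < Nat.totient m := Nat.totient_pos.2 hm
  have hφ' : (0 : ℝ) < Nat.totient m := by exact_mod_cast hφ
  have hm' : (0 : ℝ) < m := by exact_mod_cast hm
  have hj' : (0 : ℝ) < j := by exact_mod_cast (by omega : 0 < j)
  have h2 := Vs_lower m (2 ^ i) hm hR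
  have h3 : (j : ℝ) / 64 ≤ Real.log (((2 ^ i : ℕ) : ℝ) + 1) := by
    have h4 : Real.log (((2 ^ i : ℕ) : ℝ)) ≤ Real.log (((2 ^ i : ℕ) : ℝ) + 1) :=
      Real.log_le_log (by positivity) (by linarith)
    have h5 : Real.log (((2 ^ i : ℕ) : ℝ)) = i * Real.log 2 := by
      push_cast; rw [Real.log_pow]
    have h6 : (1 : ℝ) / 2 ≤ Real.log 2 := by
      have := Real.log_two_gt_d9; linarith
    have h7 : (j : ℝ) ≤ 32 * i := by exact_mod_cast hij
    have h8 : (0 : ℝ) ≤ i := Nat.cast_nonneg i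
    have h9 : (i : ℝ) * (1 / 2) ≤ i * Real.log 2 := mul_le_mul_of_nonneg_left h6 h8
    linarith
  have h4 : (Vs m (2 ^ i))⁻¹ ≤ 128 * m / (Nat.totient m * j) := by
    have h5 : (j : ℝ) / 64 ≤ (m : ℝ) / Nat.totient m * (2 * Vs m (2 ^ i)) := h3.trans h2
    rw [inv_eq_one_div, div_le_div_iff₀ hV (by positivity)]
    rw [div_mul_eq_mul_div, div_le_div_iff₀ (by norm_num) hφ'] at h5
    linarith
  have h5 : (((2 ^ j : ℕ) : ℝ)) / m * (Vs m (2 ^ i))⁻¹ ≤ 128 * 2 ^ j / (Nat.totient m * j) := by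
    calc (((2 ^ j : ℕ) : ℝ)) / m * (Vs m (2 ^ i))⁻¹
        ≤ (((2 ^ j : ℕ) : ℝ)) / m * (128 * m / (Nat.totient m * j)) :=
          mul_le_mul_of_nonneg_left h4 (by positivity)
      _ = 128 * 2 ^ j / (Nat.totient m * j) := by
          push_cast
          field_simp
  have h6 : (((2 ^ i : ℕ) : ℝ)) ^ 4 ≤ 1 * 2 ^ j / (Nat.totient m * j) := by
    rw [le_div_iff₀ (by positivity), one_mul]
    have h7 : (2 ^ i) ^ 4 * (Nat.totient m * j) ≤ 2 ^ j := by
      have h8 : (2 ^ i) ^ 4 * (Nat.totient m * j) ≤ (2 ^ i) ^ 4 * (m * j) := by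
        gcongr
        exact Nat.totient_le m
      refine h8.trans ?_
      have h9 : (2 ^ i) ^ 8 * j ^ 2 ≤ 2 ^ j := by
        have h10 : ((2 ^ i) ^ 8 * j ^ 2) ^ 2 ≤ (2 ^ j) ^ 2 := by
          calc ((2 ^ i) ^ 8 * j ^ 2) ^ 2 = 2 ^ (16 * i) * j ^ 4 := by
                rw [mul_pow, ← pow_mul, ← pow_mul, ← pow_mul]
                ring_nf
            _ ≤ 2 ^ j * 2 ^ j :=
                Nat.mul_le_mul (Nat.pow_le_pow_right (by norm_num) hi16) (pow_four_le j hj)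
            _ = (2 ^ j) ^ 2 := by ring
        exact (Nat.pow_le_pow_iff_left (by norm_num)).1 h10
      have h11 : ((2 ^ i) ^ 4 * (m * j)) ^ 2 ≤ (2 ^ j) ^ 2 := by
        calc ((2 ^ i) ^ 4 * (m * j)) ^ 2 = (2 ^ i) ^ 8 * j ^ 2 * m ^ 2 := by ring
          _ ≤ 2 ^ j * 2 ^ j := Nat.mul_le_mul h9 hmj
          _ = (2 ^ j) ^ 2 := by ring
      exact (Nat.pow_le_pow_iff_left (by norm_num)).1 h11
    exact_mod_cast h7
  refine h1.trans ?_
  calc (((2 ^ j : ℕ) : ℝ)) / m * (Vs m (2 ^ i))⁻¹ + (((2 ^ i : ℕ) : ℝ)) ^ 4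
      ≤ 128 * 2 ^ j / (Nat.totient m * j) + 1 * 2 ^ j / (Nat.totient m * j) := add_le_add h5 h6
    _ = 129 * 2 ^ j / (Nat.totient m * j) := by ring

/-- weight of a prime -/
noncomputable def W (x : ℝ) (n : ℕ) : ℝ := if n.Prime then Real.log n / (n : ℝ) ^ x else 0

lemma W_nonneg (x : ℝ) (n : ℕ) : 0 ≤ W x n := by
  rw [W]; split_ifs with h
  · exact div_nonneg (Real.log_nonneg (by exact_mod_cast h.one_lt.le)) (by positivity)
  · exact le_rfl

lemma block_mass (m b j : ℕ) (hm : 0 < m) (hj : 16 ≤ j) (hmj : m ^ 2 ≤ 2 ^ j) (x : ℝ)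
    (hx : 1 < x) :
    ∑ n ∈ (Finset.Ioc (2 ^ j) (2 * 2 ^ j)).filter (fun n => n ≡ b [MOD m]), W x n
      ≤ 258 / Nat.totient m * ((2 : ℝ)⁻¹ ^ (x - 1)) ^ j := by
  have hφ : 0 < Nat.totient m := Nat.totient_pos.2 hm
  have hφ' : (0 : ℝ) < Nat.totient m := by exact_mod_cast hφ
  have hj' : (0 : ℝ) < j := by exact_mod_cast (by omega : 0 < j)
  have h1 : ∑ n ∈ (Finset.Ioc (2 ^ j) (2 * 2 ^ j)).filter (fun n => n ≡ b [MOD m]), W x n
      = ∑ n ∈ (Finset.Ioc (2 ^ j) (2 * 2 ^ j)).filter (fun n => n.Prime ∧ n ≡ b [MOD m]),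
        W x n := by
    rw [Finset.sum_filter, Finset.sum_filter]
    refine Finset.sum_congr rfl fun n _ => ?_
    by_cases hn : n.Prime
    · simp [hn]
    · simp [hn, W]
  rw [h1]
  have h2 : ∀ n ∈ (Finset.Ioc (2 ^ j) (2 * 2 ^ j)).filter (fun n => n.Prime ∧ n ≡ b [MOD m]),
      W x n ≤ (j + 1) / ((2 : ℝ) ^ j) ^ x := by
    intro n hn
    rw [Finset.mem_filter, Finset.mem_Ioc] at hn
    obtain ⟨⟨ha, hb⟩, hp, _⟩ := hn
    rw [W, if_pos hp]
    have ha' : (2 : ℝ) ^ j ≤ n := by exact_mod_cast ha.le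
    have hb' : (n : ℝ) ≤ 2 ^ (j + 1) := by
      rw [pow_succ, mul_comm]; exact_mod_cast hb
    have hn0 : (0 : ℝ) < n := by exact_mod_cast hp.pos
    apply div_le_div₀ (by positivity) _ (by positivity)
      (Real.rpow_le_rpow (by positivity) ha' (by linarith))
    calc Real.log n ≤ Real.log ((2 : ℝ) ^ (j + 1)) := Real.log_le_log hn0 hb'
      _ = (j + 1) * Real.log 2 := by rw [Real.log_pow]; push_cast; ring
      _ ≤ (j + 1) * 1 := by
          apply mul_le_mul_of_nonneg_left _ (by positivity)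
          have := Real.log_two_lt_d9; linarith
      _ = j + 1 := mul_one _
  refine (Finset.sum_le_card_nsmul _ _ _ h2).trans ?_
  rw [nsmul_eq_mul]
  have h3 := bt_dyadic m b j hm hj hmj
  have h4 : ((2 : ℝ) ^ j) ^ x = 2 ^ j * ((2 : ℝ) ^ (x - 1)) ^ j := by
    rw [← Real.rpow_natCast 2 j, ← Real.rpow_mul (by norm_num), ← Real.rpow_natCast _ j,
      ← Real.rpow_mul (by norm_num), ← Real.rpow_add (by norm_num)]
    congr 1; ring
  have h5 : ((2 : ℝ)⁻¹ ^ (x - 1)) ^ j = (((2 : ℝ) ^ (x - 1)) ^ j)⁻¹ := by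
    rw [Real.inv_rpow (by norm_num), inv_pow]
  have h6 : (0 : ℝ) < ((2 : ℝ) ^ (x - 1)) ^ j := by positivity
  have h7 : ((j : ℝ) + 1) ≤ 2 * j := by
    have : (1 : ℝ) ≤ j := by exact_mod_cast (by omega : 1 ≤ j)
    linarith
  calc ((((Finset.Ioc (2 ^ j) (2 * 2 ^ j)).filter (fun n => n.Prime ∧ n ≡ b [MOD m])).card : ℕ)
        : ℝ) * ((j + 1) / ((2 : ℝ) ^ j) ^ x)
      ≤ (129 * 2 ^ j / (Nat.totient m * j)) * ((2 * j) / ((2 : ℝ) ^ j) ^ x) := by
        apply mul_le_mul h3 _ (by positivity) (by positivity)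
        exact div_le_div_of_nonneg_right h7 (by positivity)
    _ = 258 / Nat.totient m * ((2 : ℝ)⁻¹ ^ (x - 1)) ^ j := by
        rw [h4, h5]
        field_simp
        ring

lemma two_inv_rpow (x : ℝ) (hx : x ∈ Set.Ioc (1 : ℝ) 2) :
    0 < (2 : ℝ)⁻¹ ^ (x - 1) ∧ (2 : ℝ)⁻¹ ^ (x - 1) ≤ 1 - (x - 1) / 2 := by
  constructor
  · positivity
  · have h := rpow_one_add_le_one_add_mul_self (s := (-1/2 : ℝ)) (by norm_num)
      (p := x - 1) (by linarith [hx.1]) (by linarith [hx.2])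
    have h2 : (1 : ℝ) + -1/2 = 2⁻¹ := by norm_num
    rw [h2] at h
    linarith

/-- total mass of primes `> 2^J` in a residue class to modulus `m ≤ 2^{J/2}` -/
lemma mass_le (m b J : ℕ) (hm : 0 < m) (hJ : 16 ≤ J) (hmJ : m ^ 2 ≤ 2 ^ J) (x : ℝ)
    (hx : x ∈ Set.Ioc (1 : ℝ) 2) (Z : ℕ) :
    ∑ n ∈ (Finset.Ioc (2 ^ J) Z).filter (fun n => n ≡ b [MOD m]), W x n
      ≤ 516 / (Nat.totient m * (x - 1)) := by
  have hφ : 0 < Nat.totient m := Nat.totient_pos.2 hm
  have hφ' : (0 : ℝ) < Nat.totient m := by exact_mod_cast hφ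
  obtain ⟨r0, r1⟩ := two_inv_rpow x hx
  set r : ℝ := (2 : ℝ)⁻¹ ^ (x - 1) with hr
  have hx1 : 0 < x - 1 := by linarith [hx.1]
  have hr1 : r < 1 := by linarith
  have h1 : ∀ i : ℕ, ∑ n ∈ (Finset.Ioc (2 ^ J) (2 ^ (J + i))).filter (fun n => n ≡ b [MOD m]), W x n
      ≤ 258 / Nat.totient m * ∑ k ∈ Finset.range i, r ^ (J + k) := by
    intro i
    induction i with
    | zero => simp
    | succ i ih =>
      have hle1 : 2 ^ J ≤ 2 ^ (J + i) := Nat.pow_le_pow_right (by norm_num) (by omega)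
      have hle2 : 2 ^ (J + i) ≤ 2 ^ (J + (i + 1)) := Nat.pow_le_pow_right (by norm_num) (by omega)
      rw [← Finset.Ioc_union_Ioc_eq_Ioc hle1 hle2, Finset.filter_union, Finset.sum_union]
      · rw [Finset.sum_range_succ, mul_add]
        refine add_le_add ih ?_
        have h2 := block_mass m b (J + i) hm (by omega)
          (hmJ.trans hle1) x hx.1
        have h3 : 2 * 2 ^ (J + i) = 2 ^ (J + (i + 1)) := by rw [← add_assoc, pow_succ]; ring
        rw [h3] at h2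
        exact h2
      · apply Finset.disjoint_filter_filter
        rw [Finset.disjoint_left]
        intro n h1 h2
        rw [Finset.mem_Ioc] at h1 h2
        omega
  have h2 : ∑ n ∈ (Finset.Ioc (2 ^ J) Z).filter (fun n => n ≡ b [MOD m]), W x n
      ≤ ∑ n ∈ (Finset.Ioc (2 ^ J) (2 ^ (J + Z))).filter (fun n => n ≡ b [MOD m]), W x n := by
    apply Finset.sum_le_sum_of_subset_of_nonneg _ fun _ _ _ => W_nonneg _ _
    apply Finset.filter_subset_filter
    apply Finset.Ioc_subset_Ioc_right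
    have : Z < 2 ^ Z := Nat.lt_two_pow_self
    have h3 : 2 ^ Z ≤ 2 ^ (J + Z) := Nat.pow_le_pow_right (by norm_num) (by omega)
    omega
  have h3 : ∑ k ∈ Finset.range Z, r ^ (J + k) ≤ 2 / (x - 1) := by
    calc ∑ k ∈ Finset.range Z, r ^ (J + k) ≤ ∑ k ∈ Finset.range Z, r ^ k := by
          refine Finset.sum_le_sum fun k _ => ?_
          rw [pow_add]
          exact mul_le_of_le_one_left (by positivity) (pow_le_one₀ r0.le hr1.le)
      _ ≤ (1 - r)⁻¹ := by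
          have hs := sum_le_hasSum (Finset.range Z) (fun k _ => by positivity)
            (hasSum_geometric_of_lt_one r0.le hr1)
          exact hs
      _ ≤ 2 / (x - 1) := by
          rw [inv_eq_one_div, div_le_div_iff₀ (by linarith) hx1]
          linarith
  calc ∑ n ∈ (Finset.Ioc (2 ^ J) Z).filter (fun n => n ≡ b [MOD m]), W x n
      ≤ 258 / Nat.totient m * ∑ k ∈ Finset.range Z, r ^ (J + k) := h2.trans (h1 Z)
    _ ≤ 258 / Nat.totient m * (2 / (x - 1)) := mul_le_mul_of_nonneg_left h3 (by positivity)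
    _ = 516 / (Nat.totient m * (x - 1)) := by field_simp; norm_num

/-- threshold version -/
lemma mass_thr (q M' b N₀ : ℕ) (hq : 0 < q) (hM' : 0 < M') (hN₀ : 256 * M' ^ 8 ≤ N₀)
    (hN₀' : 2 ^ 17 ≤ N₀) (x : ℝ) (hx : x ∈ Set.Ioc (1 : ℝ) 2) (Z : ℕ) :
    ∑ n ∈ (Finset.Icc N₀ Z).filter (fun n => q ^ 4 ≤ n ∧ n ≡ b [MOD (q * M')]), W x n
      ≤ 516 / (Nat.totient (q * M') * (x - 1)) := by
  set T₀ := max N₀ (q ^ 4) with hT₀
  have hT1 : N₀ ≤ T₀ := le_max_left _ _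
  have hT2 : q ^ 4 ≤ T₀ := le_max_right _ _
  have hT0 : T₀ ≠ 0 := by omega
  set J' := Nat.log 2 T₀ with hJ'
  have hJ1 : 2 ^ J' ≤ T₀ := Nat.pow_log_le_self 2 hT0
  have hJ2 : T₀ < 2 ^ (J' + 1) := Nat.lt_pow_succ_log_self (by norm_num) T₀
  have hJ17 : 17 ≤ J' := by
    by_contra h
    have : 2 ^ (J' + 1) ≤ 2 ^ 17 := Nat.pow_le_pow_right (by norm_num) (by omega)
    omega
  obtain ⟨J, hJ⟩ : ∃ J, J' = J + 1 := ⟨J' - 1, by omega⟩
  have h4 : 4 * (q * M') ^ 2 ≤ T₀ := by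
    have h5 : (4 * (q * M') ^ 2) ^ 4 ≤ T₀ ^ 4 := by
      calc (4 * (q * M') ^ 2) ^ 4 = (q ^ 4 * q ^ 4) * (256 * M' ^ 8) := by ring
        _ ≤ (T₀ * T₀) * T₀ := Nat.mul_le_mul (Nat.mul_le_mul hT2 hT2) (hN₀.trans hT1)
        _ ≤ (T₀ * T₀) * T₀ * T₀ := Nat.le_mul_of_pos_right _ (by omega)
        _ = T₀ ^ 4 := by ring
    exact (Nat.pow_le_pow_iff_left (by norm_num)).1 h5
  have h6 : (q * M') ^ 2 ≤ 2 ^ J := by
    have : 2 ^ (J' + 1) = 4 * 2 ^ J := by rw [hJ]; ring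
    omega
  have h7 := mass_le (q * M') b J (by positivity) (by omega) h6 x hx Z
  refine le_trans ?_ h7
  apply Finset.sum_le_sum_of_subset_of_nonneg _ fun _ _ _ => W_nonneg _ _
  intro n hn
  rw [Finset.mem_filter, Finset.mem_Icc] at hn
  rw [Finset.mem_filter, Finset.mem_Ioc]
  have h8 : T₀ ≤ n := max_le hn.1.1 hn.2.1
  have h9 : 2 ^ J < 2 ^ J' := Nat.pow_lt_pow_right (by norm_num) (by omega)
  exact ⟨⟨by omega, hn.1.2⟩, hn.2.2⟩

/-- the shift `n ∓ 1`. -/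
def IsShift (sh : ℕ → ℕ) : Prop := (∀ n, sh n = n - 1) ∨ (∀ n, sh n = n + 1)

/-- trivial bound for small `n` -/
lemma small_mass (sh : ℕ → ℕ) (hsh : IsShift sh) (q : ℕ) (hq : 2 ≤ q) (x : ℝ) (hx : 1 < x)
    (Z : ℕ) :
    ∑ n ∈ (Finset.Icc 3 Z).filter (fun n => n < q ^ 4 ∧ q ∣ sh n), W x n
      ≤ 40 * (Real.log q) ^ 2 / q := by
  have hq0 : (0 : ℝ) < q := by exact_mod_cast (by omega : 0 < q)
  have hlq : (1 : ℝ) / 2 ≤ Real.log q := by
    have h1 : Real.log 2 ≤ Real.log q := Real.log_le_log (by norm_num) (by exact_mod_cast hq)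
    have := Real.log_two_gt_d9
    linarith
  have h1 : ∀ n ∈ (Finset.Icc 3 Z).filter (fun n => n < q ^ 4 ∧ q ∣ sh n),
      W x n ≤ 8 * Real.log q / q * ((sh n / q : ℕ) : ℝ)⁻¹ ∧ 
        sh n / q ∈ Finset.Icc 1 (q ^ 3) := by
    intro n hn
    rw [Finset.mem_filter, Finset.mem_Icc] at hn
    obtain ⟨⟨hn3, hnZ⟩, hnq, t, ht⟩ := hn
    have hs : sh n ≤ n + 1 ∧ sh n ≤ 2 * n ∧ n ≤ sh n + 1 := by
      rcases hsh with h | h <;> rw [h] <;> omega
    have ht2 : sh n / q = t := by rw [ht, Nat.mul_div_cancel_left _ (by omega)]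
    have ht0 : 0 < t := by
      rcases Nat.eq_zero_or_pos t with rfl | h
      · rw [mul_zero] at ht; omega
      · exact h
    have ht3 : t ≤ q ^ 3 := by
      have h2 : q * t ≤ q * q ^ 3 := by
        rw [← ht]
        calc sh n ≤ n + 1 := hs.1
          _ ≤ q ^ 4 := hnq
          _ = q * q ^ 3 := by ring
      exact Nat.le_of_mul_le_mul_left h2 (by omega)
    refine ⟨?_, by rw [ht2, Finset.mem_Icc]; exact ⟨ht0, ht3⟩⟩
    rw [ht2]
    have hrhs : 0 ≤ 8 * Real.log q / q * (t : ℝ)⁻¹ := by positivity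
    rw [W]
    split_ifs with hp
    · have hn0 : (0 : ℝ) < n := by exact_mod_cast (by omega : 0 < n)
      have h3 : (n : ℝ) ≤ (n : ℝ) ^ x := by
        conv_lhs => rw [← Real.rpow_one n]
        exact Real.rpow_le_rpow_of_exponent_le (by exact_mod_cast (by omega : 1 ≤ n)) hx.le
      have h4 : Real.log n ≤ 4 * Real.log q := by
        calc Real.log n ≤ Real.log ((q : ℝ) ^ 4) :=
              Real.log_le_log hn0 (by exact_mod_cast hnq.le)
          _ = 4 * Real.log q := by rw [Real.log_pow]; norm_num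
      have h5 : (q : ℝ) * t ≤ 2 * n := by
        have : q * t ≤ 2 * n := by rw [← ht]; exact hs.2.1
        exact_mod_cast this
      have ht0' : (0 : ℝ) < t := by exact_mod_cast ht0
      calc Real.log n / (n : ℝ) ^ x ≤ (4 * Real.log q) / n := by
            apply div_le_div₀ (by positivity) h4 hn0 h3
        _ ≤ (8 * Real.log q) / (q * t) := by
            rw [div_le_div_iff₀ hn0 (by positivity)]
            have : 0 ≤ 4 * Real.log q := by linarith
            nlinarith [mul_le_mul_of_nonneg_left h5 this]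
        _ = 8 * Real.log q / q * (t : ℝ)⁻¹ := by field_simp
    · exact hrhs
  have hinj : Set.InjOn (fun n => sh n / q)
      ((Finset.Icc 3 Z).filter (fun n => n < q ^ 4 ∧ q ∣ sh n) : Finset ℕ) := by
    intro a ha b hb hab
    rw [Finset.mem_coe, Finset.mem_filter, Finset.mem_Icc] at ha hb
    obtain ⟨t, ht⟩ := ha.2.2
    obtain ⟨t', ht'⟩ := hb.2.2
    simp only at hab
    rw [ht, ht', Nat.mul_div_cancel_left _ (by omega), Nat.mul_div_cancel_left _ (by omega)] at hab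
    have : sh a = sh b := by rw [ht, ht', hab]
    rcases hsh with h | h <;> rw [h, h] at this <;> omega
  calc ∑ n ∈ (Finset.Icc 3 Z).filter (fun n => n < q ^ 4 ∧ q ∣ sh n), W x n
      ≤ ∑ n ∈ (Finset.Icc 3 Z).filter (fun n => n < q ^ 4 ∧ q ∣ sh n),
          8 * Real.log q / q * ((sh n / q : ℕ) : ℝ)⁻¹ :=
        Finset.sum_le_sum fun n hn => (h1 n hn).1
    _ = 8 * Real.log q / q * ∑ n ∈ (Finset.Icc 3 Z).filter (fun n => n < q ^ 4 ∧ q ∣ sh n),
          ((sh n / q : ℕ) : ℝ)⁻¹ := by rw [Finset.mul_sum]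
    _ ≤ 8 * Real.log q / q * (5 * Real.log q) := by
        apply mul_le_mul_of_nonneg_left _ (by positivity)
        have h2 : ∑ n ∈ (Finset.Icc 3 Z).filter (fun n => n < q ^ 4 ∧ q ∣ sh n),
            ((sh n / q : ℕ) : ℝ)⁻¹ = ∑ t ∈ ((Finset.Icc 3 Z).filter
              (fun n => n < q ^ 4 ∧ q ∣ sh n)).image (fun n => sh n / q), (t : ℝ)⁻¹ := by
          rw [Finset.sum_image hinj]
        rw [h2]
        have h3 : ((Finset.Icc 3 Z).filter (fun n => n < q ^ 4 ∧ q ∣ sh n)).image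
            (fun n => sh n / q) ⊆ Finset.Icc 1 (q ^ 3) := by
          intro t ht
          obtain ⟨n, hn, rfl⟩ := Finset.mem_image.1 ht
          exact (h1 n hn).2
        refine (Finset.sum_le_sum_of_subset_of_nonneg h3 fun _ _ _ => by positivity).trans ?_
        have h4 := harmonic_le_one_add_log (q ^ 3)
        rw [harmonic_eq_sum_Icc] at h4
        push_cast at h4
        rw [Real.log_pow] at h4
        push_cast at h4
        linarith
    _ = 40 * (Real.log q) ^ 2 / q := by ring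


open ArithmeticFunction ArithmeticFunction.vonMangoldt Complex

section NT

variable {q : ℕ} [NeZero q] {a : ZMod q}

/-- weights -/
noncomputable def wt (a : ZMod q) (x : ℝ) (n : ℕ) : ℝ := residueClass a n / (n : ℝ) ^ x

lemma wt_nonneg (x : ℝ) (n : ℕ) : 0 ≤ wt a x n := 
  div_nonneg (residueClass_nonneg a n) (by positivity)

lemma wt_zero (x : ℝ) : wt a x 0 = 0 := by simp [wt]

lemma wt_le {x : ℝ} (hx : 1 < x) (n : ℕ) : wt a x n ≤ residueClass a n / n := by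
  rcases n.eq_zero_or_pos with rfl | hn
  · simp [wt]
  · refine div_le_div_of_nonneg_left (residueClass_nonneg a _) (mod_cast hn) ?_
    conv_lhs => rw [← Real.rpow_one n]
    exact Real.rpow_le_rpow_of_exponent_le (by norm_cast) hx.le

lemma wt_summable {x : ℝ} (hx : 1 < x) : Summable (wt a x) :=
  LSeries.summable_real_of_abscissaOfAbsConv_lt <|
        (abscissaOfAbsConv_residueClass_le_one a).trans_lt <| mod_cast hx

/-- the character `y ↦ e^{iτy}` -/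
noncomputable def ch (τ y : ℝ) : ℂ := Complex.exp (((τ * y : ℝ) : ℂ) * Complex.I)

lemma norm_ch (τ y : ℝ) : ‖ch τ y‖ = 1 := Complex.norm_exp_ofReal_mul_I _

lemma ch_zero (y : ℝ) : ch 0 y = 1 := by simp [ch]

lemma ch_add (τ τ' y : ℝ) : ch (τ + τ') y = ch τ y * ch τ' y := by
  rw [ch, ch, ch, ← Complex.exp_add]; congr 1; push_cast; ring

lemma ch_sub_right (τ y z : ℝ) : ch τ (y - z) = ch τ y * ch (-τ) z := by
  rw [ch, ch, ch, ← Complex.exp_add]; congr 1; push_cast; ring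

lemma term_eq (x τ : ℝ) (n : ℕ) :
    LSeries.term (fun n => ((residueClass a n : ℝ) : ℂ)) ((x : ℂ) - τ * Complex.I) n
      = (wt a x n : ℂ) * ch τ (Real.log n) := by
  rcases n.eq_zero_or_pos with rfl | hn
  · simp [wt]
  · have hn0 : (n : ℂ) ≠ 0 := by exact_mod_cast hn.ne'
    rw [LSeries.term_of_ne_zero hn.ne', Complex.cpow_sub _ _ hn0, wt, ch]
    have h1 : ((((n : ℝ) ^ x : ℝ)) : ℂ) = (n : ℂ) ^ (x : ℂ) := by
      rw [Complex.ofReal_cpow (Nat.cast_nonneg _)]; simp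
    have h2 : (n : ℂ) ^ ((τ : ℂ) * Complex.I)
        = Complex.exp (((τ * Real.log n : ℝ) : ℂ) * Complex.I) := by
      rw [Complex.cpow_def_of_ne_zero hn0]
      congr 1
      push_cast
      ring
    rw [h2, Complex.ofReal_div, h1]
    field_simp

lemma char_bound (ha : IsUnit a) (τ : ℝ) : ∃ C : ℝ, ∀ x ∈ Set.Ioc (1:ℝ) 2,
    ‖(∑' n, (wt a x n : ℂ) * ch τ (Real.log n))
      - (if τ = 0 then (((q.totient : ℝ)⁻¹ / (x - 1) : ℝ) : ℂ) else 0)‖ ≤ C := by
  have hcont : ContinuousOn (fun x : ℝ => LFunctionResidueClassAux a ((x : ℂ) - τ * Complex.I))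
      (Set.Icc 1 2) := by
    refine (continuousOn_LFunctionResidueClassAux a).comp (by fun_prop) ?_
    intro x hx
    simp only [Set.mem_ofPred_eq, Complex.sub_re, Complex.ofReal_re, Complex.mul_re,
      Complex.I_re, mul_zero, Complex.ofReal_im, Complex.I_im, mul_one, sub_zero]
    exact hx.1
  obtain ⟨C, hC⟩ := (isCompact_Icc.exists_bound_of_continuousOn hcont)
  have key : ∀ x ∈ Set.Ioc (1:ℝ) 2, (∑' n, (wt a x n : ℂ) * ch τ (Real.log n))
      = LFunctionResidueClassAux a ((x : ℂ) - τ * Complex.I)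
        + (q.totient : ℂ)⁻¹ / ((x : ℂ) - τ * Complex.I - 1) := by
    intro x hx
    have hmem : ((x : ℂ) - τ * Complex.I) ∈ {s : ℂ | 1 < s.re} := by
      simp only [Set.mem_ofPred_eq, Complex.sub_re, Complex.ofReal_re, Complex.mul_re,
        Complex.I_re, mul_zero, Complex.ofReal_im, Complex.I_im, mul_one, sub_zero]
      exact hx.1
    rw [eqOn_LFunctionResidueClassAux ha hmem]
    simp only [sub_add_cancel]
    rw [LSeries]
    exact tsum_congr fun n => (term_eq x τ n).symm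
  by_cases hτ : τ = 0
  · subst hτ
    refine ⟨C, fun x hx => ?_⟩
    rw [key x hx, if_pos rfl]
    have : (q.totient : ℂ)⁻¹ / ((x : ℂ) - (0:ℝ) * Complex.I - 1)
        = (((q.totient : ℝ)⁻¹ / (x - 1) : ℝ) : ℂ) := by push_cast; ring
    rw [this, add_sub_cancel_right]
    exact hC x ⟨hx.1.le, hx.2⟩
  · refine ⟨C + |τ|⁻¹, fun x hx => ?_⟩
    rw [key x hx, if_neg hτ, sub_zero]
    refine (norm_add_le _ _).trans (add_le_add (hC x ⟨hx.1.le, hx.2⟩) ?_)
    rw [norm_div, norm_inv]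
    have h1 : |τ| ≤ ‖(x : ℂ) - τ * Complex.I - 1‖ := by
      have := Complex.abs_im_le_norm ((x : ℂ) - τ * Complex.I - 1)
      simpa using this
    have h2 : (1 : ℝ) ≤ ‖(q.totient : ℂ)‖ := by
      rw [Complex.norm_natCast]
      exact_mod_cast Nat.totient_pos.2 q.pos_of_neZero
    have h3 : 0 < |τ| := abs_pos.2 hτ
    calc ‖(q.totient : ℂ)‖⁻¹ / ‖(x : ℂ) - τ * Complex.I - 1‖
        ≤ 1 / |τ| := by
          apply div_le_div₀ (by norm_num) (inv_le_one_of_one_le₀ h2) h3 h1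
      _ = |τ|⁻¹ := one_div _

lemma summable_wt_mul {x : ℝ} (hx : 1 < x) (g : ℕ → ℂ) (hg : ∀ n, ‖g n‖ ≤ 1) :
    Summable (fun n => (wt a x n : ℂ) * g n) := by
  refine Summable.of_norm_bounded (wt_summable (a := a) hx) fun n => ?_
  rw [norm_mul, Complex.norm_real, Real.norm_eq_abs, abs_of_nonneg (wt_nonneg _ _)]
  exact mul_le_of_le_one_right (wt_nonneg _ _) (hg n)

/-- mean of a trigonometric polynomial -/
lemma trig_mean (ha : IsUnit a) {ι : Type} (s : Finset ι) (c τ : ι → ℝ) (y₀ : ℝ) :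
    ∃ C : ℝ, ∀ x ∈ Set.Ioc (1:ℝ) 2,
      ‖(∑' n, (wt a x n : ℂ) * ∑ k ∈ s, (c k : ℂ) * ch (τ k) (Real.log n - y₀))
        - (((∑ k ∈ s, if τ k = 0 then c k else 0) * ((q.totient : ℝ)⁻¹ / (x - 1)) : ℝ) : ℂ)‖
        ≤ C := by
  classical
  choose C hC using fun k : ι => char_bound ha (τ k)
  refine ⟨∑ k ∈ s, |c k| * C k, fun x hx => ?_⟩
  have h1 : (∑' n, (wt a x n : ℂ) * ∑ k ∈ s, (c k : ℂ) * ch (τ k) (Real.log n - y₀))
      = ∑ k ∈ s, (c k : ℂ) * ch (-τ k) y₀ * ∑' n, (wt a x n : ℂ) * ch (τ k) (Real.log n) := by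
    have h2 : ∀ n, (wt a x n : ℂ) * ∑ k ∈ s, (c k : ℂ) * ch (τ k) (Real.log n - y₀)
        = ∑ k ∈ s, (c k : ℂ) * ch (-τ k) y₀ * ((wt a x n : ℂ) * ch (τ k) (Real.log n)) := by
      intro n
      rw [Finset.mul_sum]
      refine Finset.sum_congr rfl fun k _ => ?_
      rw [ch_sub_right]; ring
    simp_rw [h2]
    rw [Summable.tsum_finsetSum]
    · refine Finset.sum_congr rfl fun k _ => ?_
      rw [tsum_mul_left]
    · intro k _
      exact (summable_wt_mul hx.1 _ (fun n => (norm_ch _ _).le)).mul_left _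
  rw [h1]
  have h3 : (((∑ k ∈ s, if τ k = 0 then c k else 0) * ((q.totient : ℝ)⁻¹ / (x - 1)) : ℝ) : ℂ)
      = ∑ k ∈ s, (c k : ℂ) * ch (-τ k) y₀ *
        (if τ k = 0 then (((q.totient : ℝ)⁻¹ / (x - 1) : ℝ) : ℂ) else 0) := by
    rw [Complex.ofReal_mul, Complex.ofReal_sum, Finset.sum_mul]
    refine Finset.sum_congr rfl fun k _ => ?_
    split_ifs with h
    · rw [h, neg_zero, ch_zero, mul_one]
    · simp
  rw [h3, ← Finset.sum_sub_distrib]
  refine (norm_sum_le _ _).trans (Finset.sum_le_sum fun k _ => ?_)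
  rw [← mul_sub, norm_mul, norm_mul, norm_ch, mul_one, Complex.norm_real, Real.norm_eq_abs]
  exact mul_le_mul_of_nonneg_left (hC k x hx) (abs_nonneg _)


/-- the kernel -/
noncomputable def Q (F : Finset ℝ) (K : ℕ) (y : ℝ) : ℂ := ∏ t ∈ F, ((1 + ch t y) / 2) ^ K

/-- nonnegative trigonometric polynomials with `n` terms -/
def TP (f : ℝ → ℂ) (n : ℕ) : Prop :=
  ∃ (ι : Type) (_ : Fintype ι) (c τ : ι → ℝ), Fintype.card ι = n ∧ (∀ k, 0 ≤ c k) ∧
    ∀ y, f y = ∑ k, (c k : ℂ) * ch (τ k) y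

lemma TP.one : TP (fun _ => 1) 1 :=
  ⟨Unit, inferInstance, fun _ => 1, fun _ => 0, rfl, fun _ => zero_le_one, fun y => by
    simp [ch_zero]⟩

lemma TP.mul {f g : ℝ → ℂ} {m n : ℕ} (hf : TP f m) (hg : TP g n) :
    TP (fun y => f y * g y) (m * n) := by
  obtain ⟨ι, _, c, τ, rfl, hc, hfe⟩ := hf
  obtain ⟨κ, _, d, σ, rfl, hd, hge⟩ := hg
  refine ⟨ι × κ, inferInstance, fun k => c k.1 * d k.2, fun k => τ k.1 + σ k.2,
    Fintype.card_prod _ _, fun k => mul_nonneg (hc _) (hd _), fun y => ?_⟩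
  change f y * g y = ∑ k : ι × κ, ((c k.1 * d k.2 : ℝ) : ℂ) * ch (τ k.1 + σ k.2) y
  rw [hfe, hge, Finset.sum_mul_sum, ← Finset.sum_product']
  refine Finset.sum_congr rfl fun k _ => ?_
  rw [ch_add]; push_cast; ring

lemma ch_nat_mul (t y : ℝ) (k : ℕ) : ch (k * t) y = ch t y ^ k := by
  rw [ch, ch, ← Complex.exp_nat_mul]; congr 1; push_cast; ring

lemma TP.base (t : ℝ) (K : ℕ) : TP (fun y => ((1 + ch t y) / 2) ^ K) (K + 1) := by
  refine ⟨Fin (K + 1), inferInstance, fun k => (K.choose k : ℝ) / 2 ^ K,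
    fun k => (k : ℕ) * t, Fintype.card_fin _, fun k => by positivity, fun y => ?_⟩
  change ((1 + ch t y) / 2) ^ K
    = ∑ k : Fin (K + 1), (((K.choose k : ℝ) / 2 ^ K : ℝ) : ℂ) * ch ((k : ℕ) * t) y
  rw [div_pow, add_comm, add_pow, ← Fin.sum_univ_eq_sum_range
    (fun m => ch t y ^ m * 1 ^ (K - m) * (K.choose m : ℂ)) (K + 1), Finset.sum_div]
  refine Finset.sum_congr rfl fun k _ => ?_
  rw [ch_nat_mul]; push_cast; ring

lemma TP.Q (F : Finset ℝ) (K : ℕ) : TP (Q F K) ((K + 1) ^ F.card) := by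
  induction F using Finset.induction_on with
  | empty =>
    have h : LibSP23.Q ∅ K = fun _ => 1 := by ext y; simp [LibSP23.Q]
    rw [h]
    simpa using TP.one
  | insert t F ht ih =>
    have := (TP.base t K).mul ih
    rw [Finset.card_insert_of_notMem ht, pow_succ, mul_comm]
    refine cast ?_ this
    congr 1
    ext y
    rw [LibSP23.Q, LibSP23.Q, Finset.prod_insert ht]

lemma ch_at_zero (t : ℝ) : ch t 0 = 1 := by simp [ch]

/-- Mean of `|f|²`, for a nonnegative trigonometric polynomial `f` with `f 0 = 1`. -/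
lemma TP.sq_mean (ha : IsUnit a) {f : ℝ → ℂ} {n : ℕ} (hf : TP f n) (hf0 : f 0 = 1) (y₀ : ℝ) :
    ∃ C : ℝ, ∀ x ∈ Set.Ioc (1:ℝ) 2,
      (n : ℝ)⁻¹ * ((q.totient : ℝ)⁻¹ / (x - 1)) - C
        ≤ ∑' m : ℕ, wt a x m * ‖f (Real.log m - y₀)‖ ^ 2 := by
  classical
  obtain ⟨ι, _, c, τ, hcard, hc, hfe⟩ := hf
  obtain ⟨C, hC⟩ := trig_mean ha (Finset.univ : Finset (ι × ι)) (fun k => c k.1 * c k.2)
    (fun k => τ k.1 - τ k.2) y₀
  refine ⟨C, fun x hx => ?_⟩
  have hsum1 : ∑ k, c k = 1 := by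
    have := hfe 0
    rw [hf0] at this
    simp only [ch_at_zero, mul_one] at this
    exact_mod_cast this.symm
  have hn0 : 0 < n := by
    rw [← hcard]
    refine Fintype.card_pos_iff.2 ?_
    by_contra h
    rw [not_nonempty_iff] at h
    simp at hsum1
  have hnorm : ∀ y : ℝ, ((‖f y‖ ^ 2 : ℝ) : ℂ)
      = ∑ k : ι × ι, ((c k.1 * c k.2 : ℝ) : ℂ) * ch (τ k.1 - τ k.2) y := by
    intro y
    rw [← Complex.normSq_eq_norm_sq, Complex.normSq_eq_conj_mul_self, hfe, map_sum, mul_comm,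
      Finset.sum_mul_sum, ← Finset.sum_product']
    refine Finset.sum_congr rfl fun k _ => ?_
    have hconj : (starRingEnd ℂ) (ch (τ k.2) y) = ch (-τ k.2) y := by
      rw [ch, ch, ← Complex.exp_conj]
      congr 1
      simp
    rw [map_mul, hconj, sub_eq_add_neg, ch_add, Complex.conj_ofReal]
    push_cast; ring
  have hre : (∑' m : ℕ, wt a x m * ‖f (Real.log m - y₀)‖ ^ 2 : ℝ)
      = (∑' m : ℕ, (wt a x m : ℂ) * ∑ k : ι × ι, ((c k.1 * c k.2 : ℝ) : ℂ)
          * ch (τ k.1 - τ k.2) (Real.log m - y₀)).re := by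
    have : (∑' m : ℕ, (wt a x m : ℂ) * ∑ k : ι × ι, ((c k.1 * c k.2 : ℝ) : ℂ)
          * ch (τ k.1 - τ k.2) (Real.log m - y₀))
        = ((∑' m : ℕ, wt a x m * ‖f (Real.log m - y₀)‖ ^ 2 : ℝ) : ℂ) := by
      rw [Complex.ofReal_tsum]
      refine tsum_congr fun m => ?_
      rw [← hnorm]; push_cast; ring
    rw [this, Complex.ofReal_re]
  have hmain : (n : ℝ)⁻¹ ≤ ∑ k : ι × ι, if τ k.1 - τ k.2 = 0 then c k.1 * c k.2 else 0 := by
    have h1 : ∑ k : ι, c k ^ 2 ≤ ∑ k : ι × ι, if τ k.1 - τ k.2 = 0 then c k.1 * c k.2 else 0 := by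
      rw [Fintype.sum_prod_type]
      refine Finset.sum_le_sum fun k _ => ?_
      have h2 : c k ^ 2 = if τ k - τ k = 0 then c k * c k else 0 := by
        rw [if_pos (sub_self _)]; ring
      rw [h2]
      exact Finset.single_le_sum (f := fun k' => if τ k - τ k' = 0 then c k * c k' else 0)
        (fun k' _ => by
          split_ifs
          · exact mul_nonneg (hc _) (hc _)
          · exact le_rfl) (Finset.mem_univ k)
    have h3 : (∑ k : ι, c k) ^ 2 ≤ (Finset.univ : Finset ι).card * ∑ k : ι, c k ^ 2 :=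
      sq_sum_le_card_mul_sum_sq
    rw [hsum1, one_pow, Finset.card_univ, hcard] at h3
    have hn0' : (0 : ℝ) < n := by exact_mod_cast hn0
    refine le_trans ?_ h1
    rw [inv_le_iff_one_le_mul₀ hn0', mul_comm]
    exact h3
  have h4 := (Complex.abs_re_le_norm _).trans (hC x hx)
  rw [Complex.sub_re, Complex.ofReal_re, ← hre] at h4
  have h5 := (abs_le.1 h4).1
  have h6 : 0 ≤ (q.totient : ℝ)⁻¹ / (x - 1) :=
    div_nonneg (by positivity) (by linarith [hx.1])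
  have h7 := mul_le_mul_of_nonneg_right hmain h6
  linarith

/-- parallelogram law -/
lemma half_one_add (t y : ℝ) : ‖(1 + ch t y) / 2‖ ^ 2 = 1 - ‖ch t y - 1‖ ^ 2 / 4 := by
  have h := parallelogram_law_with_norm ℝ (1 : ℂ) (ch t y)
  rw [norm_ch, norm_one] at h
  rw [norm_div, div_pow, norm_sub_rev (ch t y) 1]
  have : ‖(2 : ℂ)‖ = 2 := by simp
  rw [this]
  nlinarith

lemma Q_le_one (F : Finset ℝ) (K : ℕ) (y : ℝ) : ‖Q F K y‖ ≤ 1 := by
  rw [Q, norm_prod]
  refine Finset.prod_le_one (fun _ _ => norm_nonneg _) fun t _ => ?_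
  rw [norm_pow]
  refine pow_le_one₀ (norm_nonneg _) ?_
  have := half_one_add t y
  have h2 := sq_nonneg ‖ch t y - 1‖
  have h3 := norm_nonneg ((1 + ch t y) / 2)
  nlinarith

lemma Q_small (F : Finset ℝ) (K : ℕ) (y δ : ℝ) (hδ : 0 ≤ δ) (t : ℝ) (ht : t ∈ F)
    (h : δ < ‖ch t y - 1‖) : ‖Q F K y‖ ^ 2 ≤ (1 - δ ^ 2 / 4) ^ K := by
  classical
  have hQ : Q F K y = ((1 + ch t y) / 2) ^ K * Q (F.erase t) K y := by
    rw [Q, Q, Finset.mul_prod_erase F (fun t => ((1 + ch t y) / 2) ^ K) ht]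
  rw [hQ, norm_mul, mul_pow, norm_pow, ← pow_mul, mul_comm K 2, pow_mul, half_one_add]
  have h1 : ‖Q (F.erase t) K y‖ ^ 2 ≤ 1 := pow_le_one₀ (norm_nonneg _) (Q_le_one _ _ _)
  have h0 : 0 ≤ 1 - ‖ch t y - 1‖ ^ 2 / 4 := by
    rw [← half_one_add]; positivity
  have h2 : (1 - ‖ch t y - 1‖ ^ 2 / 4) ^ K ≤ (1 - δ ^ 2 / 4) ^ K := by
    refine pow_le_pow_left₀ h0 ?_ K
    nlinarith
  calc (1 - ‖ch t y - 1‖ ^ 2 / 4) ^ K * ‖Q (F.erase t) K y‖ ^ 2
      ≤ (1 - ‖ch t y - 1‖ ^ 2 / 4) ^ K * 1 := by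
        exact mul_le_mul_of_nonneg_left h1 (pow_nonneg h0 _)
    _ ≤ _ := by rw [mul_one]; exact h2

lemma Q_zero (F : Finset ℝ) (K : ℕ) : Q F K 0 = 1 := by
  simp [Q, ch_at_zero]

lemma exists_K (d : ℕ) {κ : ℝ} (h0 : 0 < κ) (h1 : κ < 1) :
    ∃ K : ℕ, κ ^ K < (((K + 1) ^ d : ℕ) : ℝ)⁻¹ := by
  have h := tendsto_pow_const_mul_const_pow_of_lt_one d h0.le h1
  have h' := (h.comp (Filter.tendsto_add_atTop_nat 1)).eventually (gt_mem_nhds h0)
  obtain ⟨K, hK⟩ := h'.exists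
  refine ⟨K, ?_⟩
  simp only [Function.comp] at hK
  rw [pow_succ κ K, ← mul_assoc] at hK
  have h3 : ((K + 1 : ℕ) : ℝ) ^ d * κ ^ K < 1 := by
    by_contra hcon
    push Not at hcon
    nlinarith
  have h4 : (0 : ℝ) < ((K + 1 : ℕ) : ℝ) ^ d := by positivity
  rw [Nat.cast_pow, lt_inv_comm₀ (by positivity) h4, inv_eq_one_div, lt_div_iff₀ (by positivity)]
  exact h3

end NT


section Bohr

open ArithmeticFunction ArithmeticFunction.vonMangoldt Complex

variable {q : ℕ} [NeZero q] {a : ZMod q}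

lemma wt_prime (x : ℝ) (n : ℕ) (hn : n.Prime) (hna : (n : ZMod q) = a) : wt a x n = W x n := by
  rw [wt, W, if_pos hn, residueClass, Set.indicator_of_mem (by simpa using hna),
    vonMangoldt_apply_prime hn]

/-- Mass of primes in a residue class and a Bohr set. -/
theorem bohr_mass (F : Finset ℝ) (δ : ℝ) (hδ : 0 < δ) :
    ∃ c : ℝ, 0 < c ∧ ∀ (q : ℕ) [NeZero q] (a : ZMod q), IsUnit a → ∀ (y₀ : ℝ) (N : ℕ),
      ∃ C : ℝ, ∀ x ∈ Set.Ioc (1:ℝ) 2,
        c * ((q.totient : ℝ)⁻¹ / (x - 1)) - C ≤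
          ∑' n : ℕ, Set.indicator {n : ℕ | n.Prime ∧ N < n ∧ (n : ZMod q) = a ∧
            ∀ t ∈ F, ‖ch t (Real.log n - y₀) - 1‖ ≤ δ} (W x) n := by
  classical
  set δ' : ℝ := min δ 1 with hδ'
  have hδ0 : 0 < δ' := lt_min hδ one_pos
  have hδ1 : δ' ≤ 1 := min_le_right _ _
  have hδδ : δ' ≤ δ := min_le_left _ _
  set κ : ℝ := 1 - δ' ^ 2 / 4 with hκ
  have hκ0 : 0 < κ := by rw [hκ]; nlinarith
  have hκ1 : κ < 1 := by rw [hκ]; nlinarith [sq_nonneg δ', mul_pos hδ0 hδ0]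
  obtain ⟨K, hK⟩ := exists_K F.card hκ0 hκ1
  refine ⟨(((K + 1) ^ F.card : ℕ) : ℝ)⁻¹ - κ ^ K, by linarith, ?_⟩
  intro q _ a ha y₀ N
  obtain ⟨C₁, hC₁⟩ := (TP.Q F K).sq_mean ha (Q_zero F K) y₀
  obtain ⟨C₂, hC₂⟩ := char_bound ha 0
  -- error term
  set E : ℕ → ℝ := fun n => (if n.Prime then 0 else residueClass a n) / n
    + (if n ≤ N then residueClass a n / n else 0) with hE
  have hEsum : Summable E := by
    refine (summable_residueClass_non_primes_div a).add ?_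
    refine summable_of_ne_finset_zero (s := Finset.range (N + 1)) fun n hn => ?_
    rw [if_neg]
    intro h
    exact hn (Finset.mem_range.2 (by omega))
  set G : Set ℕ := {n : ℕ | n.Prime ∧ N < n ∧ (n : ZMod q) = a ∧
            ∀ t ∈ F, ‖ch t (Real.log n - y₀) - 1‖ ≤ δ} with hG
  have hGle : ∀ x : ℝ, ∀ n : ℕ, Set.indicator G (W x) n ≤ wt a x n := by
    intro x n
    by_cases hn : n ∈ G
    · rw [Set.indicator_of_mem hn, wt_prime x n hn.1 hn.2.2.1]
    · rw [Set.indicator_of_notMem hn]; exact wt_nonneg _ _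
  have hG0 : ∀ x : ℝ, ∀ n : ℕ, 0 ≤ Set.indicator G (W x) n := fun x n =>
    Set.indicator_nonneg (fun n _ => W_nonneg x n) n
  have hpt : ∀ x : ℝ, 1 < x → ∀ n : ℕ, wt a x n * ‖Q F K (Real.log n - y₀)‖ ^ 2
      ≤ κ ^ K * wt a x n + E n + Set.indicator G (W x) n := by
    intro x hx n
    have hw := wt_nonneg (a := a) x n
    have hwl := wt_le (a := a) hx n
    have hQ1 : ‖Q F K (Real.log n - y₀)‖ ^ 2 ≤ 1 := pow_le_one₀ (norm_nonneg _) (Q_le_one _ _ _)
    have hr : 0 ≤ residueClass a n / n := div_nonneg (residueClass_nonneg a n) (by positivity)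
    have hκK : 0 ≤ κ ^ K * wt a x n := mul_nonneg (pow_nonneg hκ0.le _) hw
    have hGn := hG0 x n
    by_cases hp : n.Prime
    · by_cases hn : n ≤ N
      · have : E n = residueClass a n / n := by simp [hE, hp, hn]
        rw [this]
        nlinarith
      · have h6 : 0 ≤ E n := by simp [hE, hp, hn]
        by_cases hna : (n : ZMod q) = a
        · by_cases hb : ∀ t ∈ F, ‖ch t (Real.log n - y₀) - 1‖ ≤ δ
          · have hmem : n ∈ G := ⟨hp, by omega, hna, hb⟩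
            rw [Set.indicator_of_mem hmem, ← wt_prime (a := a) x n hp hna]
            nlinarith
          · push Not at hb
            obtain ⟨t, ht, h⟩ := hb
            have h5 := Q_small F K (Real.log n - y₀) δ' hδ0.le t ht (by linarith)
            have h7 := mul_le_mul_of_nonneg_left h5 hw
            rw [mul_comm (κ ^ K)]
            linarith
        · have : wt a x n = 0 := by
            rw [wt, residueClass, Set.indicator_of_notMem, zero_div]
            simpa using hna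
          rw [this] at *
          simp only [zero_mul, mul_zero] at *
          linarith
    · have : residueClass a n / n ≤ E n := by
        simp only [hE, hp, if_false]
        split_ifs
        · linarith
        · linarith
      nlinarith
  refine ⟨C₁ + (κ ^ K * C₂ + ∑' n, E n), fun x hx => ?_⟩
  have hs := wt_summable (a := a) hx.1
  have hGs : Summable (Set.indicator G (W x)) :=
    Summable.of_nonneg_of_le (hG0 x) (hGle x) hs
  have h1 : (∑' m : ℕ, wt a x m * ‖Q F K (Real.log m - y₀)‖ ^ 2)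
      ≤ ∑' m : ℕ, (κ ^ K * wt a x m + E m + Set.indicator G (W x) m) := by
    refine Summable.tsum_le_tsum (hpt x hx.1) ?_ (((hs.mul_left _).add hEsum).add hGs)
    refine Summable.of_nonneg_of_le (fun n => mul_nonneg (wt_nonneg _ _) (by positivity))
      (hpt x hx.1) (((hs.mul_left _).add hEsum).add hGs)
  rw [((hs.mul_left _).add hEsum).tsum_add hGs, (hs.mul_left _).tsum_add hEsum,
    tsum_mul_left] at h1
  have h2 := hC₂ x hx
  rw [if_pos rfl] at h2
  have h3 : (∑' n, (wt a x n : ℂ) * ch 0 (Real.log n)) = ((∑' n, wt a x n : ℝ) : ℂ) := by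
    rw [Complex.ofReal_tsum]
    exact tsum_congr fun n => by rw [ch_zero, mul_one]
  rw [h3, ← Complex.ofReal_sub, Complex.norm_real, Real.norm_eq_abs] at h2
  have h4 := (abs_le.1 h2).2
  have h5 := mul_le_mul_of_nonneg_left h4 (pow_nonneg hκ0.le K)
  have h6 := hC₁ x hx
  nlinarith

end Bohr

lemma no_blowup (g D : ℝ) (hg : 0 < g)
    (h : ∀ x ∈ Set.Ioc (1:ℝ) 2, g / (x - 1) ≤ D) : False := by
  have hD0 : 0 < D := by
    have := h 2 ⟨by norm_num, le_rfl⟩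
    norm_num at this
    exact hg.trans_le this
  set z : ℝ := min 1 (g / D / 2) with hz
  have hz0 : 0 < z := lt_min one_pos (by positivity)
  have h1 := h (1 + z) ⟨by linarith, by linarith [min_le_left 1 (g / D / 2)]⟩
  rw [add_sub_cancel_left, div_le_iff₀ hz0] at h1
  have h2 : z ≤ g / D / 2 := min_le_right _ _
  have h3 : D * z ≤ D * (g / D / 2) := mul_le_mul_of_nonneg_left h2 hD0.le
  have h4 : D * (g / D / 2) = g / 2 := by field_simp
  linarith

lemma class_exists (sh : ℕ → ℕ) (hsh : IsShift sh) (q M' r : ℕ) (hco : q.Coprime M') :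
    ∃ v : ℕ, ∀ n : ℕ, 1 ≤ n → n ≡ r [MOD M'] → q ∣ sh n → n ≡ v [MOD (q * M')] := by
  by_cases h : ∃ n₀ : ℕ, 1 ≤ n₀ ∧ n₀ ≡ r [MOD M'] ∧ q ∣ sh n₀
  · obtain ⟨n₀, h1, h2, h3⟩ := h
    refine ⟨n₀, fun n hn hnr hq => ?_⟩
    rw [← Nat.modEq_and_modEq_iff_modEq_mul hco]
    refine ⟨?_, hnr.trans h2.symm⟩
    rcases hsh with hs | hs
    · rw [hs] at hq h3
      have e1 : n - 1 ≡ n₀ - 1 [MOD q] :=
        ((Nat.modEq_zero_iff_dvd).2 hq).trans ((Nat.modEq_zero_iff_dvd).2 h3).symm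
      have e2 := e1.add_right 1
      rwa [Nat.sub_add_cancel hn, Nat.sub_add_cancel h1] at e2
    · rw [hs] at hq h3
      have e1 : n + 1 ≡ n₀ + 1 [MOD q] :=
        ((Nat.modEq_zero_iff_dvd).2 hq).trans ((Nat.modEq_zero_iff_dvd).2 h3).symm
      exact Nat.ModEq.add_right_cancel' 1 e1
  · exact ⟨0, fun n hn hnr hq => (h ⟨n, hn, hnr, hq⟩).elim⟩

/-- bound for one `q`, large `n`. -/
lemma one_q (sh : ℕ → ℕ) (hsh : IsShift sh) (q M' r N₀ : ℕ) (hq : 0 < q) (hM' : 0 < M')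
    (hco : q.Coprime M') (hN₀ : 256 * M' ^ 8 ≤ N₀)
    (hN₀' : 2 ^ 17 ≤ N₀) (x : ℝ) (hx : x ∈ Set.Ioc (1 : ℝ) 2) (Z : ℕ) :
    ∑ n ∈ (Finset.Icc N₀ Z).filter (fun n => n ≡ r [MOD M'] ∧ q ∣ sh n ∧ q ^ 4 ≤ n), W x n
      ≤ 516 / (Nat.totient M' * (x - 1)) * (1 / Nat.totient q) := by
  obtain ⟨v, hv⟩ := class_exists sh hsh q M' r hco
  have h1 := mass_thr q M' v N₀ hq hM' hN₀ hN₀' x hx Z
  have h2 : 516 / ((Nat.totient (q * M') : ℝ) * (x - 1))
      = 516 / (Nat.totient M' * (x - 1)) * (1 / Nat.totient q) := by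
    rw [Nat.totient_mul hco]
    push_cast
    have hx1 : x - 1 ≠ 0 := by have := hx.1; linarith
    have a1 : (Nat.totient q : ℝ) ≠ 0 := by exact_mod_cast (Nat.totient_pos.2 hq).ne'
    have a2 : (Nat.totient M' : ℝ) ≠ 0 := by exact_mod_cast (Nat.totient_pos.2 hM').ne'
    field_simp
  rw [← h2]
  refine le_trans ?_ h1
  apply Finset.sum_le_sum_of_subset_of_nonneg _ fun _ _ _ => W_nonneg _ _
  intro n hn
  rw [Finset.mem_filter, Finset.mem_Icc] at *
  exact ⟨hn.1, hn.2.2.2, hv n (by omega) hn.2.1 hn.2.2.1⟩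

/-- bound for one `q`, small `n`. -/
lemma one_q_small (sh : ℕ → ℕ) (hsh : IsShift sh) (q M' r N₀ : ℕ) (hq : 2 ≤ q)
    (hN₀' : 2 ^ 17 ≤ N₀) (x : ℝ) (hx : 1 < x) (Z : ℕ) :
    ∑ n ∈ (Finset.Icc N₀ Z).filter (fun n => n ≡ r [MOD M'] ∧ q ∣ sh n ∧ n < q ^ 4), W x n
      ≤ 40 * (Real.log q) ^ 2 / q := by
  refine le_trans ?_ (small_mass sh hsh q hq x hx Z)
  apply Finset.sum_le_sum_of_subset_of_nonneg _ fun _ _ _ => W_nonneg _ _
  intro n hn
  rw [Finset.mem_filter, Finset.mem_Icc] at *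
  exact ⟨⟨by omega, hn.1.2⟩, hn.2.2.2, hn.2.2.1⟩

lemma summable_log_sq : Summable (fun q : ℕ => 40 * (Real.log ((q ^ 2 : ℕ) : ℝ)) ^ 2 / ((q ^ 2 : ℕ) : ℝ)) := by
  have h1 : Summable (fun q : ℕ => 2560 * ((q : ℝ) ^ (-(3 / 2) : ℝ))) :=
    (Real.summable_nat_rpow.2 (by norm_num)).mul_left _
  refine Summable.of_nonneg_of_le (fun q => by positivity) (fun q => ?_) h1
  rcases Nat.eq_zero_or_pos q with rfl | hq
  · simp
  · have hq0 : (0 : ℝ) < q := by exact_mod_cast hq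
    have hq1 : (1 : ℝ) ≤ q := by exact_mod_cast hq
    have h2 : Real.log q ≤ (q : ℝ) ^ (1 / 4 : ℝ) / (1 / 4) :=
      Real.log_le_rpow_div hq0.le (by norm_num)
    have h3 : 0 ≤ Real.log q := Real.log_nonneg hq1
    have h4 : (Real.log q) ^ 2 ≤ ((q : ℝ) ^ (1 / 4 : ℝ) / (1 / 4)) ^ 2 := pow_le_pow_left₀ h3 h2 2
    have h5 : ((q : ℝ) ^ (1 / 4 : ℝ) / (1 / 4)) ^ 2 = 16 * (q : ℝ) ^ (1 / 2 : ℝ) := by
      rw [div_pow, ← Real.rpow_natCast ((q : ℝ) ^ (1 / 4 : ℝ)), ← Real.rpow_mul hq0.le]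
      norm_num
      ring
    push_cast
    rw [Real.log_pow]
    have h6 : (q : ℝ) ^ (-(3 / 2) : ℝ) = (q : ℝ) ^ (1 / 2 : ℝ) / (q : ℝ) ^ 2 := by
      rw [← Real.rpow_natCast (q : ℝ) 2, ← Real.rpow_sub hq0]
      norm_num
    rw [h6]
    rw [h5] at h4
    have h7 : 0 < (q : ℝ) ^ 2 := by positivity
    rw [← mul_div_assoc, div_le_div_iff_of_pos_right h7]
    push_cast
    nlinarith

/-- the set of primes which can divide `u` -/
def Pset (y M' Z : ℕ) : Finset ℕ :=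
  (Finset.range (Z + 2)).filter (fun q => q.Prime ∧ y < q ∧ q.Coprime M')

lemma natCast_cpow_eq_ch (u : ℕ) (hu : 1 ≤ u) (t : ℝ) :
    (u : ℂ) ^ ((t : ℂ) * Complex.I) = ch t (Real.log u) := by
  have hn0 : (u : ℂ) ≠ 0 := by exact_mod_cast (by omega : u ≠ 0)
  rw [Complex.cpow_def_of_ne_zero hn0, ch]
  congr 1
  push_cast
  ring

lemma ch_sub_le (t y z : ℝ) : ‖ch t y - ch t z‖ ≤ |t| * |y - z| := by
  have h1 : ch t y - ch t z = ch t z * (ch t (y - z) - 1) := by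
    have : ch t y = ch t z * ch t (y - z) := by
      rw [ch, ch, ch, ← Complex.exp_add]; congr 1; push_cast; ring
    rw [this]; ring
  rw [h1, norm_mul, norm_ch, one_mul, ← abs_mul]
  have := Real.norm_exp_I_mul_ofReal_sub_one_le (x := t * (y - z))
  rw [mul_comm Complex.I] at this
  exact this

lemma log_diff {x y : ℝ} (hx : 0 < x) (hxy : x ≤ y) : |Real.log y - Real.log x| ≤ (y - x) / x := by
  have hy : 0 < y := hx.trans_le hxy
  rw [abs_of_nonneg (sub_nonneg.2 (Real.log_le_log hx hxy)), ← Real.log_div hy.ne' hx.ne']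
  have := Real.log_le_sub_one_of_pos (div_pos hy hx)
  calc Real.log (y / x) ≤ y / x - 1 := this
    _ = (y - x) / x := by field_simp

/-- archimedean part -/
lemma arch_aux (M k : ℕ) (hM : 2 ≤ M) (F : Finset ℝ) (δ : ℝ) (hδ : 0 < δ) (p : ℕ)
    (hpN : ⌈2 * (∑ t ∈ F, |t|) / δ⌉₊ + 2 < p)
    (hpt : ∀ t ∈ F, ‖ch t (Real.log p - Real.log ((M ^ k : ℕ) : ℝ)) - 1‖ ≤ δ / 2)
    (s u : ℕ) (hs : s = p - 1 ∨ s = p + 1) (hsu : s = M ^ k * u) (hu : 1 ≤ u) :
    ∀ t ∈ F, ‖(u : ℂ) ^ ((t : ℂ) * Complex.I) - 1‖ ≤ δ := by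
  intro t ht
  set B : ℝ := ∑ t ∈ F, |t| with hB
  have hB0 : 0 ≤ B := Finset.sum_nonneg fun _ _ => abs_nonneg _
  have hp1 : 2 * B / δ < (p : ℝ) - 1 := by
    have h1 : 2 * B / δ ≤ ⌈2 * B / δ⌉₊ := Nat.le_ceil _
    have h2 : ((⌈2 * B / δ⌉₊ + 2 : ℕ) : ℝ) < p := by exact_mod_cast hpN
    push_cast at h2
    linarith
  have hp2 : (0 : ℝ) < (p : ℝ) - 1 := lt_of_le_of_lt (by positivity) hp1
  have hlog : |Real.log s - Real.log p| ≤ 1 / ((p : ℝ) - 1) := by
    rcases hs with rfl | rfl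
    · have hc : ((p - 1 : ℕ) : ℝ) = (p : ℝ) - 1 := by
        rw [Nat.cast_sub (by omega), Nat.cast_one]
      rw [hc, abs_sub_comm]
      refine (log_diff hp2 (by linarith)).trans (le_of_eq ?_)
      rw [sub_sub_cancel]
    · have hc : ((p + 1 : ℕ) : ℝ) = (p : ℝ) + 1 := by push_cast; ring
      rw [hc]
      refine (log_diff (by linarith : (0:ℝ) < p) (by linarith)).trans ?_
      rw [add_sub_cancel_left]
      exact one_div_le_one_div_of_le hp2 (by linarith)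
  have hMk : (0 : ℝ) < ((M ^ k : ℕ) : ℝ) := by positivity
  have hu0 : (0 : ℝ) < u := by exact_mod_cast hu
  have hlogu : Real.log u = Real.log s - Real.log ((M ^ k : ℕ) : ℝ) := by
    rw [hsu, Nat.cast_mul, Real.log_mul hMk.ne' hu0.ne']; ring
  rw [natCast_cpow_eq_ch u hu, hlogu]
  have htB : |t| ≤ B := Finset.single_le_sum (f := fun t => |t|) (fun _ _ => abs_nonneg _) ht
  have h1 := hpt t ht
  have h2 := ch_sub_le t (Real.log s - Real.log ((M ^ k : ℕ) : ℝ))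
    (Real.log p - Real.log ((M ^ k : ℕ) : ℝ))
  rw [sub_sub_sub_cancel_right] at h2
  have h3 : |t| * |Real.log s - Real.log p| ≤ δ / 2 := by
    calc |t| * |Real.log s - Real.log p| ≤ B * (1 / ((p : ℝ) - 1)) :=
          mul_le_mul htB hlog (abs_nonneg _) hB0
      _ ≤ δ / 2 := by
          rw [mul_one_div, div_le_div_iff₀ hp2 (by norm_num)]
          rw [div_lt_iff₀ hδ] at hp1
          linarith
  have h4 : ch t (Real.log s - Real.log ((M ^ k : ℕ) : ℝ)) - 1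
      = (ch t (Real.log s - Real.log ((M ^ k : ℕ) : ℝ))
          - ch t (Real.log p - Real.log ((M ^ k : ℕ) : ℝ)))
        + (ch t (Real.log p - Real.log ((M ^ k : ℕ) : ℝ)) - 1) := by ring
  rw [h4]
  refine (norm_add_le _ _).trans ?_
  linarith

lemma coprime_down (M k : ℕ) (hM : 2 ≤ M) (hk : 1 ≤ k) : (1 + M ^ k).Coprime (M ^ (k + 1)) := by
  refine Nat.Coprime.pow_right _ ?_
  obtain ⟨k', rfl⟩ : ∃ k', k = k' + 1 := ⟨k - 1, by omega⟩
  rw [pow_succ]
  simp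

lemma coprime_up (M k : ℕ) (hM : 2 ≤ M) (hk : 1 ≤ k) : (M ^ k - 1).Coprime (M ^ (k + 1)) := by
  refine Nat.Coprime.pow_right _ ?_
  have h1 : 1 ≤ M ^ k := Nat.one_le_pow _ _ (by omega)
  have h2 : (M ^ k - 1).Coprime (M ^ k) := by
    obtain ⟨b, hb⟩ : ∃ b, M ^ k = b + 1 := ⟨M ^ k - 1, by omega⟩
    rw [hb, Nat.add_sub_cancel]
    simp
  exact h2.coprime_dvd_right (dvd_pow_self M (by omega))

end LibSP23
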