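import Mathlib

namespace LibSP23

/-- Nonnegative weights on the primes with `∑_q ω(q)/q < ∞`. -/
def SummableWeights (ω : ℕ → ℝ) : Prop :=
  (∀ q, 0 ≤ ω q) ∧ Summable (fun q : ℕ => if q.Prime then ω q / q else 0)

/-- `u` is near `1`: `u ≥ 1` is squarefree, `u ≡ 1 mod M`, `|u^{it} - 1| ≤ δ` for the finitely
many real numbers `t ∈ F`, and the sum of the weights of the prime factors of `u` is `≤ δ`. -/
def Near (ω : ℕ → ℝ) (M : ℕ) (F : Finset ℝ) (δ : ℝ) (u : ℕ) : Prop :=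
  1 ≤ u ∧ Squarefree u ∧ u ≡ 1 [MOD M] ∧
    (∀ t ∈ F, ‖(u : ℂ) ^ ((t : ℂ) * Complex.I) - 1‖ ≤ δ) ∧ ∑ q ∈ u.primeFactors, ω q ≤ δ

/-- Positive lower analytic density of the primes in `A` (relative to all primes): there are
`c > 0` and `C` with `∑_{p ∈ A prime} (log p) / p^x ≥ c / (x - 1) - C` for `1 < x ≤ 2`. -/
def PosDensity (A : Set ℕ) : Prop :=
  ∃ c : ℝ, 0 < c ∧ ∃ C : ℝ, ∀ x ∈ Set.Ioc (1 : ℝ) 2, c / (x - 1) - C ≤
    ∑' p : ℕ, Set.indicator {p : ℕ | p.Prime ∧ p ∈ A} (fun p : ℕ => Real.log p / (p : ℝ) ^ x) p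

end LibSP23
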