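import Pool.Agent.LibSP23.Base

set_option linter.unusedVariables false
set_option linter.unusedSectionVars false

namespace LibSP23

/-- local densities numerators -/
noncomputable def vv (m p : ℕ) : ℝ := if p ∣ m then 1 else 2

noncomputable def rho (m l : ℕ) : ℝ := ∏ p ∈ l.primeFactors, (vv m p / p)

noncomputable def hh (m l : ℕ) : ℝ := ∏ p ∈ l.primeFactors, ((p : ℝ) / vv m p - 1)

noncomputable def V2 (m R : ℕ) : ℝ := ∑ l ∈ Ls 1 R, rho m l

noncomputable def lam2 (m R d : ℕ) : ℝ :=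
  (rho m d)⁻¹ * ∑ l ∈ (Ls 1 R).filter (fun l => d ∣ l), (ArithmeticFunction.moebius (l / d) : ℝ) *
    ((ArithmeticFunction.moebius l : ℝ) * (rho m l / V2 m R))

lemma vv_pos (m p : ℕ) : 0 < vv m p := by rw [vv]; split_ifs <;> norm_num

lemma vv_one_le (m p : ℕ) : 1 ≤ vv m p := by rw [vv]; split_ifs <;> norm_num

lemma vv_le_two (m p : ℕ) : vv m p ≤ 2 := by rw [vv]; split_ifs <;> norm_num

lemma rho_pos (m l : ℕ) : 0 < rho m l := by
  refine Finset.prod_pos fun p hp => ?_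
  have := vv_pos m p
  have hp0 : (0 : ℝ) < p := by exact_mod_cast (Nat.prime_of_mem_primeFactors hp).pos
  positivity

lemma rho_one (m : ℕ) : rho m 1 = 1 := by simp [rho]

lemma inv_rho_le (m l : ℕ) (hl : 0 < l) : (rho m l)⁻¹ ≤ l := by
  rw [rho, ← Finset.prod_inv_distrib]
  calc ∏ p ∈ l.primeFactors, (vv m p / p)⁻¹ ≤ ∏ p ∈ l.primeFactors, (p : ℝ) := by
        refine Finset.prod_le_prod (fun p hp => ?_) fun p hp => ?_
        · have := vv_pos m p
          positivity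
        · rw [inv_div]
          have h1 := vv_one_le m p
          exact div_le_self (Nat.cast_nonneg p) h1
    _ = ((∏ p ∈ l.primeFactors, p : ℕ) : ℝ) := by push_cast; rfl
    _ ≤ l := by exact_mod_cast Nat.le_of_dvd hl (Nat.prod_primeFactors_dvd l)

lemma rho_gcd_lcm (m d e : ℕ) (hd : 0 < d) (he : 0 < e) :
    rho m (Nat.lcm d e) * rho m (Nat.gcd d e) = rho m d * rho m e := by
  rw [rho, rho, rho, rho, Nat.primeFactors_gcd hd.ne' he.ne']
  have h1 : (Nat.lcm d e).primeFactors = d.primeFactors ∪ e.primeFactors := by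
    ext p
    rw [Finset.mem_union, Nat.mem_primeFactors, Nat.mem_primeFactors, Nat.mem_primeFactors]
    constructor
    · rintro ⟨hp, hdvd, _⟩
      have : p ∣ d * e := hdvd.trans (Nat.lcm_dvd (dvd_mul_right _ _) (dvd_mul_left _ _))
      rcases (Nat.Prime.dvd_mul hp).1 this with h | h
      · exact Or.inl ⟨hp, h, hd.ne'⟩
      · exact Or.inr ⟨hp, h, he.ne'⟩
    · rintro (⟨hp, h, _⟩ | ⟨hp, h, _⟩)
      · exact ⟨hp, h.trans (Nat.dvd_lcm_left d e), (Nat.lcm_pos hd he).ne'⟩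
      · exact ⟨hp, h.trans (Nat.dvd_lcm_right d e), (Nat.lcm_pos hd he).ne'⟩
  rw [h1]
  exact Finset.prod_union_inter

lemma hh_nonneg (m l : ℕ) : 0 ≤ hh m l := by
  refine Finset.prod_nonneg fun p hp => ?_
  have h2 : (2 : ℝ) ≤ p := by exact_mod_cast (Nat.prime_of_mem_primeFactors hp).two_le
  have h3 := vv_pos m p
  have h4 := vv_le_two m p
  rw [sub_nonneg, le_div_iff₀ h3]
  linarith

lemma hh_le (m l : ℕ) : hh m l ≤ (rho m l)⁻¹ := by
  rw [hh, rho, ← Finset.prod_inv_distrib]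
  refine Finset.prod_le_prod (fun p hp => ?_) fun p hp => ?_
  · have h2 : (2 : ℝ) ≤ p := by exact_mod_cast (Nat.prime_of_mem_primeFactors hp).two_le
    have h3 := vv_pos m p
    have h4 := vv_le_two m p
    rw [sub_nonneg, le_div_iff₀ h3]
    linarith
  · rw [inv_div]; linarith

lemma sum_hh (m n : ℕ) (hn : Squarefree n) : ∑ g ∈ n.divisors, hh m g = (rho m n)⁻¹ := by
  have h := (ArithmeticFunction.IsMultiplicative.prodPrimeFactors
    (fun p : ℕ => (p : ℝ) / vv m p - 1)).prodPrimeFactors_one_add_of_squarefree hn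
  have h1 : ∑ g ∈ n.divisors, hh m g = ∑ g ∈ n.divisors,
      (ArithmeticFunction.prodPrimeFactors (fun p : ℕ => (p : ℝ) / vv m p - 1)) g := by
    refine Finset.sum_congr rfl fun g hg => ?_
    rw [ArithmeticFunction.prodPrimeFactors_apply (Nat.pos_of_mem_divisors hg).ne', hh]
  rw [h1, ← h, rho, ← Finset.prod_inv_distrib]
  refine Finset.prod_congr rfl fun p hp => ?_
  have hpp := Nat.prime_of_mem_primeFactors hp
  rw [ArithmeticFunction.prodPrimeFactors_apply hpp.ne_zero, hpp.primeFactors,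
    Finset.prod_singleton, inv_div]
  ring

lemma V2_ge_one {m R : ℕ} (hR : 1 ≤ R) : 1 ≤ V2 m R := by
  have := Finset.single_le_sum (f := fun l : ℕ => rho m l) (s := Ls 1 R)
    (fun l _ => (rho_pos m l).le) (one_mem_Ls hR)
  simpa [V2, rho_one] using this

lemma lam2_one {m R : ℕ} (hR : 1 ≤ R) : lam2 m R 1 = 1 := by
  have hV : 0 < V2 m R := lt_of_lt_of_le one_pos (V2_ge_one hR)
  rw [lam2, rho_one, inv_one, one_mul]
  have h1 : (Ls 1 R).filter (fun l => 1 ∣ l) = Ls 1 R := by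
    apply Finset.filter_true_of_mem; intro l _; exact one_dvd l
  rw [h1]
  have h2 : ∀ l ∈ Ls 1 R, (ArithmeticFunction.moebius (l / 1) : ℝ) *
      ((ArithmeticFunction.moebius l : ℝ) * (rho m l / V2 m R)) = rho m l * (V2 m R)⁻¹ := by
    intro l hl
    rw [mem_Ls] at hl
    have h3 : (ArithmeticFunction.moebius l : ℝ) ^ 2 = 1 := by
      exact_mod_cast ArithmeticFunction.moebius_sq_eq_one_of_squarefree hl.2.2.1
    rw [Nat.div_one, ← mul_assoc, ← sq, h3, one_mul, div_eq_mul_inv]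
  rw [Finset.sum_congr rfl h2, ← Finset.sum_mul]
  exact mul_inv_cancel₀ hV.ne'

lemma abs_lam2_le {m R : ℕ} (hR : 1 ≤ R) (d : ℕ) (hd : 0 < d) : |lam2 m R d| ≤ d := by
  have hV : 0 < V2 m R := lt_of_lt_of_le one_pos (V2_ge_one hR)
  have hρ := rho_pos m d
  rw [lam2, abs_mul, abs_of_pos (inv_pos.2 hρ)]
  refine le_trans ?_ (inv_rho_le m d hd)
  refine mul_le_of_le_one_right (inv_pos.2 hρ).le ?_
  refine (Finset.abs_sum_le_sum_abs _ _).trans ?_
  calc ∑ l ∈ (Ls 1 R).filter (fun l => d ∣ l), |(ArithmeticFunction.moebius (l / d) : ℝ) *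
        ((ArithmeticFunction.moebius l : ℝ) * (rho m l / V2 m R))|
      ≤ ∑ l ∈ (Ls 1 R).filter (fun l => d ∣ l), rho m l * (V2 m R)⁻¹ := by
        refine Finset.sum_le_sum fun l hl => ?_
        have a1 : |(ArithmeticFunction.moebius (l / d) : ℝ)| ≤ 1 := by
          exact_mod_cast ArithmeticFunction.abs_moebius_le_one
        have a2 : |(ArithmeticFunction.moebius l : ℝ)| ≤ 1 := by
          exact_mod_cast ArithmeticFunction.abs_moebius_le_one
        have hl0 := rho_pos m l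
        rw [abs_mul, abs_mul, abs_of_pos (div_pos hl0 hV), ← div_eq_mul_inv]
        calc |(ArithmeticFunction.moebius (l / d) : ℝ)| *
              (|(ArithmeticFunction.moebius l : ℝ)| * (rho m l / V2 m R))
            ≤ 1 * (1 * (rho m l / V2 m R)) := by
              apply mul_le_mul a1 _ (by positivity) (by norm_num)
              exact mul_le_mul_of_nonneg_right a2 (by positivity)
          _ = rho m l / V2 m R := by ring
    _ ≤ ∑ l ∈ Ls 1 R, rho m l * (V2 m R)⁻¹ :=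
        Finset.sum_le_sum_of_subset_of_nonneg (Finset.filter_subset _ _)
          (fun l _ _ => mul_nonneg (rho_pos m l).le (inv_pos.2 hV).le)
    _ = 1 := by rw [← Finset.sum_mul]; exact mul_inv_cancel₀ hV.ne'

lemma diag2 {m R g : ℕ} (hR : 1 ≤ R) (hg : g ∈ Ls 1 R) :
    ∑ d ∈ (Ls 1 R).filter (fun d => g ∣ d), rho m d * lam2 m R d
      = (ArithmeticFunction.moebius g : ℝ) * (rho m g / V2 m R) := by
  have h1 : ∀ d ∈ (Ls 1 R).filter (fun d => g ∣ d), rho m d * lam2 m R d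
      = ∑ l ∈ Ls 1 R, if d ∣ l then (ArithmeticFunction.moebius (l / d) : ℝ) *
        ((ArithmeticFunction.moebius l : ℝ) * (rho m l / V2 m R)) else 0 := by
    intro d hd
    rw [lam2, ← mul_assoc, mul_inv_cancel₀ (rho_pos m d).ne', one_mul, Finset.sum_filter]
  rw [Finset.sum_congr rfl h1, Finset.sum_comm]
  have h2 : ∀ l ∈ Ls 1 R, (∑ d ∈ (Ls 1 R).filter (fun d => g ∣ d),
      if d ∣ l then (ArithmeticFunction.moebius (l / d) : ℝ) *
        ((ArithmeticFunction.moebius l : ℝ) * (rho m l / V2 m R)) else 0)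
      = if l = g then (ArithmeticFunction.moebius l : ℝ) * (rho m l / V2 m R) else 0 := by
    intro l hl
    rw [← Finset.sum_filter, Finset.filter_filter, ← Finset.sum_mul]
    by_cases hgl : g ∣ l
    · rw [inner_moebius hg hl hgl]
      split_ifs <;> simp
    · have he : (Ls 1 R).filter (fun d => g ∣ d ∧ d ∣ l) = ∅ := by
        apply Finset.filter_false_of_mem
        rintro d _ ⟨h1, h2⟩
        exact hgl (h1.trans h2)
      rw [he, Finset.sum_empty, zero_mul, if_neg]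
      rintro rfl
      exact hgl dvd_rfl
  rw [Finset.sum_congr rfl h2, Finset.sum_ite_eq' _ g, if_pos hg]

lemma main_form2 {m R : ℕ} (hR : 1 ≤ R) :
    ∑ d ∈ Ls 1 R, ∑ e ∈ Ls 1 R, lam2 m R d * lam2 m R e * rho m (Nat.lcm d e) ≤ (V2 m R)⁻¹ := by
  have hV : 0 < V2 m R := lt_of_lt_of_le one_pos (V2_ge_one hR)
  have h1 : ∀ d ∈ Ls 1 R, ∀ e ∈ Ls 1 R, lam2 m R d * lam2 m R e * rho m (Nat.lcm d e)
      = ∑ g ∈ Ls 1 R, if g ∣ d ∧ g ∣ e then
          hh m g * ((rho m d * lam2 m R d) * (rho m e * lam2 m R e)) else 0 := by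
    intro d hd e he
    have hd0 : 0 < d := (mem_Ls.1 hd).1
    have he0 : 0 < e := (mem_Ls.1 he).1
    have hsq : Squarefree (Nat.gcd d e) :=
      (mem_Ls.1 hd).2.2.1.squarefree_of_dvd (Nat.gcd_dvd_left d e)
    have h2 : (rho m (Nat.gcd d e))⁻¹ = ∑ g ∈ Ls 1 R, if g ∣ d ∧ g ∣ e then
        hh m g else 0 := by
      rw [← Finset.sum_filter]
      have h3 : (Ls 1 R).filter (fun g => g ∣ d ∧ g ∣ e) = (Nat.gcd d e).divisors := by
        ext g
        rw [Finset.mem_filter, Nat.mem_divisors]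
        constructor
        · rintro ⟨_, h⟩
          exact ⟨Nat.dvd_gcd h.1 h.2, (Nat.gcd_pos_of_pos_left _ hd0).ne'⟩
        · rintro ⟨h, _⟩
          have h4 := h.trans (Nat.gcd_dvd_left d e)
          have h5 := h.trans (Nat.gcd_dvd_right d e)
          exact ⟨Ls_dvd hd h4, h4, h5⟩
      rw [h3, sum_hh m _ hsq]
    have h3 := rho_gcd_lcm m d e hd0 he0
    have hg0 := rho_pos m (Nat.gcd d e)
    have h4 : lam2 m R d * lam2 m R e * rho m (Nat.lcm d e)
        = (rho m (Nat.gcd d e))⁻¹ * ((rho m d * lam2 m R d) * (rho m e * lam2 m R e)) := by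
      have : (rho m d * lam2 m R d) * (rho m e * lam2 m R e)
          = (rho m d * rho m e) * (lam2 m R d * lam2 m R e) := by ring
      rw [this, ← h3]
      field_simp
    rw [h4, h2, Finset.sum_mul]
    refine Finset.sum_congr rfl fun g _ => ?_
    split_ifs <;> simp
  have h5 : ∑ d ∈ Ls 1 R, ∑ e ∈ Ls 1 R, lam2 m R d * lam2 m R e * rho m (Nat.lcm d e)
      = ∑ g ∈ Ls 1 R, hh m g *
        (∑ d ∈ (Ls 1 R).filter (fun d => g ∣ d), rho m d * lam2 m R d) ^ 2 := by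
    rw [Finset.sum_congr rfl fun d hd => Finset.sum_congr rfl fun e he => h1 d hd e he]
    have h6 : ∀ d ∈ Ls 1 R, (∑ e ∈ Ls 1 R, ∑ g ∈ Ls 1 R, if g ∣ d ∧ g ∣ e then
          hh m g * ((rho m d * lam2 m R d) * (rho m e * lam2 m R e)) else 0)
        = ∑ g ∈ Ls 1 R, ∑ e ∈ Ls 1 R, if g ∣ d ∧ g ∣ e then
          hh m g * ((rho m d * lam2 m R d) * (rho m e * lam2 m R e)) else 0 :=
      fun d _ => Finset.sum_comm
    rw [Finset.sum_congr rfl h6, Finset.sum_comm]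
    refine Finset.sum_congr rfl fun g _ => ?_
    rw [sq, Finset.sum_mul_sum, Finset.mul_sum, Finset.sum_filter]
    refine Finset.sum_congr rfl fun d _ => ?_
    rw [Finset.mul_sum, Finset.sum_filter]
    by_cases hgd : g ∣ d
    · rw [if_pos hgd]
      refine Finset.sum_congr rfl fun e _ => ?_
      simp [hgd]
    · rw [if_neg hgd]
      apply Finset.sum_eq_zero
      intro e _
      simp [hgd]
  rw [h5]
  calc ∑ g ∈ Ls 1 R, hh m g *
        (∑ d ∈ (Ls 1 R).filter (fun d => g ∣ d), rho m d * lam2 m R d) ^ 2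
      ≤ ∑ g ∈ Ls 1 R, rho m g * ((V2 m R)⁻¹ * (V2 m R)⁻¹) := by
        refine Finset.sum_le_sum fun g hg => ?_
        rw [diag2 hR hg]
        have hg0 := rho_pos m g
        have a1 : (ArithmeticFunction.moebius g : ℝ) ^ 2 = 1 := by
          exact_mod_cast ArithmeticFunction.moebius_sq_eq_one_of_squarefree (mem_Ls.1 hg).2.2.1
        rw [mul_pow, a1, one_mul]
        calc hh m g * (rho m g / V2 m R) ^ 2 ≤ (rho m g)⁻¹ * (rho m g / V2 m R) ^ 2 :=
              mul_le_mul_of_nonneg_right (hh_le m g) (sq_nonneg _)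
          _ = rho m g * ((V2 m R)⁻¹ * (V2 m R)⁻¹) := by field_simp
    _ = (V2 m R)⁻¹ := by
        rw [← Finset.sum_mul]
        change V2 m R * ((V2 m R)⁻¹ * (V2 m R)⁻¹) = (V2 m R)⁻¹
        rw [← mul_assoc, mul_inv_cancel₀ hV.ne', one_mul]

/-- the linear form -/
def IsLin (m : ℕ) (tt : ℕ → ℕ) : Prop := (∀ n, tt n = m * n + 1) ∨ (∀ n, tt n = m * n - 1)

lemma lin_coprime {m : ℕ} {tt : ℕ → ℕ} (h : IsLin m tt) (n : ℕ) (hmn : 2 ≤ m * n) :
    (tt n).Coprime n ∧ (tt n).Coprime m := by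
  have key : ∀ c : ℕ, c ∣ tt n → c ∣ m * n → c = 1 := by
    intro c h1 h2
    rcases h with h | h
    · rw [h] at h1
      have := (Nat.dvd_add_right h2).1 h1
      exact Nat.dvd_one.1 this
    · rw [h] at h1
      have h3 := Nat.dvd_sub h2 h1
      have h4 : m * n - (m * n - 1) = 1 := by omega
      rw [h4] at h3
      exact Nat.dvd_one.1 h3
  constructor
  · exact key _ (Nat.gcd_dvd_left _ _) ((Nat.gcd_dvd_right _ _).trans (dvd_mul_left _ _))
  · exact key _ (Nat.gcd_dvd_left _ _) ((Nat.gcd_dvd_right _ _).trans (dvd_mul_right _ _))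

/-- existence of the residue class -/
lemma lin_root {m : ℕ} {tt : ℕ → ℕ} (h : IsLin m tt) (hm : 0 < m) (D : ℕ) (hD : 0 < D)
    (hco : D.Coprime m) : ∃ n₀ : ℕ, 0 < n₀ ∧ D ∣ tt n₀ := by
  rcases Nat.lt_or_ge 1 D with h1 | h1
  · obtain ⟨v, _, hv⟩ := Nat.exists_mul_mod_eq_one_of_coprime hco.symm h1
    have hv' : m * v ≡ 1 [MOD D] := by
      rw [Nat.ModEq, hv, Nat.mod_eq_of_lt h1]
    have hv0 : 0 < v := by
      rcases Nat.eq_zero_or_pos v with rfl | h0
      · simp at hv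
      · exact h0
    rcases h with h | h
    · refine ⟨(D - 1) * v, Nat.mul_pos (by omega) hv0, ?_⟩
      rw [h]
      have e : m * ((D - 1) * v) + 1 = (D - 1) * (m * v) + 1 := by ring
      rw [e]
      have h2 : (D - 1) * (m * v) + 1 ≡ (D - 1) * 1 + 1 [MOD D] :=
        (hv'.mul_left (D - 1)).add_right 1
      have h3 : (D - 1) * 1 + 1 = D := by omega
      rw [h3] at h2
      exact (Nat.modEq_zero_iff_dvd).1 (h2.trans (by simp [Nat.ModEq]))
    · refine ⟨v, hv0, ?_⟩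
      rw [h]
      exact (Nat.modEq_iff_dvd' (Nat.mul_pos hm hv0)).1 hv'.symm
  · have : D = 1 := by omega
    subst this
    exact ⟨1, one_pos, one_dvd _⟩

lemma lin_class {m : ℕ} {tt : ℕ → ℕ} (h : IsLin m tt) (hm : 0 < m) (D n₀ : ℕ)
    (hco : D.Coprime m) (hn₀ : 0 < n₀) (hD : D ∣ tt n₀) (n : ℕ) (hn : 0 < n) :
    D ∣ tt n ↔ n ≡ n₀ [MOD D] := by
  have e : D ∣ tt n ↔ m * n ≡ m * n₀ [MOD D] := by
    rcases h with h | h
    · rw [h] at *
      constructor
      · intro h1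
        have e1 : m * n + 1 ≡ m * n₀ + 1 [MOD D] :=
          ((Nat.modEq_zero_iff_dvd).2 h1).trans ((Nat.modEq_zero_iff_dvd).2 hD).symm
        exact Nat.ModEq.add_right_cancel' 1 e1
      · intro h1
        exact (Nat.modEq_zero_iff_dvd).1 ((h1.add_right 1).trans ((Nat.modEq_zero_iff_dvd).2 hD))
    · rw [h] at *
      have p1 : 1 ≤ m * n := Nat.mul_pos hm hn
      have p2 : 1 ≤ m * n₀ := Nat.mul_pos hm hn₀
      constructor
      · intro h1
        have e1 : m * n - 1 ≡ m * n₀ - 1 [MOD D] :=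
          ((Nat.modEq_zero_iff_dvd).2 h1).trans ((Nat.modEq_zero_iff_dvd).2 hD).symm
        have e2 := e1.add_right 1
        rwa [Nat.sub_add_cancel p1, Nat.sub_add_cancel p2] at e2
      · intro h1
        have e3 : 1 ≡ m * n₀ [MOD D] := (Nat.modEq_iff_dvd' p2).2 hD
        exact (Nat.modEq_iff_dvd' p1).1 (e3.trans h1.symm)
  rw [e]
  constructor
  · intro h1
    exact Nat.ModEq.cancel_left_of_coprime hco h1
  · intro h1
    exact h1.mul_left m

/-- count for a coprime pair of moduli -/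
lemma count_pair {m : ℕ} {tt : ℕ → ℕ} (h : IsLin m tt) (hm : 0 < m) (d e Y : ℕ) (hd : 0 < d)
    (he : 0 < e) (hde : d.Coprime e) (hem : e.Coprime m) :
    |((((Finset.Ioc Y (2 * Y)).filter (fun n => d ∣ n ∧ e ∣ tt n)).card : ℕ) : ℝ)
      - (Y : ℝ) / (d * e)| ≤ 1 := by
  obtain ⟨n₀, hn₀, hn₁⟩ := lin_root h hm e he hem
  have h1 : (Finset.Ioc Y (2 * Y)).filter (fun n => d ∣ n ∧ e ∣ tt n)
      = (Finset.Ioc Y (2 * Y)).filter (fun n => n ≡ n₀ [MOD e] ∧ d ∣ n) := by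
    apply Finset.filter_congr
    intro n hn
    rw [Finset.mem_Ioc] at hn
    rw [lin_class h hm e n₀ hem hn₀ hn₁ n (by omega)]
    exact and_comm
  rw [h1]
  have h2 := count_AP e n₀ d Y he hd hde
  have h3 : (Y : ℝ) / e / d = (Y : ℝ) / (d * e) := by rw [div_div, mul_comm]
  rw [h3] at h2
  exact h2


lemma card_dd (m D : ℕ) (hD : Squarefree D) :
    (((D.divisors.filter (fun d => (D / d).Coprime m)).card : ℕ) : ℝ) = D * rho m D := by
  classical
  have hD0 : D ≠ 0 := hD.ne_zero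
  have h1 : (((D.divisors.filter (fun d => (D / d).Coprime m)).card : ℕ) : ℝ)
      = ∑ d ∈ D.divisors, if (D / d).Coprime m then (1 : ℝ) else 0 := by
    rw [Finset.card_filter]; push_cast; rfl
  rw [h1, Nat.sum_div_divisors D (fun d => if d.Coprime m then (1 : ℝ) else 0)]
  have h := (ArithmeticFunction.IsMultiplicative.prodPrimeFactors
    (fun p : ℕ => if p ∣ m then (0 : ℝ) else 1)).prodPrimeFactors_one_add_of_squarefree hD
  have h2 : ∑ d ∈ D.divisors, (if d.Coprime m then (1 : ℝ) else 0) = ∑ d ∈ D.divisors,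
      (ArithmeticFunction.prodPrimeFactors (fun p : ℕ => if p ∣ m then (0 : ℝ) else 1)) d := by
    refine Finset.sum_congr rfl fun d hd => ?_
    have hd0 : d ≠ 0 := (Nat.pos_of_mem_divisors hd).ne'
    rw [ArithmeticFunction.prodPrimeFactors_apply hd0]
    by_cases hc : d.Coprime m
    · rw [if_pos hc]
      symm
      apply Finset.prod_eq_one
      intro p hp
      rw [if_neg]
      intro hpm
      have hpp := Nat.prime_of_mem_primeFactors hp
      have := hc.coprime_dvd_left (Nat.dvd_of_mem_primeFactors hp)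
      exact (Nat.Prime.coprime_iff_not_dvd hpp).1 this hpm
    · rw [if_neg hc]
      symm
      obtain ⟨p, hp, hpd, hpm⟩ := Nat.Prime.not_coprime_iff_dvd.1 hc
      exact Finset.prod_eq_zero (Nat.mem_primeFactors.2 ⟨hp, hpd, hd0⟩) (if_pos hpm)
  rw [h2, ← h]
  have h3 : (D : ℝ) = ∏ p ∈ D.primeFactors, (p : ℝ) := by
    have := Nat.prod_primeFactors_of_squarefree hD
    conv_lhs => rw [← this]
    push_cast; rfl
  conv_rhs => rw [h3, rho, ← Finset.prod_mul_distrib]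
  refine Finset.prod_congr rfl fun p hp => ?_
  have hpp := Nat.prime_of_mem_primeFactors hp
  have hp0 : (p : ℝ) ≠ 0 := by exact_mod_cast hpp.ne_zero
  rw [ArithmeticFunction.prodPrimeFactors_apply hpp.ne_zero, hpp.primeFactors,
    Finset.prod_singleton, mul_div_cancel₀ _ hp0, vv]
  split_ifs <;> norm_num

lemma split_ind {m : ℕ} {tt : ℕ → ℕ} (h : IsLin m tt) (hm : 2 ≤ m) (D : ℕ) (hD : Squarefree D)
    (n : ℕ) (hn : 0 < n) :
    (if D ∣ n * tt n then (1 : ℝ) else 0)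
      = ∑ d ∈ D.divisors.filter (fun d => (D / d).Coprime m),
        if d ∣ n ∧ D / d ∣ tt n then (1 : ℝ) else 0 := by
  classical
  have hmn : 2 ≤ m * n := by nlinarith
  obtain ⟨hc1, hc2⟩ := lin_coprime h n hmn
  have hD0 : 0 < D := Nat.pos_of_ne_zero hD.ne_zero
  have huniq : ∀ d ∈ D.divisors.filter (fun d => (D / d).Coprime m),
      d ∣ n → D / d ∣ tt n → d = Nat.gcd D n := by
    intro d hd h1 h2
    rw [Finset.mem_filter, Nat.mem_divisors] at hd
    obtain ⟨e, he⟩ := hd.1.1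
    have hd0 : 0 < d := Nat.pos_of_dvd_of_pos hd.1.1 hD0
    have he' : D / d = e := by rw [he, Nat.mul_div_cancel_left _ hd0]
    rw [he'] at h2
    have hen : e.Coprime n := hc1.coprime_dvd_left h2
    rw [he, Nat.Coprime.gcd_mul_right_cancel d hen]
    exact (Nat.gcd_eq_left h1).symm
  by_cases hdiv : D ∣ n * tt n
  · rw [if_pos hdiv]
    set g := Nat.gcd D n with hg
    have hgD : g ∣ D := Nat.gcd_dvd_left _ _
    have hgn : g ∣ n := Nat.gcd_dvd_right _ _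
    have hg0 : 0 < g := Nat.gcd_pos_of_pos_left _ hD0
    have h3 : D / g ∣ tt n := by
      have h4 : D / g ∣ (n / g) * tt n := by
        obtain ⟨c, hc⟩ := hdiv
        obtain ⟨D', hD'⟩ := hgD
        obtain ⟨n', hn'⟩ := hgn
        have e1 : D / g = D' := by rw [hD', Nat.mul_div_cancel_left _ hg0]
        have e2 : n / g = n' := by
          conv_lhs => rw [hn']
          rw [Nat.mul_div_cancel_left _ hg0]
        rw [e1, e2]
        refine ⟨c, Nat.eq_of_mul_eq_mul_left hg0 ?_⟩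
        calc g * (n' * tt n) = (g * n') * tt n := by ring
          _ = n * tt n := by rw [← hn']
          _ = D * c := hc
          _ = g * D' * c := by rw [← hD']
          _ = g * (D' * c) := by ring
      exact Nat.Coprime.dvd_of_dvd_mul_left (Nat.coprime_div_gcd_div_gcd hg0) h4
    have hgmem : g ∈ D.divisors.filter (fun d => (D / d).Coprime m) := by
      rw [Finset.mem_filter, Nat.mem_divisors]
      exact ⟨⟨hgD, hD.ne_zero⟩, hc2.coprime_dvd_left h3⟩
    rw [Finset.sum_eq_single_of_mem g hgmem]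
    · rw [if_pos ⟨hgn, h3⟩]
    · intro d hd hne
      rw [if_neg]
      rintro ⟨h1, h2⟩
      exact hne (huniq d hd h1 h2)
  · rw [if_neg hdiv]
    symm
    apply Finset.sum_eq_zero
    intro d hd
    rw [if_neg]
    rintro ⟨h1, h2⟩
    rw [Finset.mem_filter, Nat.mem_divisors] at hd
    apply hdiv
    have : d * (D / d) = D := Nat.mul_div_cancel' hd.1.1
    rw [← this]
    exact Nat.mul_dvd_mul h1 h2

lemma count2 {m : ℕ} {tt : ℕ → ℕ} (h : IsLin m tt) (hm : 2 ≤ m) (D Y : ℕ) (hD : Squarefree D) :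
    |((((Finset.Ioc Y (2 * Y)).filter (fun n => D ∣ n * tt n)).card : ℕ) : ℝ)
      - (Y : ℝ) * rho m D| ≤ D := by
  classical
  have hD0 : 0 < D := Nat.pos_of_ne_zero hD.ne_zero
  have hD0' : (0 : ℝ) < D := by exact_mod_cast hD0
  set Dv := D.divisors.filter (fun d => (D / d).Coprime m) with hDv
  have h1 : ((((Finset.Ioc Y (2 * Y)).filter (fun n => D ∣ n * tt n)).card : ℕ) : ℝ)
      = ∑ d ∈ Dv, ((((Finset.Ioc Y (2 * Y)).filter
          (fun n => d ∣ n ∧ D / d ∣ tt n)).card : ℕ) : ℝ) := by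
    rw [Finset.card_filter]
    push_cast
    have h2 : ∀ n ∈ Finset.Ioc Y (2 * Y), (if D ∣ n * tt n then (1 : ℝ) else 0)
        = ∑ d ∈ Dv, if d ∣ n ∧ D / d ∣ tt n then (1 : ℝ) else 0 := by
      intro n hn
      rw [Finset.mem_Ioc] at hn
      exact split_ind h hm D hD n (by omega)
    rw [Finset.sum_congr rfl h2, Finset.sum_comm]
    refine Finset.sum_congr rfl fun d _ => ?_
    rw [Finset.card_filter]; push_cast; rfl
  have h2 : (Y : ℝ) * rho m D = ∑ d ∈ Dv, (Y : ℝ) / D := by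
    rw [Finset.sum_const, nsmul_eq_mul, hDv, card_dd m D hD]
    field_simp
  rw [h1, h2, ← Finset.sum_sub_distrib]
  refine (Finset.abs_sum_le_sum_abs _ _).trans ?_
  calc ∑ d ∈ Dv, |((((Finset.Ioc Y (2 * Y)).filter
          (fun n => d ∣ n ∧ D / d ∣ tt n)).card : ℕ) : ℝ) - (Y : ℝ) / D|
      ≤ ∑ d ∈ Dv, (1 : ℝ) := by
        refine Finset.sum_le_sum fun d hd => ?_
        rw [hDv, Finset.mem_filter, Nat.mem_divisors] at hd
        obtain ⟨e, he⟩ := hd.1.1
        have hd0 : 0 < d := Nat.pos_of_dvd_of_pos hd.1.1 hD0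
        have he' : D / d = e := by rw [he, Nat.mul_div_cancel_left _ hd0]
        have he0 : 0 < e := by
          rcases Nat.eq_zero_or_pos e with rfl | h0
          · simp at he; omega
          · exact h0
        rw [he'] at hd ⊢
        have hde : d.Coprime e := Nat.coprime_of_squarefree_mul (he ▸ hD)
        have h3 := count_pair h (by omega) d e Y hd0 he0 hde hd.2
        have h4 : (D : ℝ) = d * e := by rw [he]; push_cast; ring
        rw [h4]
        exact h3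
    _ = Dv.card := by simp
    _ ≤ D := by
        have h5 : Dv.card ≤ D.divisors.card := Finset.card_filter_le _ _
        exact_mod_cast h5.trans (Nat.card_divisors_le_self D)

noncomputable def sg (m : ℕ) : ℝ := ∑ e ∈ m.divisors, (e : ℝ)⁻¹

lemma decomp (m : ℕ) (hm : 0 < m) (a b : ℕ) (ha : 0 < a) (hb : 0 < b) :
    ∃ ka kb g e l d : ℕ, a = d * g * ka ^ 2 ∧ b = g * e * (l / d) * kb ^ 2 ∧ d ∣ l ∧
      Squarefree l ∧ (l / d).Coprime m ∧ e ∣ m := by
  obtain ⟨la, ka, hka, hla⟩ := Nat.sq_mul_squarefree a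
  obtain ⟨lb, kb, hkb, hlb⟩ := Nat.sq_mul_squarefree b
  have hla0 : 0 < la := Nat.pos_of_ne_zero hla.ne_zero
  have hlb0 : 0 < lb := Nat.pos_of_ne_zero hlb.ne_zero
  set g := Nat.gcd la lb with hg
  have hg0 : 0 < g := Nat.gcd_pos_of_pos_left _ hla0
  obtain ⟨d, hd⟩ : g ∣ la := Nat.gcd_dvd_left _ _
  obtain ⟨l2, hl2⟩ : g ∣ lb := Nat.gcd_dvd_right _ _
  have hdd : la / g = d := by
    conv_lhs => rw [hd]
    rw [Nat.mul_div_cancel_left _ hg0]
  have hll : lb / g = l2 := by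
    conv_lhs => rw [hl2]
    rw [Nat.mul_div_cancel_left _ hg0]
  have hcop : d.Coprime l2 := by
    rw [← hdd, ← hll]
    exact Nat.coprime_div_gcd_div_gcd hg0
  set e := Nat.gcd l2 m with he
  have he0 : 0 < e := Nat.gcd_pos_of_pos_right _ hm
  obtain ⟨l', hl'⟩ : e ∣ l2 := Nat.gcd_dvd_left _ _
  have hem : e ∣ m := Nat.gcd_dvd_right _ _
  have hl2sq : Squarefree l2 := hlb.squarefree_of_dvd ⟨g, by rw [hl2]; ring⟩
  have hl'm : l'.Coprime m := by
    by_contra hcon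
    obtain ⟨p, hp, hpl, hpm⟩ := Nat.Prime.not_coprime_iff_dvd.1 hcon
    have h1 : p ∣ l2 := hpl.trans ⟨e, by rw [hl']; ring⟩
    have h2 : p ∣ e := Nat.dvd_gcd h1 hpm
    have h3 : p * p ∣ l2 := by rw [hl']; exact Nat.mul_dvd_mul h2 hpl
    exact hp.one_lt.ne' (Nat.isUnit_iff.1 (hl2sq p h3))
  have hd0 : 0 < d := by
    rcases Nat.eq_zero_or_pos d with rfl | h0
    · simp at hd; omega
    · exact h0
  refine ⟨ka, kb, g, e, d * l', d, ?_, ?_, dvd_mul_right _ _, ?_, ?_, hem⟩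
  · rw [← hka, hd]; ring
  · rw [Nat.mul_div_cancel_left _ hd0, ← hkb, hl2, hl']; ring
  · have c1 : d.Coprime l' := hcop.coprime_dvd_right ⟨e, by rw [hl']; ring⟩
    rw [Nat.squarefree_mul c1]
    exact ⟨hla.squarefree_of_dvd ⟨g, by rw [hd]; ring⟩,
      hl2sq.squarefree_of_dvd ⟨e, by rw [hl']; ring⟩⟩
  · rw [Nat.mul_div_cancel_left _ hd0]; exact hl'm

lemma V2_lower (m R₁ : ℕ) (hm : 0 < m) (hR : 1 ≤ R₁) :
    (Real.log (R₁ + 1)) ^ 2 ≤ 8 * sg m * V2 m (R₁ ^ 2) := by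
  classical
  set R := R₁ ^ 2 with hRR
  have hex : ∀ z : ℕ × ℕ, 0 < z.1 → 0 < z.2 → ∃ t : ℕ × ℕ × ℕ × ℕ × ℕ × ℕ,
      z.1 = t.2.2.2.2.2 * t.2.2.1 * t.1 ^ 2 ∧
      z.2 = t.2.2.1 * t.2.2.2.1 * (t.2.2.2.2.1 / t.2.2.2.2.2) * t.2.1 ^ 2 ∧
      t.2.2.2.2.2 ∣ t.2.2.2.2.1 ∧ Squarefree t.2.2.2.2.1 ∧
      (t.2.2.2.2.1 / t.2.2.2.2.2).Coprime m ∧ t.2.2.2.1 ∣ m := by
    intro z h1 h2
    obtain ⟨ka, kb, g, e, l, d, h⟩ := decomp m hm z.1 z.2 h1 h2
    exact ⟨(ka, kb, g, e, l, d), h⟩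
  choose! t ht1 ht2 ht3 ht4 ht5 ht6 using hex
  set I := Finset.Icc 1 R₁ with hI
  have hinj : Set.InjOn t ((I ×ˢ I : Finset (ℕ × ℕ)) : Set (ℕ × ℕ)) := by
    intro x hx y hy h
    rw [Finset.mem_coe, Finset.mem_product, hI, Finset.mem_Icc, Finset.mem_Icc] at hx hy
    apply Prod.ext
    · rw [ht1 x (by omega) (by omega), ht1 y (by omega) (by omega), h]
    · rw [ht2 x (by omega) (by omega), ht2 y (by omega) (by omega), h]
  set LD := (Ls 1 R ×ˢ Finset.Icc 1 R).filter (fun z => z.2 ∣ z.1 ∧ (z.1 / z.2).Coprime m) with hLD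
  set T := I ×ˢ (I ×ˢ (I ×ˢ (m.divisors ×ˢ LD))) with hT
  set F : ℕ × ℕ × ℕ × ℕ × ℕ × ℕ → ℝ := fun t =>
    ((t.1 : ℝ) ^ 2)⁻¹ * (((t.2.1 : ℝ) ^ 2)⁻¹ * (((t.2.2.1 : ℝ) ^ 2)⁻¹ *
      ((t.2.2.2.1 : ℝ)⁻¹ * (t.2.2.2.2.1 : ℝ)⁻¹))) with hF
  have hsub : (I ×ˢ I).image t ⊆ T := by
    intro w hw
    obtain ⟨z, hz, rfl⟩ := Finset.mem_image.1 hw
    rw [Finset.mem_product, hI, Finset.mem_Icc, Finset.mem_Icc] at hz
    have z1 : 0 < z.1 := by omega
    have z2 : 0 < z.2 := by omega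
    have e1 := ht1 z z1 z2
    have e2 := ht2 z z1 z2
    have e3 := ht3 z z1 z2
    have e4 := ht4 z z1 z2
    have e5 := ht5 z z1 z2
    have e6 := ht6 z z1 z2
    revert e1 e2 e3 e4 e5 e6
    generalize t z = w
    obtain ⟨ka, kb, g, e, l, d⟩ := w
    intro e1 e2 e3 e4 e5 e6
    dsimp only at e1 e2 e3 e4 e5 e6 ⊢
    obtain ⟨c, rfl⟩ := e3
    have pd : 0 < d := Nat.pos_of_ne_zero (by rintro rfl; simp at e1; omega)
    rw [Nat.mul_div_cancel_left _ pd] at e2 e5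
    have pg : 0 < g := Nat.pos_of_ne_zero (by rintro rfl; simp at e1; omega)
    have pka : 0 < ka := Nat.pos_of_ne_zero (by rintro rfl; simp at e1; omega)
    have pkb : 0 < kb := Nat.pos_of_ne_zero (by rintro rfl; simp at e2; omega)
    have pe : 0 < e := Nat.pos_of_ne_zero (by rintro rfl; simp at e2; omega)
    have pc : 0 < c := Nat.pos_of_ne_zero (by rintro rfl; simp at e2; omega)
    have b1 : ka ≤ R₁ := (Nat.le_of_dvd z1 ⟨d * g * ka, by rw [e1]; ring⟩).trans hz.1.2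
    have b2 : kb ≤ R₁ := (Nat.le_of_dvd z2 ⟨g * e * c * kb, by rw [e2]; ring⟩).trans hz.2.2
    have b3 : g ≤ R₁ := (Nat.le_of_dvd z1 ⟨d * ka ^ 2, by rw [e1]; ring⟩).trans hz.1.2
    have b4 : d ≤ R₁ := (Nat.le_of_dvd z1 ⟨g * ka ^ 2, by rw [e1]; ring⟩).trans hz.1.2
    have b5 : c ≤ R₁ := (Nat.le_of_dvd z2 ⟨g * e * kb ^ 2, by rw [e2]; ring⟩).trans hz.2.2
    have b6 : d * c ≤ R := by
      calc d * c ≤ R₁ * R₁ := Nat.mul_le_mul b4 b5
        _ = R := by rw [hRR]; ring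
    have b7 : d ≤ R := (Nat.le_mul_of_pos_right d pc).trans b6
    simp only [hT, hLD, hI, Finset.mem_product, Finset.mem_filter, Finset.mem_Icc,
      Nat.mem_divisors, mem_Ls]
    rw [Nat.mul_div_cancel_left _ pd]
    exact ⟨⟨pka, b1⟩, ⟨pkb, b2⟩, ⟨pg, b3⟩, ⟨e6, hm.ne'⟩, ⟨⟨Nat.mul_pos pd pc, b6, e4,
      Nat.coprime_one_right _⟩, ⟨pd, b7⟩⟩, dvd_mul_right _ _, e5⟩
  have h1 : Real.log (R₁ + 1) ≤ ∑ n ∈ I, (n : ℝ)⁻¹ := by
    have h := log_add_one_le_harmonic R₁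
    rw [harmonic_eq_sum_Icc] at h
    push_cast at h
    exact h
  have hlog0 : 0 ≤ Real.log (R₁ + 1) := Real.log_nonneg (by
    have : (0 : ℝ) ≤ R₁ := Nat.cast_nonneg R₁
    linarith)
  have h2 : (Real.log (R₁ + 1)) ^ 2 ≤ ∑ z ∈ I ×ˢ I, (z.1 : ℝ)⁻¹ * (z.2 : ℝ)⁻¹ := by
    rw [Finset.sum_product]
    have : ∑ x ∈ I, ∑ y ∈ I, (x : ℝ)⁻¹ * (y : ℝ)⁻¹ = (∑ n ∈ I, (n : ℝ)⁻¹) ^ 2 := by
      rw [sq, Finset.sum_mul_sum]
    rw [this]
    exact pow_le_pow_left₀ hlog0 h1 2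
  have h3 : ∑ z ∈ I ×ˢ I, (z.1 : ℝ)⁻¹ * (z.2 : ℝ)⁻¹ = ∑ w ∈ (I ×ˢ I).image t, F w := by
    rw [Finset.sum_image hinj]
    refine Finset.sum_congr rfl fun z hz => ?_
    rw [Finset.mem_product, hI, Finset.mem_Icc, Finset.mem_Icc] at hz
    have z1 : 0 < z.1 := by omega
    have z2 : 0 < z.2 := by omega
    have e1 := ht1 z z1 z2
    have e2 := ht2 z z1 z2
    have e3 := ht3 z z1 z2
    conv_lhs => rw [e1, e2]
    simp only [hF]
    revert e1 e2 e3
    generalize t z = w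
    obtain ⟨ka, kb, g, e, l, d⟩ := w
    intro e1 e2 e3
    dsimp only at e1 e2 e3 ⊢
    obtain ⟨c, rfl⟩ := e3
    have pd : 0 < d := Nat.pos_of_ne_zero (by rintro rfl; simp at e1; omega)
    rw [Nat.mul_div_cancel_left _ pd]
    push_cast
    simp only [mul_inv]
    have pg : g ≠ 0 := by rintro rfl; simp at e1; omega
    have pg' : (g : ℝ) ≠ 0 := by exact_mod_cast pg
    field_simp
  have h4 : ∑ w ∈ (I ×ˢ I).image t, F w ≤ ∑ w ∈ T, F w :=
    Finset.sum_le_sum_of_subset_of_nonneg hsub fun _ _ _ => by positivity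
  have h5 : ∑ w ∈ T, F w = (∑ k ∈ I, ((k : ℝ) ^ 2)⁻¹) * ((∑ k ∈ I, ((k : ℝ) ^ 2)⁻¹) *
      ((∑ k ∈ I, ((k : ℝ) ^ 2)⁻¹) * (sg m * V2 m R))) := by
    have h6 : V2 m R = ∑ z ∈ LD, (z.1 : ℝ)⁻¹ := by
      rw [V2, hLD, Finset.sum_filter, Finset.sum_product]
      refine Finset.sum_congr rfl fun l hl => ?_
      have hl' := mem_Ls.1 hl
      have hl0 : (0 : ℝ) < l := by exact_mod_cast hl'.1
      have h7 := card_dd m l hl'.2.2.1
      have h8 : rho m l = (((l.divisors.filter (fun d => (l / d).Coprime m)).card : ℕ) : ℝ) *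
          (l : ℝ)⁻¹ := by rw [h7]; field_simp
      dsimp only
      rw [h8, ← Finset.sum_filter, Finset.sum_const, nsmul_eq_mul]
      congr 3
      ext d
      rw [Finset.mem_filter, Finset.mem_filter, Nat.mem_divisors, Finset.mem_Icc]
      constructor
      · rintro ⟨⟨h1, _⟩, h2⟩
        exact ⟨⟨Nat.pos_of_dvd_of_pos h1 hl'.1, (Nat.le_of_dvd hl'.1 h1).trans hl'.2.1⟩, h1, h2⟩
      · rintro ⟨_, h1, h2⟩
        exact ⟨⟨h1, by omega⟩, h2⟩
    rw [h6, sg, hT, Finset.sum_product, Finset.sum_mul]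
    refine Finset.sum_congr rfl fun ka _ => ?_
    rw [Finset.sum_product, Finset.sum_mul, Finset.mul_sum]
    refine Finset.sum_congr rfl fun kb _ => ?_
    rw [Finset.sum_product, Finset.sum_mul, Finset.mul_sum, Finset.mul_sum]
    refine Finset.sum_congr rfl fun g _ => ?_
    rw [Finset.sum_product, Finset.sum_mul, Finset.mul_sum, Finset.mul_sum, Finset.mul_sum]
    refine Finset.sum_congr rfl fun e _ => ?_
    rw [Finset.mul_sum, Finset.mul_sum, Finset.mul_sum, Finset.mul_sum]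
  have hV : 0 < V2 m R := lt_of_lt_of_le one_pos (V2_ge_one (by
    rw [hRR]; exact Nat.one_le_pow _ _ hR))
  have hsg : 0 ≤ sg m := Finset.sum_nonneg fun _ _ => by positivity
  have hK := sum_inv_sq_le R₁
  have hK0 : 0 ≤ ∑ k ∈ I, ((k : ℝ) ^ 2)⁻¹ := Finset.sum_nonneg fun _ _ => by positivity
  have hx : 0 ≤ sg m * V2 m R := mul_nonneg hsg hV.le
  have h9 : (∑ k ∈ I, ((k : ℝ) ^ 2)⁻¹) * ((∑ k ∈ I, ((k : ℝ) ^ 2)⁻¹) *
      ((∑ k ∈ I, ((k : ℝ) ^ 2)⁻¹) * (sg m * V2 m R))) ≤ 2 * (2 * (2 * (sg m * V2 m R))) := by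
    apply mul_le_mul hK _ (mul_nonneg hK0 (mul_nonneg hK0 hx)) (by norm_num)
    apply mul_le_mul hK _ (mul_nonneg hK0 hx) (by norm_num)
    exact mul_le_mul_of_nonneg_right hK hx
  linarith

lemma squarefree_lcm {d e : ℕ} (hd : Squarefree d) (he : Squarefree e) :
    Squarefree (Nat.lcm d e) := by
  have hd0 : 0 < d := Nat.pos_of_ne_zero hd.ne_zero
  have hg0 : 0 < Nat.gcd d e := Nat.gcd_pos_of_pos_left _ hd0
  obtain ⟨e', he'⟩ : Nat.gcd d e ∣ e := Nat.gcd_dvd_right _ _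
  have hcop : d.Coprime e' := by
    by_contra hcon
    obtain ⟨p, hp, hpd, hpe⟩ := Nat.Prime.not_coprime_iff_dvd.1 hcon
    have h1 : p ∣ e := hpe.trans ⟨Nat.gcd d e, by rw [mul_comm]; exact he'⟩
    have h2 : p ∣ Nat.gcd d e := Nat.dvd_gcd hpd h1
    have h3 : p * p ∣ e := by
      conv_rhs => rw [he']
      exact Nat.mul_dvd_mul h2 hpe
    exact hp.one_lt.ne' (Nat.isUnit_iff.1 (he p h3))
  have h4 : Nat.lcm d e = d * e' := by
    have h5 := Nat.gcd_mul_lcm d e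
    have h6 : Nat.gcd d e * Nat.lcm d e = Nat.gcd d e * (d * e') := by
      rw [h5]
      conv_lhs => rw [he']
      ring
    exact Nat.eq_of_mul_eq_mul_left hg0 h6
  rw [h4, Nat.squarefree_mul hcop]
  exact ⟨hd, he.squarefree_of_dvd ⟨Nat.gcd d e, by rw [mul_comm]; exact he'⟩⟩

/-- Selberg bound for pairs. -/
lemma selberg2 {m : ℕ} {tt : ℕ → ℕ} (h : IsLin m tt) (hm : 2 ≤ m) (Y R : ℕ) (hR : 1 ≤ R)
    (hRY : R ≤ Y) :
    ((((Finset.Ioc Y (2 * Y)).filter (fun n => n.Prime ∧ (tt n).Prime)).card : ℕ) : ℝ)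
      ≤ (Y : ℝ) * (V2 m R)⁻¹ + (R : ℝ) ^ 6 := by
  classical
  have hV : 0 < V2 m R := lt_of_lt_of_le one_pos (V2_ge_one hR)
  set A := Finset.Ioc Y (2 * Y) with hA
  have h1 : ((((Finset.Ioc Y (2 * Y)).filter (fun n => n.Prime ∧ (tt n).Prime)).card : ℕ) : ℝ)
      ≤ ∑ n ∈ A, (∑ d ∈ (Ls 1 R).filter (fun d => d ∣ n * tt n), lam2 m R d) ^ 2 := by
    rw [Finset.card_eq_sum_ones, Nat.cast_sum]
    refine le_trans ?_ (Finset.sum_le_sum_of_subset_of_nonneg
      (Finset.filter_subset (fun n => n.Prime ∧ (tt n).Prime) A) fun _ _ _ => sq_nonneg _)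
    refine Finset.sum_le_sum fun n hn => ?_
    rw [Finset.mem_filter, Finset.mem_Ioc] at hn
    have htn : R < tt n := by
      have h5 : 2 * n ≤ m * n := Nat.mul_le_mul_right _ hm
      rcases h with h | h <;> rw [h] <;> omega
    have h2 : (Ls 1 R).filter (fun d => d ∣ n * tt n) = {1} := by
      ext d
      rw [Finset.mem_filter, Finset.mem_singleton]
      constructor
      · rintro ⟨hd, hdn⟩
        rw [mem_Ls] at hd
        by_contra hne
        obtain ⟨p, hp, hpd⟩ := Nat.exists_prime_and_dvd hne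
        have hpR : p ≤ R := (Nat.le_of_dvd hd.1 hpd).trans hd.2.1
        rcases (Nat.Prime.dvd_mul hp).1 (hpd.trans hdn) with h3 | h3
        · have := (Nat.prime_dvd_prime_iff_eq hp hn.2.1).1 h3
          omega
        · have := (Nat.prime_dvd_prime_iff_eq hp hn.2.2).1 h3
          omega
      · rintro rfl
        exact ⟨one_mem_Ls hR, one_dvd _⟩
    rw [h2, Finset.sum_singleton, lam2_one hR]
    norm_num
  refine h1.trans ?_
  have h2 : ∑ n ∈ A, (∑ d ∈ (Ls 1 R).filter (fun d => d ∣ n * tt n), lam2 m R d) ^ 2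
      = ∑ d ∈ Ls 1 R, ∑ e ∈ Ls 1 R, lam2 m R d * lam2 m R e *
        (((A.filter (fun n => Nat.lcm d e ∣ n * tt n)).card : ℕ) : ℝ) := by
    have h3 : ∀ n ∈ A, (∑ d ∈ (Ls 1 R).filter (fun d => d ∣ n * tt n), lam2 m R d) ^ 2
        = ∑ d ∈ Ls 1 R, ∑ e ∈ Ls 1 R,
          if Nat.lcm d e ∣ n * tt n then lam2 m R d * lam2 m R e else 0 := by
      intro n _
      rw [sq, Finset.sum_mul_sum, Finset.sum_filter]
      refine Finset.sum_congr rfl fun d _ => ?_
      by_cases hd : d ∣ n * tt n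
      · rw [if_pos hd, Finset.sum_filter]
        refine Finset.sum_congr rfl fun e _ => ?_
        by_cases he : e ∣ n * tt n
        · rw [if_pos he, if_pos (Nat.lcm_dvd hd he)]
        · rw [if_neg he, if_neg (fun h => he ((Nat.dvd_lcm_right d e).trans h))]
      · rw [if_neg hd]
        symm
        apply Finset.sum_eq_zero
        intro e _
        rw [if_neg (fun h => hd ((Nat.dvd_lcm_left d e).trans h))]
    rw [Finset.sum_congr rfl h3, Finset.sum_comm]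
    refine Finset.sum_congr rfl fun d _ => ?_
    rw [Finset.sum_comm]
    refine Finset.sum_congr rfl fun e _ => ?_
    rw [← Finset.sum_filter, Finset.sum_const, nsmul_eq_mul, mul_comm]
  rw [h2]
  have h4 : ∀ d ∈ Ls 1 R, ∀ e ∈ Ls 1 R, lam2 m R d * lam2 m R e *
        (((A.filter (fun n => Nat.lcm d e ∣ n * tt n)).card : ℕ) : ℝ)
      ≤ (Y : ℝ) * (lam2 m R d * lam2 m R e * rho m (Nat.lcm d e)) + (d : ℝ) ^ 2 * (e : ℝ) ^ 2 := by
    intro d hd e he
    have hd' := mem_Ls.1 hd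
    have he' := mem_Ls.1 he
    have hsq : Squarefree (Nat.lcm d e) := squarefree_lcm hd'.2.2.1 he'.2.2.1
    have h5 := count2 h hm (Nat.lcm d e) Y hsq
    rw [← hA] at h5
    set c : ℝ := (((A.filter (fun n => Nat.lcm d e ∣ n * tt n)).card : ℕ) : ℝ) with hc
    have hlcm : ((Nat.lcm d e : ℕ) : ℝ) ≤ d * e := by
      exact_mod_cast Nat.le_of_dvd (Nat.mul_pos hd'.1 he'.1)
        (Nat.lcm_dvd (dvd_mul_right _ _) (dvd_mul_left _ _))
    have h6 : lam2 m R d * lam2 m R e * (c - (Y : ℝ) * rho m (Nat.lcm d e))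
        ≤ (d : ℝ) ^ 2 * (e : ℝ) ^ 2 := by
      refine (le_abs_self _).trans ?_
      rw [abs_mul, abs_mul]
      calc |lam2 m R d| * |lam2 m R e| * |c - (Y : ℝ) * rho m (Nat.lcm d e)|
          ≤ ((d : ℝ) * e) * (d * e) := by
            apply mul_le_mul _ (h5.trans hlcm) (abs_nonneg _) (by positivity)
            exact mul_le_mul (abs_lam2_le hR d hd'.1) (abs_lam2_le hR e he'.1) (abs_nonneg _)
              (by positivity)
        _ = (d : ℝ) ^ 2 * (e : ℝ) ^ 2 := by ring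
    have h7 : lam2 m R d * lam2 m R e * c
        = (Y : ℝ) * (lam2 m R d * lam2 m R e * rho m (Nat.lcm d e))
          + lam2 m R d * lam2 m R e * (c - (Y : ℝ) * rho m (Nat.lcm d e)) := by ring
    rw [h7]
    linarith
  calc ∑ d ∈ Ls 1 R, ∑ e ∈ Ls 1 R, lam2 m R d * lam2 m R e *
        (((A.filter (fun n => Nat.lcm d e ∣ n * tt n)).card : ℕ) : ℝ)
      ≤ ∑ d ∈ Ls 1 R, ∑ e ∈ Ls 1 R, ((Y : ℝ) *
          (lam2 m R d * lam2 m R e * rho m (Nat.lcm d e)) + (d : ℝ) ^ 2 * (e : ℝ) ^ 2) :=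
        Finset.sum_le_sum fun d hd => Finset.sum_le_sum fun e he => h4 d hd e he
    _ = (Y : ℝ) * (∑ d ∈ Ls 1 R, ∑ e ∈ Ls 1 R, lam2 m R d * lam2 m R e * rho m (Nat.lcm d e))
          + (∑ d ∈ Ls 1 R, (d : ℝ) ^ 2) ^ 2 := by
        simp_rw [Finset.sum_add_distrib]
        rw [sq, Finset.sum_mul_sum, Finset.mul_sum]
        simp_rw [Finset.mul_sum]
    _ ≤ (Y : ℝ) * (V2 m R)⁻¹ + (R : ℝ) ^ 6 := by
        have h8 := mul_le_mul_of_nonneg_left (main_form2 (m := m) hR)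
          (by positivity : (0 : ℝ) ≤ (Y : ℝ))
        have h9 : ∑ d ∈ Ls 1 R, (d : ℝ) ^ 2 ≤ (R : ℝ) ^ 3 := by
          have h10 : ∑ d ∈ Ls 1 R, (d : ℝ) ^ 2 ≤ ∑ d ∈ Ls 1 R, (R : ℝ) ^ 2 :=
            Finset.sum_le_sum fun d hd => by
              have : (d : ℝ) ≤ R := by exact_mod_cast (mem_Ls.1 hd).2.1
              exact pow_le_pow_left₀ (Nat.cast_nonneg d) this 2
          rw [Finset.sum_const, nsmul_eq_mul] at h10
          have h11 : ((Ls 1 R).card : ℝ) ≤ R := by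
            have : (Ls 1 R).card ≤ (Finset.Icc 1 R).card := Finset.card_filter_le _ _
            rw [Nat.card_Icc] at this
            exact_mod_cast (by omega : (Ls 1 R).card ≤ R)
          calc ∑ d ∈ Ls 1 R, (d : ℝ) ^ 2 ≤ ((Ls 1 R).card : ℝ) * (R : ℝ) ^ 2 := h10
            _ ≤ R * (R : ℝ) ^ 2 := mul_le_mul_of_nonneg_right h11 (by positivity)
            _ = (R : ℝ) ^ 3 := by ring
        have h12 : (∑ d ∈ Ls 1 R, (d : ℝ) ^ 2) ^ 2 ≤ ((R : ℝ) ^ 3) ^ 2 :=
          pow_le_pow_left₀ (Finset.sum_nonneg fun _ _ => by positivity) h9 2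
        have h13 : ((R : ℝ) ^ 3) ^ 2 = (R : ℝ) ^ 6 := by ring
        linarith

end LibSP23
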