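import Pool.Agent.LibSP23.S2

set_option linter.unusedVariables false
set_option linter.unusedSectionVars false

namespace LibSP23

/-- summing over dyadic blocks -/
lemma blocks_sum (P : ℕ → Prop) [DecidablePred P] (K : ℝ) (hK : 0 ≤ K) (J : ℕ) (x : ℝ)
    (hx : x ∈ Set.Ioc (1 : ℝ) 2)
    (hb : ∀ j : ℕ, J ≤ j → ∑ n ∈ (Finset.Ioc (2 ^ j) (2 * 2 ^ j)).filter P, W x n
      ≤ K * ((2 : ℝ)⁻¹ ^ (x - 1)) ^ j) (Z : ℕ) :
    ∑ n ∈ (Finset.Ioc (2 ^ J) Z).filter P, W x n ≤ K * (2 / (x - 1)) := by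
  obtain ⟨r0, r1⟩ := two_inv_rpow x hx
  set r : ℝ := (2 : ℝ)⁻¹ ^ (x - 1) with hr
  have hx1 : 0 < x - 1 := by linarith [hx.1]
  have hr1 : r < 1 := by linarith
  have h1 : ∀ i : ℕ, ∑ n ∈ (Finset.Ioc (2 ^ J) (2 ^ (J + i))).filter P, W x n
      ≤ K * ∑ k ∈ Finset.range i, r ^ (J + k) := by
    intro i
    induction i with
    | zero => simp
    | succ i ih =>
      have hle1 : 2 ^ J ≤ 2 ^ (J + i) := Nat.pow_le_pow_right (by norm_num) (by omega)
      have hle2 : 2 ^ (J + i) ≤ 2 ^ (J + (i + 1)) := Nat.pow_le_pow_right (by norm_num) (by omega)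
      rw [← Finset.Ioc_union_Ioc_eq_Ioc hle1 hle2, Finset.filter_union, Finset.sum_union]
      · rw [Finset.sum_range_succ, mul_add]
        refine add_le_add ih ?_
        have h2 := hb (J + i) (by omega)
        have h3 : 2 * 2 ^ (J + i) = 2 ^ (J + (i + 1)) := by rw [← add_assoc, pow_succ]; ring
        rw [h3] at h2
        exact h2
      · apply Finset.disjoint_filter_filter
        rw [Finset.disjoint_left]
        intro n h1 h2
        rw [Finset.mem_Ioc] at h1 h2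
        omega
  have h2 : ∑ n ∈ (Finset.Ioc (2 ^ J) Z).filter P, W x n
      ≤ ∑ n ∈ (Finset.Ioc (2 ^ J) (2 ^ (J + Z))).filter P, W x n := by
    apply Finset.sum_le_sum_of_subset_of_nonneg _ fun _ _ _ => W_nonneg _ _
    apply Finset.filter_subset_filter
    apply Finset.Ioc_subset_Ioc_right
    have : Z < 2 ^ Z := Nat.lt_two_pow_self
    have h3 : 2 ^ Z ≤ 2 ^ (J + Z) := Nat.pow_le_pow_right (by norm_num) (by omega)
    omega
  have h3 : ∑ k ∈ Finset.range Z, r ^ (J + k) ≤ 2 / (x - 1) := by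
    calc ∑ k ∈ Finset.range Z, r ^ (J + k) ≤ ∑ k ∈ Finset.range Z, r ^ k := by
          refine Finset.sum_le_sum fun k _ => ?_
          rw [pow_add]
          exact mul_le_of_le_one_left (by positivity) (pow_le_one₀ r0.le hr1.le)
      _ ≤ (1 - r)⁻¹ := by
          have hs := sum_le_hasSum (Finset.range Z) (fun k _ => by positivity)
            (hasSum_geometric_of_lt_one r0.le hr1)
          exact hs
      _ ≤ 2 / (x - 1) := by
          rw [inv_eq_one_div, div_le_div_iff₀ (by linarith) hx1]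
          linarith
  exact (h2.trans (h1 Z)).trans (mul_le_mul_of_nonneg_left h3 hK)

/-- weight of a block in terms of the count of primes -/
lemma block_weight (P : ℕ → Prop) [DecidablePred P] (j : ℕ) (hj : 1 ≤ j) (x : ℝ) (hx : 1 < x)
    (B : ℝ) (hB : ((((Finset.Ioc (2 ^ j) (2 * 2 ^ j)).filter
      (fun n => n.Prime ∧ P n)).card : ℕ) : ℝ) ≤ B * 2 ^ j / j) :
    ∑ n ∈ (Finset.Ioc (2 ^ j) (2 * 2 ^ j)).filter P, W x n
      ≤ 2 * B * ((2 : ℝ)⁻¹ ^ (x - 1)) ^ j := by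
  have hj' : (0 : ℝ) < j := by exact_mod_cast (by omega : 0 < j)
  have h1 : ∑ n ∈ (Finset.Ioc (2 ^ j) (2 * 2 ^ j)).filter P, W x n
      = ∑ n ∈ (Finset.Ioc (2 ^ j) (2 * 2 ^ j)).filter (fun n => n.Prime ∧ P n),
        W x n := by
    rw [Finset.sum_filter, Finset.sum_filter]
    refine Finset.sum_congr rfl fun n _ => ?_
    by_cases hn : n.Prime
    · simp [hn]
    · simp [hn, W]
  rw [h1]
  have h2 : ∀ n ∈ (Finset.Ioc (2 ^ j) (2 * 2 ^ j)).filter (fun n => n.Prime ∧ P n),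
      W x n ≤ (j + 1) / ((2 : ℝ) ^ j) ^ x := by
    intro n hn
    rw [Finset.mem_filter, Finset.mem_Ioc] at hn
    obtain ⟨⟨ha, hb⟩, hp, _⟩ := hn
    rw [W, if_pos hp]
    have ha' : (2 : ℝ) ^ j ≤ n := by exact_mod_cast ha.le
    have hb' : (n : ℝ) ≤ 2 ^ (j + 1) := by
      rw [pow_succ, mul_comm]; exact_mod_cast hb
    have hn0 : (0 : ℝ) < n := by exact_mod_cast hp.pos
    apply div_le_div₀ (by positivity) _ (by positivity)
      (Real.rpow_le_rpow (by positivity) ha' (by linarith))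
    calc Real.log n ≤ Real.log ((2 : ℝ) ^ (j + 1)) := Real.log_le_log hn0 hb'
      _ = (j + 1) * Real.log 2 := by rw [Real.log_pow]; push_cast; ring
      _ ≤ (j + 1) * 1 := by
          apply mul_le_mul_of_nonneg_left _ (by positivity)
          have := Real.log_two_lt_d9; linarith
      _ = j + 1 := mul_one _
  refine (Finset.sum_le_card_nsmul _ _ _ h2).trans ?_
  rw [nsmul_eq_mul]
  have h4 : ((2 : ℝ) ^ j) ^ x = 2 ^ j * ((2 : ℝ) ^ (x - 1)) ^ j := by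
    rw [← Real.rpow_natCast 2 j, ← Real.rpow_mul (by norm_num), ← Real.rpow_natCast _ j,
      ← Real.rpow_mul (by norm_num), ← Real.rpow_add (by norm_num)]
    congr 1; ring
  have h5 : ((2 : ℝ)⁻¹ ^ (x - 1)) ^ j = (((2 : ℝ) ^ (x - 1)) ^ j)⁻¹ := by
    rw [Real.inv_rpow (by norm_num), inv_pow]
  have h6 : (0 : ℝ) < ((2 : ℝ) ^ (x - 1)) ^ j := by positivity
  have h7 : ((j : ℝ) + 1) ≤ 2 * j := by
    have : (1 : ℝ) ≤ j := by exact_mod_cast hj
    linarith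
  have hB0 : 0 ≤ B * 2 ^ j / j := le_trans (Nat.cast_nonneg _) hB
  calc ((((Finset.Ioc (2 ^ j) (2 * 2 ^ j)).filter (fun n => n.Prime ∧ P n)).card : ℕ)
        : ℝ) * ((j + 1) / ((2 : ℝ) ^ j) ^ x)
      ≤ (B * 2 ^ j / j) * ((2 * j) / ((2 : ℝ) ^ j) ^ x) := by
        apply mul_le_mul hB _ (by positivity) hB0
        exact div_le_div_of_nonneg_right h7 (by positivity)
    _ = 2 * B * ((2 : ℝ)⁻¹ ^ (x - 1)) ^ j := by
        rw [h4, h5]
        field_simp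

/-- Brun–Titchmarsh with a large modulus `q ≤ n^{a/(a+1)}` -/
lemma bt_mid (q b a j : ℕ) (hq : 0 < q) (hj : 16 * (a + 1) ≤ j)
    (hqj : q ^ (a + 1) ≤ 2 ^ ((j + 1) * a)) :
    ((((Finset.Ioc (2 ^ j) (2 * 2 ^ j)).filter (fun n => n.Prime ∧ n ≡ b [MOD q])).card : ℕ) : ℝ)
      ≤ 160 * (a + 1) / Nat.totient q * 2 ^ j / j := by
  set i := j / (16 * (a + 1)) with hi
  have hi1 : 1 ≤ i := (Nat.one_le_div_iff (by positivity)).2 hj
  have hi16 : 16 * (a + 1) * i ≤ j := Nat.mul_div_le j (16 * (a + 1))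
  have hij : j ≤ 32 * (a + 1) * i := by
    have h1 : j < 16 * (a + 1) * (i + 1) := by
      have := Nat.lt_mul_div_succ j (by positivity : 0 < 16 * (a + 1))
      rw [← hi] at this
      exact this
    have h2 : 16 * (a + 1) * (i + 1) ≤ 16 * (a + 1) * (2 * i) := Nat.mul_le_mul_left _ (by omega)
    calc j ≤ 16 * (a + 1) * (2 * i) := h1.le.trans h2
      _ = 32 * (a + 1) * i := by ring
  have hia : (a + 1) * i ≤ j := by
    have h0 : (a + 1) * i ≤ 16 * (a + 1) * i := by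
      rw [mul_assoc]
      exact Nat.le_mul_of_pos_left _ (by norm_num)
    exact h0.trans hi16
  have hij' : i ≤ j := (Nat.le_mul_of_pos_left i (by omega : 0 < a + 1)).trans hia
  have hR : 1 ≤ 2 ^ i := Nat.one_le_two_pow
  have hRX : 2 ^ i ≤ 2 ^ j := Nat.pow_le_pow_right (by norm_num) hij'
  have h1 := selberg_bound q b (2 ^ j) (2 ^ i) hq hR hRX
  have hV : 0 < Vs q (2 ^ i) := lt_of_lt_of_le one_pos (Vs_ge_one hR)
  have hφ : 0 < Nat.totient q := Nat.totient_pos.2 hq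
  have hφ' : (0 : ℝ) < Nat.totient q := by exact_mod_cast hφ
  have hq' : (0 : ℝ) < q := by exact_mod_cast hq
  have hj0 : 0 < j := by omega
  have hj' : (0 : ℝ) < j := by exact_mod_cast hj0
  have hi' : (0 : ℝ) < i := by exact_mod_cast hi1
  have h2 := Vs_lower q (2 ^ i) hq hR
  have h3 : (i : ℝ) / 2 ≤ Real.log (((2 ^ i : ℕ) : ℝ) + 1) := by
    have h4 : Real.log (((2 ^ i : ℕ) : ℝ)) ≤ Real.log (((2 ^ i : ℕ) : ℝ) + 1) :=
      Real.log_le_log (by positivity) (by linarith)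
    have h5 : Real.log (((2 ^ i : ℕ) : ℝ)) = i * Real.log 2 := by
      push_cast; rw [Real.log_pow]
    have h6 : (1 : ℝ) / 2 ≤ Real.log 2 := by
      have := Real.log_two_gt_d9; linarith
    have h9 : (i : ℝ) * (1 / 2) ≤ i * Real.log 2 := mul_le_mul_of_nonneg_left h6 hi'.le
    linarith
  have h4 : (Vs q (2 ^ i))⁻¹ ≤ 4 * q / (Nat.totient q * i) := by
    have h5 : (i : ℝ) / 2 ≤ (q : ℝ) / Nat.totient q * (2 * Vs q (2 ^ i)) := h3.trans h2
    rw [inv_eq_one_div, div_le_div_iff₀ hV (by positivity)]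
    rw [div_mul_eq_mul_div, div_le_div_iff₀ (by norm_num) hφ'] at h5
    linarith
  have h5 : (((2 ^ j : ℕ) : ℝ)) / q * (Vs q (2 ^ i))⁻¹ ≤ 4 * 2 ^ j / (Nat.totient q * i) := by
    calc (((2 ^ j : ℕ) : ℝ)) / q * (Vs q (2 ^ i))⁻¹
        ≤ (((2 ^ j : ℕ) : ℝ)) / q * (4 * q / (Nat.totient q * i)) :=
          mul_le_mul_of_nonneg_left h4 (by positivity)
      _ = 4 * 2 ^ j / (Nat.totient q * i) := by
          push_cast
          field_simp
  have h6 : (((2 ^ i : ℕ) : ℝ)) ^ 4 ≤ 1 * 2 ^ j / (Nat.totient q * i) := by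
    rw [le_div_iff₀ (by positivity), one_mul]
    have h7 : (2 ^ i) ^ 4 * (Nat.totient q * i) ≤ 2 ^ j := by
      have h8 : (2 ^ i) ^ 4 * (Nat.totient q * i) ≤ (2 ^ i) ^ 4 * (q * 2 ^ i) := by
        gcongr
        · exact Nat.totient_le q
        · exact Nat.lt_two_pow_self.le
      refine h8.trans ?_
      have h9 : ((2 ^ i) ^ 4 * (q * 2 ^ i)) ^ (a + 1) ≤ (2 ^ j) ^ (a + 1) := by
        calc ((2 ^ i) ^ 4 * (q * 2 ^ i)) ^ (a + 1) = 2 ^ (5 * ((a + 1) * i)) * q ^ (a + 1) := by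
              have : (2 ^ i) ^ 4 * (q * 2 ^ i) = 2 ^ (5 * i) * q := by ring
              rw [this, mul_pow, ← pow_mul]
              congr 2
              ring
          _ ≤ 2 ^ (5 * ((a + 1) * i)) * 2 ^ ((j + 1) * a) := Nat.mul_le_mul_left _ hqj
          _ = 2 ^ (5 * ((a + 1) * i) + (j + 1) * a) := (pow_add _ _ _).symm
          _ ≤ 2 ^ (j * (a + 1)) := by
              apply Nat.pow_le_pow_right (by norm_num)
              have e1 : 16 * ((a + 1) * i) ≤ j := by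
                calc 16 * ((a + 1) * i) = 16 * (a + 1) * i := by ring
                  _ ≤ j := hi16
              have e2 : (j + 1) * a = j * a + a := by ring
              have e3 : j * (a + 1) = j * a + j := by ring
              omega
          _ = (2 ^ j) ^ (a + 1) := pow_mul _ _ _
      exact (Nat.pow_le_pow_iff_left (by omega)).1 h9
    exact_mod_cast h7
  refine h1.trans ?_
  have h7 : (j : ℝ) ≤ 32 * (a + 1) * i := by exact_mod_cast hij
  calc (((2 ^ j : ℕ) : ℝ)) / q * (Vs q (2 ^ i))⁻¹ + (((2 ^ i : ℕ) : ℝ)) ^ 4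
      ≤ 4 * 2 ^ j / (Nat.totient q * i) + 1 * 2 ^ j / (Nat.totient q * i) := add_le_add h5 h6
    _ = 5 * 2 ^ j / (Nat.totient q * i) := by ring
    _ ≤ 160 * (a + 1) / Nat.totient q * 2 ^ j / j := by
        rw [div_mul_eq_mul_div, div_div, div_le_div_iff₀ (by positivity) (by positivity)]
        have h8 : 0 ≤ (2 : ℝ) ^ j * Nat.totient q := by positivity
        nlinarith [mul_le_mul_of_nonneg_left h7 h8]

/-- mid range mass -/
lemma mid_mass (sh : ℕ → ℕ) (hsh : IsShift sh) (a q : ℕ) (hq : 0 < q) (N : ℕ)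
    (hN : 2 ^ (16 * (a + 1)) < N) (x : ℝ) (hx : x ∈ Set.Ioc (1 : ℝ) 2) (Z : ℕ) :
    ∑ n ∈ (Finset.Icc N Z).filter (fun n => q ∣ sh n ∧ q ^ (a + 1) ≤ n ^ a), W x n
      ≤ 640 * (a + 1) / (x - 1) * (1 / Nat.totient q) := by
  classical
  obtain ⟨v, hv⟩ := class_exists sh hsh q 1 0 (Nat.coprime_one_right q)
  have hφ : (0 : ℝ) < Nat.totient q := by exact_mod_cast Nat.totient_pos.2 hq
  have h1 := blocks_sum (fun n => q ∣ sh n ∧ q ^ (a + 1) ≤ n ^ a)
    (320 * (a + 1) / Nat.totient q) (by positivity) (16 * (a + 1)) x hx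
    (fun j hj => by
      by_cases hqj : q ^ (a + 1) ≤ 2 ^ ((j + 1) * a)
      · have h2 := bt_mid q v a j hq hj hqj
        have h3 := block_weight (fun n => q ∣ sh n ∧ q ^ (a + 1) ≤ n ^ a) j (by omega) x hx.1
          (160 * (a + 1) / Nat.totient q) (by
            refine le_trans ?_ h2
            have : ((Finset.Ioc (2 ^ j) (2 * 2 ^ j)).filter
                (fun n => n.Prime ∧ q ∣ sh n ∧ q ^ (a + 1) ≤ n ^ a)).card
                ≤ ((Finset.Ioc (2 ^ j) (2 * 2 ^ j)).filter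
                (fun n => n.Prime ∧ n ≡ v [MOD q])).card := by
              apply Finset.card_le_card
              intro n hn
              rw [Finset.mem_filter, Finset.mem_Ioc] at *
              have := hv n hn.2.1.pos (by rw [Nat.ModEq, Nat.mod_one, Nat.mod_one]) hn.2.2.1
              rw [mul_one] at this
              exact ⟨hn.1, hn.2.1, this⟩
            exact_mod_cast this)
        refine h3.trans (le_of_eq ?_)
        ring
      · have : (Finset.Ioc (2 ^ j) (2 * 2 ^ j)).filter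
            (fun n => q ∣ sh n ∧ q ^ (a + 1) ≤ n ^ a) = ∅ := by
          apply Finset.filter_false_of_mem
          rintro n hn ⟨_, h4⟩
          rw [Finset.mem_Ioc] at hn
          apply hqj
          calc q ^ (a + 1) ≤ n ^ a := h4
            _ ≤ (2 * 2 ^ j) ^ a := Nat.pow_le_pow_left hn.2 a
            _ = 2 ^ ((j + 1) * a) := by rw [pow_mul, pow_succ, mul_comm]
        rw [this, Finset.sum_empty]
        positivity) Z
  refine le_trans ?_ (h1.trans (le_of_eq ?_))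
  · apply Finset.sum_le_sum_of_subset_of_nonneg _ fun _ _ _ => W_nonneg _ _
    intro n hn
    rw [Finset.mem_filter, Finset.mem_Icc] at hn
    rw [Finset.mem_filter, Finset.mem_Ioc]
    exact ⟨⟨by omega, hn.1.2⟩, hn.2⟩
  · have hx1 : x - 1 ≠ 0 := by have := hx.1; linarith
    field_simp
    norm_num

/-- average of `sg` -/
lemma sum_sg (Z : ℕ) : ∑ m ∈ Finset.Icc 1 Z, sg m / m ≤ 2 * (1 + Real.log Z) := by
  classical
  have h1 : ∑ m ∈ Finset.Icc 1 Z, sg m / m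
      = ∑ z ∈ (Finset.Icc 1 Z).sigma (fun m => m.divisors), ((z.2 : ℝ)⁻¹ * (z.1 : ℝ)⁻¹) := by
    rw [Finset.sum_sigma]
    refine Finset.sum_congr rfl fun m _ => ?_
    rw [sg, div_eq_mul_inv, Finset.sum_mul]
  have hinj : Set.InjOn (fun z : (_ : ℕ) × ℕ => (z.2, z.1 / z.2))
      ((Finset.Icc 1 Z).sigma (fun m => m.divisors) : Finset ((_ : ℕ) × ℕ)) := by
    rintro ⟨m, e⟩ hz ⟨m', e'⟩ hz' h
    rw [Finset.mem_coe, Finset.mem_sigma, Nat.mem_divisors] at hz hz'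
    simp only [Prod.mk.injEq] at h
    obtain ⟨h1, h2⟩ := h
    subst h1
    have e1 : m = e * (m / e) := (Nat.mul_div_cancel' hz.2.1).symm
    have e2 : m' = e * (m' / e) := (Nat.mul_div_cancel' hz'.2.1).symm
    have : m = m' := by rw [e1, e2, h2]
    subst this
    rfl
  have h2 : ∑ z ∈ (Finset.Icc 1 Z).sigma (fun m => m.divisors), ((z.2 : ℝ)⁻¹ * (z.1 : ℝ)⁻¹)
      = ∑ w ∈ ((Finset.Icc 1 Z).sigma (fun m => m.divisors)).image
        (fun z : (_ : ℕ) × ℕ => (z.2, z.1 / z.2)), (((w.1 : ℝ) ^ 2)⁻¹ * (w.2 : ℝ)⁻¹) := by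
    rw [Finset.sum_image hinj]
    refine Finset.sum_congr rfl ?_
    rintro ⟨m, e⟩ hz
    rw [Finset.mem_sigma, Nat.mem_divisors, Finset.mem_Icc] at hz
    have he0 : 0 < e := Nat.pos_of_dvd_of_pos hz.2.1 (by have := hz.1.1; dsimp only at this; omega)
    have he0' : (e : ℝ) ≠ 0 := by exact_mod_cast he0.ne'
    have e1 : (m : ℝ) = e * ((m / e : ℕ) : ℝ) := by
      exact_mod_cast (Nat.mul_div_cancel' hz.2.1).symm
    dsimp only
    conv_lhs => rw [e1]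
    rw [mul_inv, ← mul_assoc, ← mul_inv, ← sq]
  have h3 : ((Finset.Icc 1 Z).sigma (fun m => m.divisors)).image
        (fun z : (_ : ℕ) × ℕ => (z.2, z.1 / z.2)) ⊆ Finset.Icc 1 Z ×ˢ Finset.Icc 1 Z := by
    intro w hw
    obtain ⟨⟨m, e⟩, hz, rfl⟩ := Finset.mem_image.1 hw
    rw [Finset.mem_sigma, Nat.mem_divisors, Finset.mem_Icc] at hz
    obtain ⟨⟨h4, h5⟩, h6, _⟩ := hz
    dsimp only at h4 h5 h6
    have he0 : 0 < e := Nat.pos_of_dvd_of_pos h6 (by omega)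
    rw [Finset.mem_product, Finset.mem_Icc, Finset.mem_Icc]
    dsimp only
    exact ⟨⟨he0, (Nat.le_of_dvd (by omega) h6).trans h5⟩,
      Nat.div_pos (Nat.le_of_dvd (by omega) h6) he0, (Nat.div_le_self _ _).trans h5⟩
  rw [h1, h2]
  refine (Finset.sum_le_sum_of_subset_of_nonneg h3 fun _ _ _ => by positivity).trans ?_
  rw [Finset.sum_product]
  have h4 : ∑ x ∈ Finset.Icc 1 Z, ∑ y ∈ Finset.Icc 1 Z, ((((x, y) : ℕ × ℕ).1 : ℝ) ^ 2)⁻¹ *
      ((((x, y) : ℕ × ℕ).2 : ℝ))⁻¹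
      = (∑ x ∈ Finset.Icc 1 Z, ((x : ℝ) ^ 2)⁻¹) * ∑ y ∈ Finset.Icc 1 Z, (y : ℝ)⁻¹ := by
    rw [Finset.sum_mul_sum]
  rw [h4]
  have h5 := harmonic_le_one_add_log Z
  rw [harmonic_eq_sum_Icc] at h5
  push_cast at h5
  exact mul_le_mul (sum_inv_sq_le Z) h5 (Finset.sum_nonneg fun _ _ => by positivity) (by norm_num)

lemma sg_nonneg (m : ℕ) : 0 ≤ sg m := Finset.sum_nonneg fun _ _ => by positivity

/-- explicit bound for pairs -/
lemma pair_bound {m : ℕ} {tt : ℕ → ℕ} (h : IsLin m tt) (hm : 2 ≤ m) (Y i : ℕ) (hi : 1 ≤ i)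
    (hY : 2 ^ (2 * i) ≤ Y) :
    ((((Finset.Ioc Y (2 * Y)).filter (fun n => n.Prime ∧ (tt n).Prime)).card : ℕ) : ℝ)
      ≤ 32 * sg m * Y / (i : ℝ) ^ 2 + 2 ^ (12 * i) := by
  have hR1 : 1 ≤ 2 ^ i := Nat.one_le_two_pow
  have hRR : (2 ^ i) ^ 2 = 2 ^ (2 * i) := by rw [← pow_mul, mul_comm]
  have hR : 1 ≤ (2 ^ i) ^ 2 := Nat.one_le_pow _ _ hR1
  have h1 := selberg2 h hm Y ((2 ^ i) ^ 2) hR (hRR ▸ hY)
  have hV : 0 < V2 m ((2 ^ i) ^ 2) := lt_of_lt_of_le one_pos (V2_ge_one hR)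
  have h2 := V2_lower m (2 ^ i) (by omega) hR1
  have hi' : (0 : ℝ) < i := by exact_mod_cast hi
  have h3 : (i : ℝ) / 2 ≤ Real.log (((2 ^ i : ℕ) : ℝ) + 1) := by
    have h4 : Real.log (((2 ^ i : ℕ) : ℝ)) ≤ Real.log (((2 ^ i : ℕ) : ℝ) + 1) :=
      Real.log_le_log (by positivity) (by linarith)
    have h5 : Real.log (((2 ^ i : ℕ) : ℝ)) = i * Real.log 2 := by
      push_cast; rw [Real.log_pow]
    have h6 : (1 : ℝ) / 2 ≤ Real.log 2 := by
      have := Real.log_two_gt_d9; linarith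
    have h9 : (i : ℝ) * (1 / 2) ≤ i * Real.log 2 := mul_le_mul_of_nonneg_left h6 hi'.le
    linarith
  have h4 : ((i : ℝ) / 2) ^ 2 ≤ 8 * sg m * V2 m ((2 ^ i) ^ 2) :=
    (pow_le_pow_left₀ (by positivity) h3 2).trans h2
  have h5 : (V2 m ((2 ^ i) ^ 2))⁻¹ ≤ 32 * sg m / (i : ℝ) ^ 2 := by
    rw [inv_eq_one_div, div_le_div_iff₀ hV (by positivity)]
    nlinarith
  have h6 := mul_le_mul_of_nonneg_left h5 (Nat.cast_nonneg Y : (0 : ℝ) ≤ (Y : ℝ))
  have h7 : ((((2 ^ i) ^ 2 : ℕ) : ℝ)) ^ 6 = 2 ^ (12 * i) := by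
    push_cast
    rw [← pow_mul, ← pow_mul]
    congr 1; ring
  rw [h7] at h1
  calc ((((Finset.Ioc Y (2 * Y)).filter (fun n => n.Prime ∧ (tt n).Prime)).card : ℕ) : ℝ)
      ≤ (Y : ℝ) * (V2 m ((2 ^ i) ^ 2))⁻¹ + 2 ^ (12 * i) := h1
    _ ≤ (Y : ℝ) * (32 * sg m / (i : ℝ) ^ 2) + 2 ^ (12 * i) := by linarith
    _ = 32 * sg m * Y / (i : ℝ) ^ 2 + 2 ^ (12 * i) := by ring


/-- `n ∓ 1 = g u` has a prime factor `q ∣ u` with `q^{a+1} > n^a`. -/
def Top (sh : ℕ → ℕ) (g a n : ℕ) : Prop :=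
  ∃ u q : ℕ, sh n = g * u ∧ q.Prime ∧ q ∣ u ∧ n ^ a < q ^ (a + 1)

lemma top_count (sh : ℕ → ℕ) (hsh : IsShift sh) (g a j : ℕ) (hg : 2 ≤ g) (ha : 7 ≤ a)
    (hj : 96 ≤ j) (hgj : g ^ 8 ≤ 2 ^ j) [DecidablePred (Top sh g a)] :
    ((((Finset.Ioc (2 ^ j) (2 * 2 ^ j)).filter
      (fun n => n.Prime ∧ Top sh g a n)).card : ℕ) : ℝ)
      ≤ (2064390 * (2 + Real.log g + (j / (a + 1) : ℕ)) / j) * 2 ^ j / j := by
  classical
  set h := j / (a + 1) + 1 with hh
  set i := j / 48 with hi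
  have hi1 : 1 ≤ i := by omega
  have hi48 : 48 * i ≤ j := by omega
  have hij : j ≤ 96 * i := by omega
  have hh1 : j + 1 ≤ (a + 1) * h := by
    have := Nat.lt_mul_div_succ j (by omega : 0 < a + 1)
    rw [← Nat.succ_eq_add_one] at this
    exact this
  have hh8 : 8 * (h - 1) ≤ j := by
    have h1 : (a + 1) * (j / (a + 1)) ≤ j := Nat.mul_div_le j (a + 1)
    have h2 : 8 * (j / (a + 1)) ≤ (a + 1) * (j / (a + 1)) := Nat.mul_le_mul_right _ (by omega)
    have h3 : h - 1 = j / (a + 1) := by omega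
    rw [h3]
    exact h2.trans h1
  -- the linear form
  have hlin : ∃ tt : ℕ → ℕ → ℕ, (∀ m, IsLin m (tt m)) ∧
      ∀ n m q : ℕ, 1 ≤ n → sh n = m * q → tt m q = n := by
    rcases hsh with hs | hs
    · refine ⟨fun m n => m * n + 1, fun m => Or.inl fun _ => rfl, fun n m q hn he => ?_⟩
      rw [hs] at he
      dsimp only
      omega
    · refine ⟨fun m n => m * n - 1, fun m => Or.inr fun _ => rfl, fun n m q hn he => ?_⟩
      rw [hs] at he
      dsimp only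
      omega
  obtain ⟨tt, htt, httn⟩ := hlin
  -- windows
  set Yf : ℕ → ℕ := fun m' => 2 ^ j / (2 * (g * m')) with hYf
  set Win : ℕ → Finset ℕ := fun m' =>
    ((Finset.Ioc (Yf m') (2 * Yf m')).filter (fun q => q.Prime ∧ (tt (g * m') q).Prime)) ∪
    (((Finset.Ioc (2 * Yf m') (2 * (2 * Yf m'))).filter
      (fun q => q.Prime ∧ (tt (g * m') q).Prime)) ∪
    ((Finset.Ioc (4 * Yf m') (2 * (4 * Yf m'))).filter
      (fun q => q.Prime ∧ (tt (g * m') q).Prime))) with hWin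
  have hYbig : ∀ m' : ℕ, 1 ≤ m' → m' ≤ 2 ^ h → 2 ^ (2 * i) ≤ Yf m' := by
    intro m' hm1 hm2
    rw [hYf]
    dsimp only
    rw [Nat.le_div_iff_mul_le (by positivity)]
    have h1 : 2 ^ (2 * i) * (2 * (g * m')) ≤ 2 ^ (2 * i + 1 + h) * g := by
      calc 2 ^ (2 * i) * (2 * (g * m')) ≤ 2 ^ (2 * i) * (2 * (g * 2 ^ h)) := by gcongr
        _ = 2 ^ (2 * i + 1 + h) * g := by rw [pow_add, pow_add]; ring
    refine h1.trans ?_
    have h2 : (2 ^ (2 * i + 1 + h) * g) ^ 8 ≤ (2 ^ j) ^ 8 := by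
      rw [mul_pow]
      calc (2 ^ (2 * i + 1 + h)) ^ 8 * g ^ 8 ≤ (2 ^ (2 * i + 1 + h)) ^ 8 * 2 ^ j :=
            Nat.mul_le_mul_left _ hgj
        _ = 2 ^ ((2 * i + 1 + h) * 8 + j) := by rw [← pow_mul, ← pow_add]
        _ ≤ 2 ^ (j * 8) := by
            apply Nat.pow_le_pow_right (by norm_num)
            omega
        _ = (2 ^ j) ^ 8 := pow_mul _ _ _
    exact (Nat.pow_le_pow_iff_left (by norm_num)).1 h2
  have hcover : (Finset.Ioc (2 ^ j) (2 * 2 ^ j)).filter (fun n => n.Prime ∧ Top sh g a n)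
      ⊆ (Finset.Icc 1 (2 ^ h)).biUnion (fun m' => (Win m').image (fun q => tt (g * m') q)) := by
    intro n hn
    rw [Finset.mem_filter, Finset.mem_Ioc] at hn
    obtain ⟨⟨hn1, hn2⟩, hp, u, q, hu, hq, ⟨m', hm'⟩, hnq⟩ := hn
    have hshn : sh n = g * m' * q := by rw [hu, hm']; ring
    have hsh1 : n ≤ sh n + 1 ∧ sh n ≤ n + 1 := by rcases hsh with h | h <;> rw [h] <;> omega
    have hn3 : 2 ^ 96 ≤ n := (Nat.pow_le_pow_right (by norm_num) hj).trans hn1.le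
    have hn4 : 3 ≤ n := le_trans (by norm_num) hn3
    have hq0 : 0 < q := hq.pos
    have hm0 : 0 < m' := by
      rcases Nat.eq_zero_or_pos m' with rfl | h0
      · rw [mul_zero, zero_mul] at hshn; omega
      · exact h0
    have hg0 : 0 < g := by omega
    have hmq : m' * q ≤ n := by
      have h1 : 2 * (m' * q) ≤ n + 1 := by
        calc 2 * (m' * q) ≤ g * (m' * q) := Nat.mul_le_mul_right _ hg
          _ = sh n := by rw [hshn]; ring
          _ ≤ n + 1 := hsh1.2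
      omega
    have hm'2 : m' ≤ 2 ^ h := by
      have h1 : m' ^ (a + 1) * n ^ a < n ^ a * n := by
        calc m' ^ (a + 1) * n ^ a < m' ^ (a + 1) * q ^ (a + 1) :=
              Nat.mul_lt_mul_of_pos_left hnq (by positivity)
          _ = (m' * q) ^ (a + 1) := (mul_pow _ _ _).symm
          _ ≤ n ^ (a + 1) := Nat.pow_le_pow_left hmq _
          _ = n ^ a * n := pow_succ _ _
      have h2 : m' ^ (a + 1) < n := by
        have h3 : n ^ a * m' ^ (a + 1) < n ^ a * n := by rw [mul_comm]; exact h1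
        exact Nat.lt_of_mul_lt_mul_left h3
      have h3 : m' ^ (a + 1) ≤ (2 ^ h) ^ (a + 1) := by
        calc m' ^ (a + 1) ≤ n := h2.le
          _ ≤ 2 * 2 ^ j := hn2
          _ = 2 ^ (j + 1) := by rw [pow_succ]; ring
          _ ≤ 2 ^ (h * (a + 1)) := Nat.pow_le_pow_right (by norm_num) (by rw [mul_comm]; exact hh1)
          _ = (2 ^ h) ^ (a + 1) := pow_mul _ _ _
      exact (Nat.pow_le_pow_iff_left (by omega)).1 h3
    rw [Finset.mem_biUnion]
    refine ⟨m', Finset.mem_Icc.2 ⟨hm0, hm'2⟩, ?_⟩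
    rw [Finset.mem_image]
    have httq : tt (g * m') q = n := httn n (g * m') q (by omega) hshn
    refine ⟨q, ?_, httq⟩
    have hY := hYbig m' hm0 hm'2
    have hY1 : 1 ≤ Yf m' := le_trans Nat.one_le_two_pow hY
    have hb : 0 < 2 * (g * m') := by positivity
    have hY2 : 2 * (g * m') * Yf m' ≤ 2 ^ j := Nat.mul_div_le _ _
    have hY3 : 2 ^ j < 2 * (g * m') * (Yf m' + 1) := Nat.lt_mul_div_succ _ hb
    have hq1 : 2 * Yf m' ≤ q := by
      have : g * m' * (2 * Yf m') ≤ g * m' * q := by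
        calc g * m' * (2 * Yf m') = 2 * (g * m') * Yf m' := by ring
          _ ≤ 2 ^ j := hY2
          _ ≤ g * m' * q := by rw [← hshn]; omega
      exact Nat.le_of_mul_le_mul_left this (by positivity)
    have hq2 : q ≤ 4 * (Yf m' + 1) := by
      have : g * m' * q ≤ g * m' * (4 * (Yf m' + 1)) := by
        calc g * m' * q = sh n := hshn.symm
          _ ≤ 2 * 2 ^ j + 1 := by omega
          _ ≤ 2 * (2 * (g * m') * (Yf m' + 1)) := by omega
          _ = g * m' * (4 * (Yf m' + 1)) := by ring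
      exact Nat.le_of_mul_le_mul_left this (by positivity)
    rw [hWin]
    simp only [Finset.mem_union, Finset.mem_filter, Finset.mem_Ioc]
    rw [httq]
    have hqq : q.Prime ∧ n.Prime := ⟨hq, hp⟩
    by_cases c1 : q ≤ 2 * Yf m'
    · exact Or.inl ⟨⟨by omega, c1⟩, hqq⟩
    · by_cases c2 : q ≤ 4 * Yf m'
      · exact Or.inr (Or.inl ⟨⟨by omega, by omega⟩, hqq⟩)
      · exact Or.inr (Or.inr ⟨⟨by omega, by omega⟩, hqq⟩)
  have hcard1 : (((Finset.Ioc (2 ^ j) (2 * 2 ^ j)).filter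
      (fun n => n.Prime ∧ Top sh g a n)).card : ℝ)
      ≤ ∑ m' ∈ Finset.Icc 1 (2 ^ h), ((Win m').card : ℝ) := by
    have h1 := (Finset.card_le_card hcover).trans Finset.card_biUnion_le
    have h2 : ∑ m' ∈ Finset.Icc 1 (2 ^ h), ((Win m').image (fun q => tt (g * m') q)).card
        ≤ ∑ m' ∈ Finset.Icc 1 (2 ^ h), (Win m').card :=
      Finset.sum_le_sum fun _ _ => Finset.card_image_le
    exact_mod_cast h1.trans h2
  refine hcard1.trans ?_
  have hi' : (0 : ℝ) < i := by exact_mod_cast hi1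
  have hj' : (0 : ℝ) < j := by exact_mod_cast (by omega : 0 < j)
  have hwin : ∀ m' ∈ Finset.Icc 1 (2 ^ h), ((Win m').card : ℝ)
      ≤ (112 * 2 ^ j / (i : ℝ) ^ 2) * (sg (g * m') / ((g * m' : ℕ) : ℝ)) + 3 * 2 ^ (12 * i) := by
    intro m' hm'
    rw [Finset.mem_Icc] at hm'
    have hgm : 2 ≤ g * m' := by nlinarith [hm'.1]
    have hY := hYbig m' hm'.1 hm'.2
    have b1 := pair_bound (htt (g * m')) hgm (Yf m') i hi1 hY
    have b2 := pair_bound (htt (g * m')) hgm (2 * Yf m') i hi1 (by omega)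
    have b3 := pair_bound (htt (g * m')) hgm (4 * Yf m') i hi1 (by omega)
    have hc : ((Win m').card : ℝ) ≤
        ((((Finset.Ioc (Yf m') (2 * Yf m')).filter
          (fun n => n.Prime ∧ (tt (g * m') n).Prime)).card : ℕ) : ℝ) +
        (((((Finset.Ioc (2 * Yf m') (2 * (2 * Yf m'))).filter
          (fun n => n.Prime ∧ (tt (g * m') n).Prime)).card : ℕ) : ℝ) +
        ((((Finset.Ioc (4 * Yf m') (2 * (4 * Yf m'))).filter
          (fun n => n.Prime ∧ (tt (g * m') n).Prime)).card : ℕ) : ℝ)) := by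
      have h1 := Finset.card_union_le ((Finset.Ioc (Yf m') (2 * Yf m')).filter
        (fun q => q.Prime ∧ (tt (g * m') q).Prime))
        (((Finset.Ioc (2 * Yf m') (2 * (2 * Yf m'))).filter
          (fun q => q.Prime ∧ (tt (g * m') q).Prime)) ∪
        ((Finset.Ioc (4 * Yf m') (2 * (4 * Yf m'))).filter
          (fun q => q.Prime ∧ (tt (g * m') q).Prime)))
      have h2 := Finset.card_union_le ((Finset.Ioc (2 * Yf m') (2 * (2 * Yf m'))).filter
          (fun q => q.Prime ∧ (tt (g * m') q).Prime))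
        ((Finset.Ioc (4 * Yf m') (2 * (4 * Yf m'))).filter
          (fun q => q.Prime ∧ (tt (g * m') q).Prime))
      have h3 := h1.trans (Nat.add_le_add_left h2 _)
      rw [hWin]
      dsimp only
      exact_mod_cast h3
    have hYr : ((Yf m' : ℕ) : ℝ) ≤ 2 ^ j / (2 * ((g * m' : ℕ) : ℝ)) := by
      have h1 : ((Yf m' : ℕ) : ℝ) ≤ ((2 ^ j : ℕ) : ℝ) / ((2 * (g * m') : ℕ) : ℝ) := by
        rw [hYf]
        exact Nat.cast_div_le
      push_cast at h1 ⊢
      exact h1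
    push_cast at b1 b2 b3
    have hsg := sg_nonneg (g * m')
    have hgm' : (0 : ℝ) < ((g * m' : ℕ) : ℝ) := by exact_mod_cast (by omega : 0 < g * m')
    have hfin : 32 * sg (g * m') * (7 * (Yf m' : ℝ)) / (i : ℝ) ^ 2
        ≤ (112 * 2 ^ j / (i : ℝ) ^ 2) * (sg (g * m') / ((g * m' : ℕ) : ℝ)) := by
      calc 32 * sg (g * m') * (7 * (Yf m' : ℝ)) / (i : ℝ) ^ 2
          ≤ 32 * sg (g * m') * (7 * (2 ^ j / (2 * ((g * m' : ℕ) : ℝ)))) / (i : ℝ) ^ 2 := by
            gcongr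
        _ = (112 * 2 ^ j / (i : ℝ) ^ 2) * (sg (g * m') / ((g * m' : ℕ) : ℝ)) := by
            field_simp
            ring
    have hring : 32 * sg (g * m') * (Yf m' : ℝ) / (i : ℝ) ^ 2
        + (32 * sg (g * m') * (2 * (Yf m' : ℝ)) / (i : ℝ) ^ 2
        + 32 * sg (g * m') * (4 * (Yf m' : ℝ)) / (i : ℝ) ^ 2)
        = 32 * sg (g * m') * (7 * (Yf m' : ℝ)) / (i : ℝ) ^ 2 := by ring
    linarith
  refine (Finset.sum_le_sum hwin).trans ?_
  rw [Finset.sum_add_distrib, ← Finset.mul_sum, Finset.sum_const, Nat.card_Icc, nsmul_eq_mul]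
  have hsum : ∑ m' ∈ Finset.Icc 1 (2 ^ h), sg (g * m') / ((g * m' : ℕ) : ℝ)
      ≤ 2 * (1 + Real.log g + h) := by
    have hinj : Set.InjOn (fun m' : ℕ => g * m') (Finset.Icc 1 (2 ^ h) : Finset ℕ) := by
      intro x _ y _ hxy
      exact Nat.eq_of_mul_eq_mul_left (by omega : 0 < g) hxy
    have h1 : ∑ m' ∈ Finset.Icc 1 (2 ^ h), sg (g * m') / ((g * m' : ℕ) : ℝ)
        = ∑ m ∈ (Finset.Icc 1 (2 ^ h)).image (fun m' : ℕ => g * m'), sg m / (m : ℝ) := by
      rw [Finset.sum_image hinj]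
    have h2 : (Finset.Icc 1 (2 ^ h)).image (fun m' : ℕ => g * m') ⊆ Finset.Icc 1 (g * 2 ^ h) := by
      intro m hm
      obtain ⟨m', hm', rfl⟩ := Finset.mem_image.1 hm
      rw [Finset.mem_Icc] at *
      exact ⟨Nat.mul_pos (by omega) hm'.1, Nat.mul_le_mul_left _ hm'.2⟩
    rw [h1]
    refine (Finset.sum_le_sum_of_subset_of_nonneg h2 fun m _ _ =>
      div_nonneg (sg_nonneg m) (Nat.cast_nonneg m)).trans ?_
    refine (sum_sg (g * 2 ^ h)).trans ?_
    push_cast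
    have hg' : (0 : ℝ) < g := by exact_mod_cast (by omega : 0 < g)
    rw [Real.log_mul hg'.ne' (by positivity), Real.log_pow]
    have h3 : (h : ℝ) * Real.log 2 ≤ h * 1 := by
      apply mul_le_mul_of_nonneg_left _ (Nat.cast_nonneg h)
      have := Real.log_two_lt_d9; linarith
    linarith
  have hlogg : 0 ≤ Real.log g := Real.log_nonneg (by exact_mod_cast (by omega : 1 ≤ g))
  have hcast : ((h : ℕ) : ℝ) = ((j / (a + 1) : ℕ) : ℝ) + 1 := by rw [hh]; push_cast; ring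
  have hmain : (112 * 2 ^ j / (i : ℝ) ^ 2) *
      ∑ m' ∈ Finset.Icc 1 (2 ^ h), sg (g * m') / ((g * m' : ℕ) : ℝ)
      ≤ 2064384 * (2 + Real.log g + ((j / (a + 1) : ℕ) : ℝ)) / (j : ℝ) ^ 2 * 2 ^ j := by
    have h1 : (j : ℝ) ≤ 96 * i := by exact_mod_cast hij
    have h2 : 1 / (i : ℝ) ^ 2 ≤ 9216 / (j : ℝ) ^ 2 := by
      rw [div_le_div_iff₀ (by positivity) (by positivity)]
      nlinarith
    calc (112 * 2 ^ j / (i : ℝ) ^ 2) *
          ∑ m' ∈ Finset.Icc 1 (2 ^ h), sg (g * m') / ((g * m' : ℕ) : ℝ)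
        ≤ (112 * 2 ^ j / (i : ℝ) ^ 2) * (2 * (1 + Real.log g + h)) :=
          mul_le_mul_of_nonneg_left hsum (by positivity)
      _ = (224 * 2 ^ j * (2 + Real.log g + ((j / (a + 1) : ℕ) : ℝ))) * (1 / (i : ℝ) ^ 2) := by
          rw [hcast]; ring
      _ ≤ (224 * 2 ^ j * (2 + Real.log g + ((j / (a + 1) : ℕ) : ℝ))) * (9216 / (j : ℝ) ^ 2) :=
          mul_le_mul_of_nonneg_left h2 (by positivity)
      _ = 2064384 * (2 + Real.log g + ((j / (a + 1) : ℕ) : ℝ)) / (j : ℝ) ^ 2 * 2 ^ j := by ring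
  have herr : (((2 ^ h + 1 - 1 : ℕ) : ℝ)) * (3 * 2 ^ (12 * i))
      ≤ 6 * (2 + Real.log g + ((j / (a + 1) : ℕ) : ℝ)) / (j : ℝ) ^ 2 * 2 ^ j := by
    have h1 : 2 ^ (h + 12 * i) * j ^ 2 ≤ 2 ^ j := by
      have h2 : (2 ^ (h + 12 * i) * j ^ 2) ^ 2 ≤ (2 ^ j) ^ 2 := by
        calc (2 ^ (h + 12 * i) * j ^ 2) ^ 2 = 2 ^ ((h + 12 * i) * 2) * j ^ 4 := by
              rw [mul_pow, ← pow_mul, ← pow_mul]
          _ ≤ 2 ^ ((h + 12 * i) * 2) * 2 ^ j := Nat.mul_le_mul_left _ (pow_four_le j (by omega))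
          _ = 2 ^ ((h + 12 * i) * 2 + j) := (pow_add _ _ _).symm
          _ ≤ 2 ^ (j * 2) := Nat.pow_le_pow_right (by norm_num) (by omega)
          _ = (2 ^ j) ^ 2 := pow_mul _ _ _
      exact (Nat.pow_le_pow_iff_left (by norm_num)).1 h2
    have h2 : (2 : ℝ) ^ (h + 12 * i) * (j : ℝ) ^ 2 ≤ 2 ^ j := by exact_mod_cast h1
    have h3 : (2 : ℝ) ^ (h + 12 * i) ≤ 2 ^ j / (j : ℝ) ^ 2 := by
      rw [le_div_iff₀ (by positivity)]; exact h2
    have h4 : (((2 ^ h + 1 - 1 : ℕ) : ℝ)) * (3 * 2 ^ (12 * i)) = 3 * 2 ^ (h + 12 * i) := by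
      rw [Nat.add_sub_cancel, pow_add]; push_cast; ring
    rw [h4]
    have h5 : (0 : ℝ) ≤ 2 ^ j / (j : ℝ) ^ 2 := by positivity
    have h6 : (0 : ℝ) ≤ ((j / (a + 1) : ℕ) : ℝ) := Nat.cast_nonneg _
    calc 3 * (2 : ℝ) ^ (h + 12 * i) ≤ 3 * (2 ^ j / (j : ℝ) ^ 2) := by linarith
      _ ≤ (6 * (2 + Real.log g + ((j / (a + 1) : ℕ) : ℝ))) * (2 ^ j / (j : ℝ) ^ 2) := by
          apply mul_le_mul_of_nonneg_right _ h5
          linarith
      _ = 6 * (2 + Real.log g + ((j / (a + 1) : ℕ) : ℝ)) / (j : ℝ) ^ 2 * 2 ^ j := by ring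
  calc (112 * 2 ^ j / (i : ℝ) ^ 2) *
        ∑ m' ∈ Finset.Icc 1 (2 ^ h), sg (g * m') / ((g * m' : ℕ) : ℝ)
        + (((2 ^ h + 1 - 1 : ℕ) : ℝ)) * (3 * 2 ^ (12 * i))
      ≤ 2064384 * (2 + Real.log g + ((j / (a + 1) : ℕ) : ℝ)) / (j : ℝ) ^ 2 * 2 ^ j
        + 6 * (2 + Real.log g + ((j / (a + 1) : ℕ) : ℝ)) / (j : ℝ) ^ 2 * 2 ^ j :=
        add_le_add hmain herr
    _ = (2064390 * (2 + Real.log g + ((j / (a + 1) : ℕ) : ℝ)) / j) * 2 ^ j / j := by
        field_simp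
        ring

/-- the top range has small mass -/
lemma top_mass (sh : ℕ → ℕ) (hsh : IsShift sh) (g : ℕ) (hg : 2 ≤ g) (ε : ℝ) (hε : 0 < ε) :
    ∃ a : ℕ, 1 ≤ a ∧ ∃ N₁ : ℕ, ∀ x ∈ Set.Ioc (1:ℝ) 2, ∀ Z : ℕ, ∀ _ : DecidablePred (Top sh g a),
      ∑ n ∈ (Finset.Icc N₁ Z).filter (Top sh g a), W x n ≤ ε / (x - 1) := by
  classical
  set c₀ : ℝ := ε / (4 * 2064390 * 2) with hc₀
  have hc0 : 0 < c₀ := by positivity
  set a := max 7 ⌈1 / c₀⌉₊ with ha
  have ha7 : 7 ≤ a := le_max_left _ _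
  have haε : 1 / ((a : ℝ) + 1) ≤ c₀ := by
    have h1 : 1 / c₀ ≤ a := (Nat.le_ceil _).trans (by exact_mod_cast le_max_right 7 ⌈1 / c₀⌉₊)
    have h2 : (0 : ℝ) < a + 1 := by positivity
    rw [div_le_iff₀ h2]
    rw [div_le_iff₀ hc0] at h1
    nlinarith
  set J := max 96 (max (g ^ 8) ⌈(2 + Real.log g) / c₀⌉₊) with hJ
  have hJ96 : 96 ≤ J := le_max_left _ _
  have hJg : g ^ 8 ≤ J := (le_max_left _ _).trans (le_max_right _ _)
  have hJε : (2 + Real.log g) / c₀ ≤ J :=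
    (Nat.le_ceil _).trans (by exact_mod_cast (le_max_right _ _).trans (le_max_right _ _))
  refine ⟨a, by omega, 2 ^ J + 1, fun x hx Z hdec => ?_⟩
  have hx1 : 0 < x - 1 := by linarith [hx.1]
  have h1 := blocks_sum (Top sh g a) (ε / 2) (by positivity) J x hx (fun j hj => by
    have hgj : g ^ 8 ≤ 2 ^ j :=
      hJg.trans (hj.trans (Nat.lt_two_pow_self.le))
    have h2 := top_count sh hsh g a j hg ha7 (by omega) hgj
    have h3 := block_weight (Top sh g a) j (by omega) x hx.1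
      (2064390 * (2 + Real.log g + (j / (a + 1) : ℕ)) / j) h2
    refine h3.trans (mul_le_mul_of_nonneg_right ?_ (by positivity))
    have hj' : (0 : ℝ) < j := by exact_mod_cast (by omega : 0 < j)
    have h4 : ((j / (a + 1) : ℕ) : ℝ) ≤ j * c₀ := by
      calc ((j / (a + 1) : ℕ) : ℝ) ≤ (j : ℝ) / ((a + 1 : ℕ) : ℝ) := Nat.cast_div_le
        _ = j * (1 / ((a : ℝ) + 1)) := by push_cast; ring
        _ ≤ j * c₀ := mul_le_mul_of_nonneg_left haε hj'.le
    have h5 : 2 + Real.log g ≤ j * c₀ := by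
      rw [div_le_iff₀ hc0] at hJε
      have : (J : ℝ) ≤ j := by exact_mod_cast hj
      nlinarith
    have h6 : (2064390 * (2 + Real.log g + (j / (a + 1) : ℕ)) / j : ℝ)
        ≤ 2064390 * (2 * c₀) := by
      rw [div_le_iff₀ hj']
      nlinarith
    calc 2 * (2064390 * (2 + Real.log g + (j / (a + 1) : ℕ)) / j : ℝ)
        ≤ 2 * (2064390 * (2 * c₀)) := by linarith
      _ = ε / 2 := by rw [hc₀]; ring) Z
  refine le_trans ?_ (h1.trans (le_of_eq ?_))
  · apply Finset.sum_le_sum_of_subset_of_nonneg _ fun _ _ _ => W_nonneg _ _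
    intro n hn
    rw [Finset.mem_filter, Finset.mem_Icc] at hn
    rw [Finset.mem_filter, Finset.mem_Ioc]
    exact ⟨⟨by omega, hn.1.2⟩, hn.2⟩
  · field_simp

end LibSP23
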