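import Pool.Agent.LibSP23.S4

set_option linter.unusedVariables false
set_option linter.unusedSectionVars false

namespace LibSP23

lemma tail_bound2 (ω : ℕ → ℝ) (hω : SummableWeights ω) (ε : ℝ) (hε : 0 < ε) :
    ∃ y : ℕ, ∀ A : Finset ℕ, (∀ q ∈ A, q.Prime ∧ y < q) →
      ∑ q ∈ A, (ω q / Nat.totient q + 1 / Nat.totient (q ^ 2)) ≤ ε := by
  classical
  have hs : Summable (fun q : ℕ => 2 * (if q.Prime then ω q / q else 0) + 2 * ((q : ℝ) ^ 2)⁻¹) :=
    (hω.2.mul_left 2).add ((Real.summable_nat_pow_inv.2 (by norm_num)).mul_left 2)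
  obtain ⟨s, hs'⟩ := summable_iff_vanishing_norm.1 hs ε hε
  refine ⟨s.sup id, fun A hA => ?_⟩
  have hd : Disjoint A s := by
    rw [Finset.disjoint_left]
    intro q hq hqs
    have h1 := (hA q hq).2
    have h2 : id q ≤ s.sup id := Finset.le_sup hqs
    simp only [id] at h2
    omega
  have h1 := (Real.norm_eq_abs _ ▸ hs' A hd).le
  refine le_trans ?_ ((le_abs_self _).trans h1)
  refine Finset.sum_le_sum fun q hq => ?_
  have hp := (hA q hq).1
  have hq0 : (0 : ℝ) < q := by exact_mod_cast hp.pos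
  have hφ : (q : ℝ) / 2 ≤ Nat.totient q := by
    rw [Nat.totient_prime hp, Nat.cast_sub hp.one_lt.le, Nat.cast_one]
    have : (2 : ℝ) ≤ q := by exact_mod_cast hp.two_le
    linarith
  have hφ2 : (q : ℝ) ^ 2 / 2 ≤ Nat.totient (q ^ 2) := by
    rw [Nat.totient_prime_pow hp (by norm_num)]
    push_cast
    rw [Nat.cast_sub hp.one_lt.le, Nat.cast_one]
    have : (2 : ℝ) ≤ q := by exact_mod_cast hp.two_le
    norm_num
    nlinarith
  rw [if_pos hp]
  apply add_le_add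
  · calc ω q / Nat.totient q ≤ ω q / ((q : ℝ) / 2) :=
          div_le_div_of_nonneg_left (hω.1 q) (by positivity) hφ
      _ = 2 * (ω q / q) := by field_simp
  · calc 1 / (Nat.totient (q ^ 2) : ℝ) ≤ 1 / ((q : ℝ) ^ 2 / 2) :=
          div_le_div_of_nonneg_left (by norm_num) (by positivity) hφ2
      _ = 2 * ((q : ℝ) ^ 2)⁻¹ := by field_simp

/-- the penalty of `n` -/
noncomputable def bad2 (sh : ℕ → ℕ) (ω : ℕ → ℝ) (a g : ℕ) (P : Finset ℕ) (n : ℕ) : ℝ :=
  ∑ q ∈ P, ((Set.indicator {q | q ∣ sh n ∧ q ^ (a + 1) ≤ n ^ a} ω q)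
    + Set.indicator {q : ℕ | q ^ 2 ∣ sh n} (fun _ => (1 : ℝ)) q)
  + Set.indicator {n | Top sh g a n} (fun _ => (1 : ℝ)) n

lemma bad2_nonneg (sh : ℕ → ℕ) (ω : ℕ → ℝ) (hω : ∀ q, 0 ≤ ω q) (a g : ℕ) (P : Finset ℕ) (n : ℕ) :
    0 ≤ bad2 sh ω a g P n := by
  rw [bad2]
  refine add_nonneg (Finset.sum_nonneg fun q _ => add_nonneg
    (Set.indicator_nonneg (fun q _ => hω q) q)
    (Set.indicator_nonneg (fun _ _ => zero_le_one) q))
    (Set.indicator_nonneg (fun _ _ => zero_le_one) n)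

/-- total penalty -/
lemma bad_mass2 (sh : ℕ → ℕ) (hsh : IsShift sh) (ω : ℕ → ℝ) (hω : SummableWeights ω) :
    ∃ D : ℝ, ∀ (M' r N₀ a g q₀ : ℕ) (τ : ℝ), 0 < M' → 256 * M' ^ 8 ≤ N₀ → 2 ^ 17 ≤ N₀ →
      2 ^ (16 * (a + 1)) < N₀ → q₀ ^ 4 ≤ N₀ → ∀ P : Finset ℕ,
      (∀ q ∈ P, q.Prime ∧ q.Coprime M') → ∀ x ∈ Set.Ioc (1:ℝ) 2, ∀ Z : ℕ,
      (∀ _ : DecidablePred (Top sh g a),
        ∑ n ∈ (Finset.Icc N₀ Z).filter (Top sh g a), W x n ≤ τ) →
      ∑ n ∈ (Finset.Icc N₀ Z).filter (fun n => n ≡ r [MOD M']), W x n * bad2 sh ω a g P n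
        ≤ 516 / (Nat.totient M' * (x - 1)) *
          (∑ q ∈ P, (ω q / Nat.totient q + 1 / Nat.totient (q ^ 2)))
          + 640 * (a + 1) / (x - 1) * (∑ q ∈ P.filter (fun q => q₀ < q),
            (ω q / Nat.totient q + 1 / Nat.totient (q ^ 2))) + τ + D := by
  classical
  have hs2 := summable_log_sq
  refine ⟨∑' q : ℕ, 40 * (Real.log ((q ^ 2 : ℕ) : ℝ)) ^ 2 / ((q ^ 2 : ℕ) : ℝ), ?_⟩
  intro M' r N₀ a g q₀ τ hM' hN₀ hN₀' hN₀a hN₀q P hP x hx Z hτ
  set S := (Finset.Icc N₀ Z).filter (fun n => n ≡ r [MOD M']) with hS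
  have hx1 : 0 < x - 1 := by linarith [hx.1]
  set A : ℝ := 516 / (Nat.totient M' * (x - 1)) with hA
  set B : ℝ := 640 * (a + 1) / (x - 1) with hB
  have hB0 : 0 ≤ B := by rw [hB]; positivity
  have h1 : ∑ n ∈ S, W x n * bad2 sh ω a g P n
      = (∑ q ∈ P, ∑ n ∈ S, W x n * ((Set.indicator {q | q ∣ sh n ∧ q ^ (a + 1) ≤ n ^ a} ω q)
        + Set.indicator {q : ℕ | q ^ 2 ∣ sh n} (fun _ => (1 : ℝ)) q))
        + ∑ n ∈ S, W x n * Set.indicator {n | Top sh g a n} (fun _ => (1 : ℝ)) n := by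
    rw [Finset.sum_comm, ← Finset.sum_add_distrib]
    refine Finset.sum_congr rfl fun n _ => ?_
    rw [bad2, mul_add, Finset.mul_sum]
  rw [h1]
  have htop : ∑ n ∈ S, W x n * Set.indicator {n | Top sh g a n} (fun _ => (1 : ℝ)) n ≤ τ := by
    refine le_trans ?_ (hτ (Classical.decPred _))
    conv_rhs => rw [Finset.sum_filter]
    refine le_trans (Finset.sum_le_sum_of_subset_of_nonneg (Finset.filter_subset _ _)
      fun n _ _ => mul_nonneg (W_nonneg _ _)
        (Set.indicator_nonneg (fun _ _ => zero_le_one) n)) ?_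
    refine Finset.sum_le_sum fun n _ => ?_
    by_cases hn : Top sh g a n
    · rw [Set.indicator_of_mem (show n ∈ {n | Top sh g a n} from hn), if_pos hn, mul_one]
    · rw [Set.indicator_of_notMem (show n ∉ {n | Top sh g a n} from hn), if_neg hn, mul_zero]
  have h2 : ∀ q ∈ P, ∑ n ∈ S, W x n *
      ((Set.indicator {q | q ∣ sh n ∧ q ^ (a + 1) ≤ n ^ a} ω q)
        + Set.indicator {q : ℕ | q ^ 2 ∣ sh n} (fun _ => (1 : ℝ)) q)
      ≤ A * (ω q / Nat.totient q + 1 / Nat.totient (q ^ 2))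
        + (if q₀ < q then B * (ω q / Nat.totient q + 1 / Nat.totient (q ^ 2)) else 0)
        + 40 * (Real.log ((q ^ 2 : ℕ) : ℝ)) ^ 2 / ((q ^ 2 : ℕ) : ℝ) := by
    intro q hq
    obtain ⟨hqp, hqM⟩ := hP q hq
    have hωq := hω.1 q
    have hq2M : (q ^ 2).Coprime M' := Nat.Coprime.pow_left 2 hqM
    have b1 := one_q sh hsh q M' r N₀ hqp.pos hM' hqM hN₀ hN₀' x hx Z
    have b2 := mid_mass sh hsh a q hqp.pos N₀ hN₀a x hx Z
    have b3 := one_q sh hsh (q ^ 2) M' r N₀ (by have := hqp.pos; positivity) hM' hq2M hN₀ hN₀' x hx Z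
    have b4 := one_q_small sh hsh (q ^ 2) M' r N₀ (by nlinarith [hqp.two_le]) hN₀' x hx.1 Z
    simp only [← Finset.filter_filter] at b1 b3 b4
    rw [← hS] at b1 b3 b4
    simp only [Finset.filter_filter] at b1 b3 b4
    rw [Finset.sum_filter] at b1 b3 b4
    have b2' : ∑ n ∈ S, (if q ∣ sh n ∧ q ^ (a + 1) ≤ n ^ a ∧ n < q ^ 4 then W x n else 0)
        ≤ if q₀ < q then B * (1 / Nat.totient q) else 0 := by
      by_cases hqq : q₀ < q
      · rw [if_pos hqq]
        refine le_trans ?_ b2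
        conv_rhs => rw [Finset.sum_filter]
        refine le_trans (Finset.sum_le_sum_of_subset_of_nonneg (Finset.filter_subset _ _)
          fun n _ _ => by split_ifs; exacts [W_nonneg _ _, le_rfl]) ?_
        refine Finset.sum_le_sum fun n _ => ?_
        by_cases hc : q ∣ sh n ∧ q ^ (a + 1) ≤ n ^ a
        · rw [if_pos hc]
          split_ifs
          · exact le_rfl
          · exact W_nonneg _ _
        · rw [if_neg hc, if_neg (fun h => hc ⟨h.1, h.2.1⟩)]
      · rw [if_neg hqq]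
        apply le_of_eq
        apply Finset.sum_eq_zero
        intro n hn
        rw [if_neg]
        rintro ⟨_, _, h5⟩
        rw [hS, Finset.mem_filter, Finset.mem_Icc] at hn
        have h6 : q ^ 4 ≤ q₀ ^ 4 := Nat.pow_le_pow_left (by omega) 4
        omega
    have hpt : ∀ n ∈ S, W x n * ((Set.indicator {q | q ∣ sh n ∧ q ^ (a + 1) ≤ n ^ a} ω q)
        + Set.indicator {q : ℕ | q ^ 2 ∣ sh n} (fun _ => (1 : ℝ)) q)
        ≤ ω q * (if q ∣ sh n ∧ q ^ 4 ≤ n then W x n else 0)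
          + ω q * (if q ∣ sh n ∧ q ^ (a + 1) ≤ n ^ a ∧ n < q ^ 4 then W x n else 0)
          + (if q ^ 2 ∣ sh n ∧ (q ^ 2) ^ 4 ≤ n then W x n else 0)
          + (if q ^ 2 ∣ sh n ∧ n < (q ^ 2) ^ 4 then W x n else 0) := by
      intro n _
      have hW := W_nonneg x n
      have hWω : 0 ≤ ω q * W x n := mul_nonneg hωq hW
      have e1 : W x n * (Set.indicator {q | q ∣ sh n ∧ q ^ (a + 1) ≤ n ^ a} ω q)
          ≤ ω q * (if q ∣ sh n ∧ q ^ 4 ≤ n then W x n else 0)
          + ω q * (if q ∣ sh n ∧ q ^ (a + 1) ≤ n ^ a ∧ n < q ^ 4 then W x n else 0) := by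
        by_cases c1 : q ∣ sh n ∧ q ^ (a + 1) ≤ n ^ a
        · rw [Set.indicator_of_mem (show q ∈ {q | q ∣ sh n ∧ q ^ (a + 1) ≤ n ^ a} from c1)]
          by_cases c2 : q ^ 4 ≤ n
          · have c3 : ¬ n < q ^ 4 := by omega
            rw [if_pos ⟨c1.1, c2⟩,
              if_neg (fun h : q ∣ sh n ∧ q ^ (a + 1) ≤ n ^ a ∧ n < q ^ 4 => c3 h.2.2)]
            linarith
          · have c3 : n < q ^ 4 := by omega
            rw [if_neg (fun h : q ∣ sh n ∧ q ^ 4 ≤ n => c2 h.2), if_pos ⟨c1.1, c1.2, c3⟩]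
            linarith
        · rw [Set.indicator_of_notMem (show q ∉ {q | q ∣ sh n ∧ q ^ (a + 1) ≤ n ^ a} from c1),
            mul_zero]
          have h7 : 0 ≤ (if q ∣ sh n ∧ q ^ 4 ≤ n then W x n else 0) := by
            split_ifs; exacts [hW, le_rfl]
          have h8 : 0 ≤ (if q ∣ sh n ∧ q ^ (a + 1) ≤ n ^ a ∧ n < q ^ 4 then W x n else 0) := by
            split_ifs; exacts [hW, le_rfl]
          exact add_nonneg (mul_nonneg hωq h7) (mul_nonneg hωq h8)
      have e2 : W x n * (Set.indicator {q : ℕ | q ^ 2 ∣ sh n} (fun _ => (1 : ℝ)) q)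
          ≤ (if q ^ 2 ∣ sh n ∧ (q ^ 2) ^ 4 ≤ n then W x n else 0)
          + (if q ^ 2 ∣ sh n ∧ n < (q ^ 2) ^ 4 then W x n else 0) := by
        by_cases c1 : q ^ 2 ∣ sh n
        · rw [Set.indicator_of_mem (show q ∈ {q : ℕ | q ^ 2 ∣ sh n} from c1)]
          by_cases c2 : (q ^ 2) ^ 4 ≤ n
          · have c3 : ¬ n < (q ^ 2) ^ 4 := by omega
            rw [if_pos ⟨c1, c2⟩, if_neg (fun h => c3 h.2)]
            linarith
          · have c3 : n < (q ^ 2) ^ 4 := by omega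
            rw [if_neg (fun h => c2 h.2), if_pos ⟨c1, c3⟩]
            linarith
        · rw [Set.indicator_of_notMem (show q ∉ {q : ℕ | q ^ 2 ∣ sh n} from c1),
            if_neg (fun h => c1 h.1), if_neg (fun h => c1 h.1)]
          simp
      rw [mul_add]
      linarith
    refine (Finset.sum_le_sum hpt).trans ?_
    rw [Finset.sum_add_distrib, Finset.sum_add_distrib, Finset.sum_add_distrib,
      ← Finset.mul_sum, ← Finset.mul_sum]
    have d1 := mul_le_mul_of_nonneg_left b1 hωq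
    have d2 := mul_le_mul_of_nonneg_left b2' hωq
    have hφ2 : (0 : ℝ) ≤ 1 / Nat.totient (q ^ 2) := by positivity
    have d3 : ω q * (if q₀ < q then B * (1 / (Nat.totient q : ℝ)) else 0)
        ≤ (if q₀ < q then B * (ω q / Nat.totient q + 1 / Nat.totient (q ^ 2)) else 0) := by
      by_cases c : q₀ < q
      · rw [if_pos c, if_pos c]
        have : ω q * (B * (1 / (Nat.totient q : ℝ))) = B * (ω q / Nat.totient q) := by ring
        rw [this, mul_add]
        have := mul_nonneg hB0 hφ2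
        linarith
      · rw [if_neg c, if_neg c, mul_zero]
    have d4 : ω q * (A * (1 / Nat.totient q)) + A * (1 / Nat.totient (q ^ 2))
        = A * (ω q / Nat.totient q + 1 / Nat.totient (q ^ 2)) := by ring
    linarith
  have h3 := Finset.sum_le_sum h2
  rw [Finset.sum_add_distrib, Finset.sum_add_distrib, ← Finset.mul_sum, ← Finset.sum_filter,
    ← Finset.mul_sum] at h3
  have h4 : ∑ q ∈ P, 40 * (Real.log ((q ^ 2 : ℕ) : ℝ)) ^ 2 / ((q ^ 2 : ℕ) : ℝ)
      ≤ ∑' q : ℕ, 40 * (Real.log ((q ^ 2 : ℕ) : ℝ)) ^ 2 / ((q ^ 2 : ℕ) : ℝ) :=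
    hs2.sum_le_tsum P fun q _ => by positivity
  linarith

lemma near_or_bad2 (sh : ℕ → ℕ) (hsh : IsShift sh) (ω : ℕ → ℝ) (hω : ∀ q, 0 ≤ ω q)
    (δ : ℝ) (hδ : 0 < δ) (hδ1 : δ ≤ 1) (y M k a : ℕ) (hM : 2 ≤ M) (hk : 1 ≤ k)
    (hy : y.factorial ∣ M) (n u Z : ℕ) (hn3 : 3 ≤ n) (hnZ : n ≤ Z) (hu : sh n = M ^ k * u)
    (hu1 : 1 ≤ u) (huM : u ≡ 1 [MOD M])
    (h : ¬ (Squarefree u ∧ ∑ q ∈ u.primeFactors, ω q ≤ δ)) :
    δ / 2 ≤ bad2 sh ω a (M ^ k) (Pset y (M ^ (k + 1)) Z) n := by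
  classical
  set P := Pset y (M ^ (k + 1)) Z with hP
  have hsh1 : sh n ≤ n + 1 := by rcases hsh with h | h <;> rw [h] <;> omega
  have hMk : 2 ≤ M ^ k := by
    calc 2 ≤ M := hM
      _ = M ^ 1 := (pow_one M).symm
      _ ≤ M ^ k := Nat.pow_le_pow_right (by omega) hk
  have hun : u ≤ n := by
    have : 2 * u ≤ n + 1 := by
      calc 2 * u ≤ M ^ k * u := Nat.mul_le_mul_right _ hMk
        _ = sh n := hu.symm
        _ ≤ n + 1 := hsh1
    omega
  have hush : u ∣ sh n := ⟨M ^ k, by rw [hu]; ring⟩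
  have hcop : u.Coprime M := by
    have h1 := huM.gcd_eq
    rw [Nat.gcd_one_left] at h1
    exact h1
  have hmem : ∀ q : ℕ, q.Prime → q ∣ u → q ∈ P := by
    intro q hq hqu
    have hqM : q.Coprime M := hcop.coprime_dvd_left hqu
    rw [hP, Pset, Finset.mem_filter, Finset.mem_range]
    have hqle : q ≤ u := Nat.le_of_dvd (by omega) hqu
    refine ⟨by omega, hq, ?_, Nat.Coprime.pow_right _ hqM⟩
    by_contra hle
    have h1 : q ∣ y.factorial := (Nat.Prime.dvd_factorial hq).2 (by omega)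
    exact (Nat.Prime.coprime_iff_not_dvd hq).1 hqM (h1.trans hy)
  have hterm0 : ∀ q ∈ P, 0 ≤ (Set.indicator {q | q ∣ sh n ∧ q ^ (a + 1) ≤ n ^ a} ω q)
    + Set.indicator {q : ℕ | q ^ 2 ∣ sh n} (fun _ => (1 : ℝ)) q := by
    intro q _
    exact add_nonneg (Set.indicator_nonneg (fun q _ => hω q) q)
      (Set.indicator_nonneg (fun _ _ => zero_le_one) q)
  have hsum0 := Finset.sum_nonneg hterm0
  have htop0 : 0 ≤ Set.indicator {n | Top sh (M ^ k) a n} (fun _ => (1 : ℝ)) n :=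
    Set.indicator_nonneg (fun _ _ => zero_le_one) n
  by_cases htop : Top sh (M ^ k) a n
  · rw [bad2, Set.indicator_of_mem (show n ∈ {n | Top sh (M ^ k) a n} from htop)]
    linarith
  · by_cases hsq : Squarefree u
    · have hsum : δ < ∑ q ∈ u.primeFactors, ω q := by
        by_contra hle
        exact h ⟨hsq, not_lt.1 hle⟩
      have hA1s : ∑ q ∈ u.primeFactors, ω q ≤ bad2 sh ω a (M ^ k) P n := by
        rw [bad2]
        have hsub : u.primeFactors ⊆ P := by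
          intro q hq
          rw [Nat.mem_primeFactors] at hq
          exact hmem q hq.1 hq.2.1
        refine le_trans ?_ (le_add_of_nonneg_right htop0)
        refine le_trans ?_ (Finset.sum_le_sum_of_subset_of_nonneg hsub fun q hq _ => hterm0 q hq)
        refine Finset.sum_le_sum fun q hq => ?_
        rw [Nat.mem_primeFactors] at hq
        have hle : q ^ (a + 1) ≤ n ^ a := by
          by_contra hlt
          exact htop ⟨u, q, hu, hq.1, hq.2.1, not_le.1 hlt⟩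
        rw [Set.indicator_of_mem (show q ∈ {q | q ∣ sh n ∧ q ^ (a + 1) ≤ n ^ a} from
          ⟨hq.2.1.trans hush, hle⟩)]
        have : 0 ≤ Set.indicator {q : ℕ | q ^ 2 ∣ sh n} (fun _ => (1 : ℝ)) q :=
          Set.indicator_nonneg (fun _ _ => zero_le_one) q
        linarith
      linarith
    · rw [Nat.squarefree_iff_prime_squarefree] at hsq
      push Not at hsq
      obtain ⟨q, hq, hqq⟩ := hsq
      have hqu : q ∣ u := (dvd_mul_right q q).trans hqq
      have hqP := hmem q hq hqu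
      have h1 : (1 : ℝ) ≤ bad2 sh ω a (M ^ k) P n := by
        rw [bad2]
        refine le_trans ?_ (le_add_of_nonneg_right htop0)
        refine le_trans ?_ (Finset.single_le_sum hterm0 hqP)
        rw [Set.indicator_of_mem (show q ∈ {q : ℕ | q ^ 2 ∣ sh n} from by
          change q ^ 2 ∣ sh n
          rw [sq]
          exact hqq.trans hush)]
        have : 0 ≤ Set.indicator {q | q ∣ sh n ∧ q ^ (a + 1) ≤ n ^ a} ω q :=
          Set.indicator_nonneg (fun q _ => hω q) q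
        linarith
      linarith

end LibSP23
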