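import Pool.Agent.LibSP23.S6

set_option linter.unusedVariables false
set_option linter.unusedSectionVars false

namespace LibSP23

lemma W_summable {x : ℝ} (hx : 1 < x) : Summable (W x) := by
  refine Summable.of_nonneg_of_le (W_nonneg x) (fun n => ?_) (wt_summable (a := (0 : ZMod 1)) hx)
  by_cases hn : n.Prime
  · rw [wt_prime x n hn (Subsingleton.elim _ _)]
  · rw [W, if_neg hn]; exact wt_nonneg _ _

lemma PosDensity.mono {A B : Set ℕ} (hA : PosDensity A) (h : A ⊆ B) : PosDensity B := by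
  obtain ⟨c, hc, C, hC⟩ := hA
  refine ⟨c, hc, C, fun x hx => (hC x hx).trans ?_⟩
  have hs : ∀ E : Set ℕ, Summable (Set.indicator {p : ℕ | p.Prime ∧ p ∈ E}
      (fun p : ℕ => Real.log p / (p : ℝ) ^ x)) := by
    intro E
    refine ((W_summable hx.1).indicator {p : ℕ | p.Prime ∧ p ∈ E}).congr fun n => ?_
    by_cases hn : n ∈ {p : ℕ | p.Prime ∧ p ∈ E}
    · rw [Set.indicator_of_mem hn, Set.indicator_of_mem hn, W, if_pos hn.1]
    · rw [Set.indicator_of_notMem hn, Set.indicator_of_notMem hn]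
  refine Summable.tsum_le_tsum (fun n => ?_) (hs A) (hs B)
  have h0 : ∀ n ∈ {p : ℕ | p.Prime ∧ p ∈ B}, 0 ≤ Real.log n / (n : ℝ) ^ x := fun n hn =>
    div_nonneg (Real.log_nonneg (by exact_mod_cast hn.1.one_lt.le)) (by positivity)
  by_cases hn : n ∈ {p : ℕ | p.Prime ∧ p ∈ A}
  · rw [Set.indicator_of_mem hn, Set.indicator_of_mem
      (show n ∈ {p : ℕ | p.Prime ∧ p ∈ B} from ⟨hn.1, h hn.2⟩)]
  · rw [Set.indicator_of_notMem hn]
    exact Set.indicator_nonneg h0 n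

/-- **Main number theoretic statement.** -/
theorem approx_near3 (sh : ℕ → ℕ) (hsh : IsShift sh) (ω : ℕ → ℝ) (hω : SummableWeights ω)
    (F : Finset ℝ) (δ : ℝ) (hδ : 0 < δ) :
    ∃ M₁ : ℕ, 1 ≤ M₁ ∧ ∀ M : ℕ, 2 ≤ M → M₁ ∣ M → ∀ k : ℕ, 1 ≤ k → ∀ r : ℕ,
      r.Coprime (M ^ (k + 1)) →
      (∀ n : ℕ, n ≡ r [MOD M ^ (k + 1)] → r < n → ∃ u : ℕ, sh n = M ^ k * u ∧ 1 ≤ u ∧
        u ≡ 1 [MOD M]) →
      PosDensity {p : ℕ | ∃ u : ℕ, sh p = M ^ k * u ∧ Near ω M F δ u} := by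
  classical
  set δ₁ : ℝ := min δ (1 / 2) with hδ₁
  have hδ0 : 0 < δ₁ := lt_min hδ (by norm_num)
  have hδ1 : δ₁ ≤ 1 / 2 := min_le_right _ _
  have hδδ : δ₁ ≤ δ := min_le_left _ _
  -- truncated weights
  set ω₁ : ℕ → ℝ := fun q => min (ω q) 1 with hω₁
  have hω₁0 : ∀ q, 0 ≤ ω₁ q := fun q => le_min (hω.1 q) zero_le_one
  have hω₁' : SummableWeights ω₁ := by
    refine ⟨hω₁0, Summable.of_nonneg_of_le (fun q => ?_) (fun q => ?_) hω.2⟩
    · split_ifs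
      · exact div_nonneg (hω₁0 q) (Nat.cast_nonneg q)
      · exact le_rfl
    · split_ifs
      · exact div_le_div_of_nonneg_right (min_le_left _ _) (Nat.cast_nonneg q)
      · exact le_rfl
  obtain ⟨c, hc, hmass⟩ := bohr_mass F (δ₁ / 2) (half_pos hδ0)
  obtain ⟨y, hy⟩ := tail_bound2 ω₁ hω₁' (c * δ₁ / 2064) (by positivity)
  obtain ⟨D, hD⟩ := bad_mass2 sh hsh ω₁ hω₁'
  refine ⟨y.factorial, Nat.factorial_pos y, ?_⟩
  intro M hM hyM k hk r hr hru
  set R : Set ℕ := {p : ℕ | ∃ u : ℕ, sh p = M ^ k * u ∧ Near ω M F δ u} with hR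
  set M' := M ^ (k + 1) with hM'
  have hM'0 : 0 < M' := by rw [hM']; positivity
  have hφ : (0 : ℝ) < Nat.totient M' := by exact_mod_cast Nat.totient_pos.2 hM'0
  have hMk : 2 ≤ M ^ k := by
    calc 2 ≤ M := hM
      _ = M ^ 1 := (pow_one M).symm
      _ ≤ M ^ k := Nat.pow_le_pow_right (by omega) hk
  set ε₃ : ℝ := c * δ₁ / (16 * Nat.totient M') with hε₃
  have hε₃0 : 0 < ε₃ := by positivity
  obtain ⟨a, ha1, N₁, hN₁⟩ := top_mass sh hsh (M ^ k) hMk ε₃ hε₃0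
  obtain ⟨q₀, hq₀⟩ := tail_bound2 ω₁ hω₁' (ε₃ / (640 * (a + 1))) (by positivity)
  set L : ℕ := ⌈2 * (∑ t ∈ F, |t|) / δ₁⌉₊ + 3 with hL
  obtain ⟨A₁, hA₁⟩ : ∃ A₁ : ℕ, 2 ^ (16 * (a + 1)) < A₁ := ⟨_, Nat.lt_succ_self _⟩
  obtain ⟨A₂, hA₂⟩ : ∃ A₂ : ℕ, q₀ ^ 4 ≤ A₂ := ⟨_, le_rfl⟩
  obtain ⟨A₃, hA₃⟩ : ∃ A₃ : ℕ, 256 * M' ^ 8 ≤ A₃ := ⟨_, le_rfl⟩
  obtain ⟨N₀, hN₀⟩ : ∃ N₀ : ℕ, N₀ = A₃ + 131072 + r + L + A₁ + A₂ + N₁ := ⟨_, rfl⟩
  have n2 : 256 * M' ^ 8 ≤ N₀ := hA₃.trans (by omega)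
  have n3 : 2 ^ 17 ≤ N₀ := by norm_num; omega
  have n4 : r ≤ N₀ := by omega
  have n5 : L ≤ N₀ := by omega
  have n6 : 2 ^ (16 * (a + 1)) < N₀ := hA₁.trans_le (by omega)
  have n7 : q₀ ^ 4 ≤ N₀ := hA₂.trans (by omega)
  have n8 : N₁ ≤ N₀ := by omega
  have : NeZero M' := ⟨hM'0.ne'⟩
  have hau : IsUnit ((r : ℕ) : ZMod M') := (ZMod.isUnit_iff_coprime _ _).2 hr
  obtain ⟨C, hC⟩ := hmass M' ((r : ℕ) : ZMod M') hau (Real.log ((M ^ k : ℕ) : ℝ)) N₀
  set G : Set ℕ := {n : ℕ | n.Prime ∧ N₀ < n ∧ (n : ZMod M') = ((r : ℕ) : ZMod M') ∧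
            ∀ t ∈ F, ‖ch t (Real.log n - Real.log ((M ^ k : ℕ) : ℝ)) - 1‖ ≤ δ₁ / 2} with hG
  have hbad : ∀ n ∈ G \ R, ∀ Z : ℕ, n ≤ Z →
      δ₁ / 2 ≤ bad2 sh ω₁ a (M ^ k) (Pset y M' Z) n := by
    intro n hn Z hnZ
    obtain ⟨⟨hp, hnN, hnr, hnt⟩, hnR⟩ := hn
    have hnr' : n ≡ r [MOD M'] := (ZMod.natCast_eq_natCast_iff _ _ _).1 hnr
    obtain ⟨u, hu, hu1, huM⟩ := hru n hnr' (by omega)
    refine near_or_bad2 sh hsh ω₁ hω₁0 δ₁ hδ0 (by linarith) y M k a hM hk hyM n u Z (by omega) hnZ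
      hu hu1 huM ?_
    rintro ⟨hsq, hsum⟩
    have hsum' : ∑ q ∈ u.primeFactors, ω q ≤ δ₁ := by
      refine le_trans (le_of_eq ?_) hsum
      refine Finset.sum_congr rfl fun q hq => ?_
      have h1 : ω₁ q ≤ δ₁ :=
        (Finset.single_le_sum (f := fun q => ω₁ q) (fun q _ => hω₁0 q) hq).trans hsum
      rw [hω₁] at h1 ⊢
      dsimp only at h1 ⊢
      symm
      apply min_eq_left
      by_contra hgt
      rw [min_eq_right (not_le.1 hgt).le] at h1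
      linarith
    refine hnR ⟨u, hu, hu1, hsq, huM, ?_, hsum'.trans hδδ⟩
    have hs : sh n = n - 1 ∨ sh n = n + 1 := by
      rcases hsh with h | h
      · exact Or.inl (h n)
      · exact Or.inr (h n)
    have := arch_aux M k hM F δ₁ hδ0 n (by omega) hnt (sh n) u hs hu hu1
    exact fun t ht => (this t ht).trans hδδ
  have hup : ∀ x ∈ Set.Ioc (1:ℝ) 2, ∑' n : ℕ, Set.indicator (G \ R) (W x) n
      ≤ (2 / δ₁) * (516 / (Nat.totient M' * (x - 1)) * (c * δ₁ / 2064)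
        + 2 * (ε₃ / (x - 1)) + D) := by
    intro x hx
    have hx1 : 0 < x - 1 := by linarith [hx.1]
    refine Real.tsum_le_of_sum_range_le
      (fun n => Set.indicator_nonneg (fun n _ => W_nonneg x n) n) fun Z => ?_
    have hPs : ∀ q ∈ Pset y M' Z, q.Prime ∧ q.Coprime M' := fun q hq => by
      rw [Pset, Finset.mem_filter] at hq
      exact ⟨hq.2.1, hq.2.2.2⟩
    have h1 := hD M' r N₀ a (M ^ k) q₀ (ε₃ / (x - 1)) hM'0 n2 n3 n6 n7 (Pset y M' Z) hPs x hx Z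
      (fun hdec => by
        refine le_trans ?_ (hN₁ x hx Z hdec)
        apply Finset.sum_le_sum_of_subset_of_nonneg _ fun _ _ _ => W_nonneg _ _
        apply Finset.filter_subset_filter
        apply Finset.Icc_subset_Icc_left n8)
    have h2 := hy (Pset y M' Z) (fun q hq => by
      rw [Pset, Finset.mem_filter] at hq
      exact ⟨hq.2.1, hq.2.2.1⟩)
    have h2' := hq₀ ((Pset y M' Z).filter (fun q => q₀ < q)) (fun q hq => by
      rw [Finset.mem_filter] at hq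
      exact ⟨(hPs q hq.1).1, hq.2⟩)
    have h3 : 516 / (Nat.totient M' * (x - 1)) *
          (∑ q ∈ Pset y M' Z, (ω₁ q / Nat.totient q + 1 / Nat.totient (q ^ 2)))
          + 640 * (a + 1) / (x - 1) * (∑ q ∈ (Pset y M' Z).filter (fun q => q₀ < q),
            (ω₁ q / Nat.totient q + 1 / Nat.totient (q ^ 2))) + ε₃ / (x - 1) + D
        ≤ 516 / (Nat.totient M' * (x - 1)) * (c * δ₁ / 2064) + 2 * (ε₃ / (x - 1)) + D := by
      have e1 := mul_le_mul_of_nonneg_left h2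
        (by positivity : (0 : ℝ) ≤ 516 / (Nat.totient M' * (x - 1)))
      have e2 := mul_le_mul_of_nonneg_left h2'
        (by positivity : (0 : ℝ) ≤ 640 * (a + 1) / (x - 1))
      have e3 : 640 * ((a : ℝ) + 1) / (x - 1) * (ε₃ / (640 * (a + 1))) = ε₃ / (x - 1) := by
        field_simp
      linarith
    have h4 : ∑ n ∈ Finset.range Z, Set.indicator (G \ R) (W x) n
        ≤ (2 / δ₁) * ∑ n ∈ (Finset.Icc N₀ Z).filter (fun n => n ≡ r [MOD M']),
          W x n * bad2 sh ω₁ a (M ^ k) (Pset y M' Z) n := by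
      have h5 : ∑ n ∈ Finset.range Z, Set.indicator (G \ R) (W x) n
          = ∑ n ∈ (Finset.range Z).filter (fun n => n ∈ G \ R), W x n := by
        rw [Finset.sum_filter]
        refine Finset.sum_congr rfl fun n _ => ?_
        rw [Set.indicator_apply]
      rw [h5, Finset.mul_sum]
      have hsub : (Finset.range Z).filter (fun n => n ∈ G \ R)
          ⊆ (Finset.Icc N₀ Z).filter (fun n => n ≡ r [MOD M']) := by
        intro n hn
        rw [Finset.mem_filter, Finset.mem_range] at hn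
        obtain ⟨hnZ, ⟨hp, hnN, hnr, _⟩, _⟩ := hn
        rw [Finset.mem_filter, Finset.mem_Icc]
        exact ⟨⟨by omega, by omega⟩, (ZMod.natCast_eq_natCast_iff _ _ _).1 hnr⟩
      refine le_trans ?_ (Finset.sum_le_sum_of_subset_of_nonneg hsub fun n _ _ => ?_)
      · refine Finset.sum_le_sum fun n hn => ?_
        rw [Finset.mem_filter, Finset.mem_range] at hn
        have h6 := hbad n hn.2 Z (by omega)
        have hW := W_nonneg x n
        have h7 : W x n * (δ₁ / 2) ≤ W x n * bad2 sh ω₁ a (M ^ k) (Pset y M' Z) n :=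
          mul_le_mul_of_nonneg_left h6 hW
        calc W x n = (2 / δ₁) * (W x n * (δ₁ / 2)) := by field_simp
          _ ≤ (2 / δ₁) * (W x n * bad2 sh ω₁ a (M ^ k) (Pset y M' Z) n) :=
              mul_le_mul_of_nonneg_left h7 (by positivity)
      · exact mul_nonneg (by positivity) (mul_nonneg (W_nonneg _ _)
          (bad2_nonneg sh ω₁ hω₁0 a (M ^ k) _ n))
    exact h4.trans (mul_le_mul_of_nonneg_left (h1.trans h3) (by positivity))
  refine ⟨c / 4 * (Nat.totient M' : ℝ)⁻¹, by positivity, C + 2 / δ₁ * D, ?_⟩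
  intro x hx
  have hx1 : 0 < x - 1 := by linarith [hx.1]
  have h1 := hC x hx
  have h2 := hup x hx
  have hWs := W_summable hx.1
  have hsR : Summable (Set.indicator {p : ℕ | p.Prime ∧ p ∈ R} (W x)) := hWs.indicator _
  have hsGR : Summable (Set.indicator (G \ R) (W x)) := hWs.indicator _
  have h5 : ∑' n : ℕ, Set.indicator G (W x) n
      ≤ ∑' n : ℕ, Set.indicator {p : ℕ | p.Prime ∧ p ∈ R} (W x) n
        + ∑' n : ℕ, Set.indicator (G \ R) (W x) n := by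
    rw [← hsR.tsum_add hsGR]
    refine Summable.tsum_le_tsum (fun n => ?_) (hWs.indicator _) (hsR.add hsGR)
    have hW := W_nonneg x n
    by_cases hn : n ∈ G
    · rw [Set.indicator_of_mem hn]
      by_cases hnR : n ∈ R
      · rw [Set.indicator_of_mem (show n ∈ {p : ℕ | p.Prime ∧ p ∈ R} from ⟨hn.1, hnR⟩),
          Set.indicator_of_notMem (show n ∉ G \ R from fun h => h.2 hnR), add_zero]
      · rw [Set.indicator_of_notMem (show n ∉ {p : ℕ | p.Prime ∧ p ∈ R} from fun h => hnR h.2),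
          Set.indicator_of_mem (show n ∈ G \ R from ⟨hn, hnR⟩), zero_add]
    · rw [Set.indicator_of_notMem hn]
      exact add_nonneg (Set.indicator_nonneg (fun n _ => W_nonneg x n) n)
        (Set.indicator_nonneg (fun n _ => W_nonneg x n) n)
  have h6 : ∑' n : ℕ, Set.indicator {p : ℕ | p.Prime ∧ p ∈ R} (W x) n
      = ∑' n : ℕ, Set.indicator {p : ℕ | p.Prime ∧ p ∈ R}
        (fun p : ℕ => Real.log p / (p : ℝ) ^ x) n := by
    refine tsum_congr fun n => ?_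
    by_cases hn : n ∈ {p : ℕ | p.Prime ∧ p ∈ R}
    · rw [Set.indicator_of_mem hn, Set.indicator_of_mem hn, W, if_pos hn.1]
    · rw [Set.indicator_of_notMem hn, Set.indicator_of_notMem hn]
  have h3 : (2 / δ₁) * (516 / (Nat.totient M' * (x - 1)) * (c * δ₁ / 2064)
        + 2 * (ε₃ / (x - 1)) + D)
      = 3 * (c / 4 * (Nat.totient M' : ℝ)⁻¹ / (x - 1)) + 2 / δ₁ * D := by
    rw [hε₃]
    field_simp
    ring
  have h4 : c * ((Nat.totient M' : ℝ)⁻¹ / (x - 1))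
      = 4 * (c / 4 * (Nat.totient M' : ℝ)⁻¹ / (x - 1)) := by ring
  rw [← h6]
  linarith

/-- Property of a shift used in the recurrence argument. -/
def ApproxD (ω : ℕ → ℝ) (sh : ℕ → ℕ) : Prop :=
  ∀ (F : Finset ℝ) (δ : ℝ), 0 < δ → ∃ M₁ : ℕ, 1 ≤ M₁ ∧ ∀ M : ℕ, 2 ≤ M → M₁ ∣ M →
    ∀ k : ℕ, 1 ≤ k → PosDensity {p : ℕ | ∃ u : ℕ, sh p = M ^ k * u ∧ Near ω M F δ u}

/-- The combinatorial form. -/
theorem recur_fun3 {ω : ℕ → ℝ} {sh : ℕ → ℕ} (hS : ApproxD ω sh) {Y : Type*} [PseudoMetricSpace Y]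
    (f : ℕ → Y) (hf : TotallyBounded (Set.range f))
    (hc : ∀ ε : ℝ, 0 < ε → ∃ M : ℕ, 1 ≤ M ∧ ∃ (F : Finset ℝ) (δ : ℝ), 0 < δ ∧
      ∀ u : ℕ, Near ω M F δ u → ∀ x : ℕ, 1 ≤ x → dist (f (u * x)) (f x) ≤ ε)
    (ε : ℝ) (hε : 0 < ε) (l : ℕ) :
    ∃ x : ℕ, 1 ≤ x ∧ PosDensity {p : ℕ | 1 ≤ sh p ∧
      ∀ j ≤ l, dist (f ((sh p) ^ j * x)) (f x) ≤ ε} := by
  classical
  obtain ⟨M₀, hM₀, F, δ, hδ, hcl⟩ := hc (ε / (2 * (l + 1))) (by positivity)
  obtain ⟨M₁, hM₁, hM₁S⟩ := hS F δ hδ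
  set M := 2 * M₀ * M₁ with hM
  have hM2 : 2 ≤ M := by
    have : 1 ≤ M₀ * M₁ := Nat.mul_pos hM₀ hM₁
    calc 2 ≤ 2 * (M₀ * M₁) := by omega
      _ = M := by rw [hM]; ring
  have hMM₀ : M₀ ∣ M := ⟨2 * M₁, by rw [hM]; ring⟩
  have hMM₁ : M₁ ∣ M := ⟨2 * M₀, by rw [hM]; ring⟩
  -- cover the range by finitely many balls
  obtain ⟨t, htfin, htcov⟩ := (Metric.totallyBounded_iff.1 hf) (ε / 4) (by positivity)
  have hcol : ∀ k : ℕ, ∃ y : t, dist (f (M ^ k)) y < ε / 4 := by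
    intro k
    have : f (M ^ k) ∈ ⋃ y ∈ t, Metric.ball y (ε / 4) := htcov ⟨_, rfl⟩
    simp only [Set.mem_iUnion, Metric.mem_ball] at this
    obtain ⟨y, hy, h⟩ := this
    exact ⟨⟨y, hy⟩, h⟩
  choose C hC using hcol
  have : Finite t := htfin
  obtain ⟨a, ha, b, c, habc⟩ := Combinatorics.exists_mono_homothetic_copy
    (Finset.range (l + 1)) C
  have habc' : ∀ j ≤ l, dist (f (M ^ (a * j + b))) c < ε / 4 := by
    intro j hj
    have h1 := habc j (Finset.mem_range.2 (by omega))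
    rw [smul_eq_mul] at h1
    have := hC (a * j + b)
    rwa [h1] at this
  refine ⟨M ^ b, Nat.one_le_pow _ _ (by omega), (hM₁S M hM2 hMM₁ a ha).mono ?_⟩
  rintro p ⟨u, hsu, hu⟩
  obtain ⟨s, hs⟩ : ∃ s, s = sh p := ⟨_, rfl⟩
  rw [← hs] at hsu
  have hs1 : 1 ≤ s := by
    rw [hsu]; exact Nat.mul_pos (Nat.one_le_pow _ _ (by omega)) hu.1
  have hu' : Near ω M₀ F δ u := ⟨hu.1, hu.2.1, hu.2.2.1.of_dvd hMM₀, hu.2.2.2⟩
  have hupow : ∀ j : ℕ, ∀ y : ℕ, 1 ≤ y →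
      dist (f (u ^ j * y)) (f y) ≤ j * (ε / (2 * (l + 1))) := by
    intro j
    induction j with
    | zero => intro y _; simp
    | succ j ih =>
      intro y hy
      have h1 : 1 ≤ u ^ j * y := Nat.mul_pos (Nat.one_le_pow _ _ hu.1) hy
      have h2 := hcl u hu' (u ^ j * y) h1
      have h3 := ih y hy
      have e : u ^ (j + 1) * y = u * (u ^ j * y) := by rw [pow_succ]; ring
      rw [e]
      calc dist (f (u * (u ^ j * y))) (f y)
          ≤ dist (f (u * (u ^ j * y))) (f (u ^ j * y)) + dist (f (u ^ j * y)) (f y) :=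
            dist_triangle _ _ _
        _ ≤ ε / (2 * (l + 1)) + j * (ε / (2 * (l + 1))) := add_le_add h2 h3
        _ = ((j + 1 : ℕ) : ℝ) * (ε / (2 * (l + 1))) := by push_cast; ring
  change 1 ≤ sh p ∧ ∀ j ≤ l, dist (f ((sh p) ^ j * M ^ b)) (f (M ^ b)) ≤ ε
  rw [← hs]
  refine ⟨hs1, fun j hj => ?_⟩
  have e : s ^ j * M ^ b = u ^ j * M ^ (a * j + b) := by
    rw [hsu, mul_pow, ← pow_mul, pow_add]
    ring
  rw [e]
  have h1 := hupow j (M ^ (a * j + b)) (Nat.one_le_pow _ _ (by omega))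
  have h1' : (j : ℝ) * (ε / (2 * (l + 1))) ≤ ε / 2 := by
    have hj1 : (j : ℝ) ≤ l + 1 := by
      have : (j : ℝ) ≤ l := by exact_mod_cast hj
      linarith
    have hl : (0 : ℝ) < l + 1 := by positivity
    calc (j : ℝ) * (ε / (2 * (l + 1))) ≤ (l + 1) * (ε / (2 * (l + 1))) :=
          mul_le_mul_of_nonneg_right hj1 (by positivity)
      _ = ε / 2 := by field_simp
  have h2 := habc' j hj
  have h3 := habc' 0 (by omega)
  rw [mul_zero, zero_add] at h3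
  calc dist (f (u ^ j * M ^ (a * j + b))) (f (M ^ b))
      ≤ dist (f (u ^ j * M ^ (a * j + b))) (f (M ^ (a * j + b)))
        + dist (f (M ^ (a * j + b))) (f (M ^ b)) := dist_triangle _ _ _
    _ ≤ ε / 2 + (dist (f (M ^ (a * j + b))) c + dist (c : Y) (f (M ^ b))) :=
        add_le_add (h1.trans h1') (dist_triangle _ _ _)
    _ ≤ ε := by
        rw [dist_comm (c : Y)]
        linarith

/-- The dynamical form. -/
theorem recur_dyn3 {ω : ℕ → ℝ} {sh : ℕ → ℕ} (hS : ApproxD ω sh) {X : Type*} [MetricSpace X]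
    [CompactSpace X] (T : ℕ → X → X)
    (hTm : ∀ m n : ℕ, 1 ≤ m → 1 ≤ n → T (m * n) = T m ∘ T n)
    (hTc : ∀ n : ℕ, 1 ≤ n → Continuous (T n))
    (hmin : ∀ x : X, Dense {y : X | ∃ n : ℕ, 1 ≤ n ∧ T n x = y})
    (hc : ∀ ε : ℝ, 0 < ε → ∃ M : ℕ, 1 ≤ M ∧ ∃ (F : Finset ℝ) (δ : ℝ), 0 < δ ∧
      ∀ u : ℕ, Near ω M F δ u → ∀ x : X, dist (T u x) x ≤ ε)
    (U : Set X) (hU : IsOpen U) (hUne : U.Nonempty) (l : ℕ) :
    ∃ x ∈ U, PosDensity {p : ℕ | ∀ j ≤ l, T ((sh p) ^ j) x ∈ U} := by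
  classical
  obtain ⟨x₀, hx₀⟩ := hUne
  obtain ⟨r, hr, hball⟩ := Metric.isOpen_iff.1 hU x₀ hx₀
  have hcov : ∀ x : X, ∃ n : ℕ, 1 ≤ n ∧ T n x ∈ Metric.ball x₀ (r / 2) := by
    intro x
    obtain ⟨y, ⟨n, hn, rfl⟩, hy⟩ := (hmin x).exists_mem_open Metric.isOpen_ball
      ⟨x₀, Metric.mem_ball_self (half_pos hr)⟩
    exact ⟨n, hn, hy⟩
  obtain ⟨t, ht⟩ := (isCompact_univ (X := X)).elim_finite_subcover
    (fun n : {n : ℕ // 1 ≤ n} => (T n) ⁻¹' Metric.ball x₀ (r / 2))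
    (fun n => Metric.isOpen_ball.preimage (hTc n n.2))
    (fun x _ => by
      obtain ⟨n, hn, h⟩ := hcov x
      exact Set.mem_iUnion.2 ⟨⟨n, hn⟩, h⟩)
  have huc : ∃ η > 0, ∀ n ∈ t, ∀ x y : X, dist x y < η → dist (T n x) (T n y) < r / 2 := by
    clear ht
    induction t using Finset.induction_on with
    | empty => exact ⟨1, one_pos, by simp⟩
    | insert n t _ ih =>
      obtain ⟨η, hη, h⟩ := ih
      obtain ⟨η', hη', h'⟩ := Metric.uniformContinuous_iff.1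
        (CompactSpace.uniformContinuous_of_continuous (hTc n n.2)) (r / 2) (half_pos hr)
      refine ⟨min η η', lt_min hη hη', fun m hm x y hxy => ?_⟩
      rcases Finset.mem_insert.1 hm with rfl | hm
      · exact h' (hxy.trans_le (min_le_right _ _))
      · exact h m hm x y (hxy.trans_le (min_le_left _ _))
  obtain ⟨η, hη, huc⟩ := huc
  obtain ⟨x, hx1, hxd⟩ := recur_fun3 hS (fun n => T n x₀)
    (isCompact_univ.totallyBounded.subset (Set.subset_univ _))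
    (fun ε hε => by
      obtain ⟨M, hM, F, δ, hδ, h⟩ := hc ε hε
      refine ⟨M, hM, F, δ, hδ, fun u hu x hx => ?_⟩
      rw [hTm u x hu.1 hx]
      exact h u hu (T x x₀)) (η / 2) (half_pos hη) l
  obtain ⟨n, hn⟩ := Set.mem_iUnion.1 (ht (Set.mem_univ (T x x₀)))
  obtain ⟨hnt, hn⟩ := Set.mem_iUnion.1 hn
  have hn' : dist (T n (T x x₀)) x₀ < r / 2 := hn
  refine ⟨T n (T x x₀), hball ?_, hxd.mono ?_⟩
  · rw [Metric.mem_ball]; linarith
  · rintro p ⟨hp1, hx⟩ j hj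
    refine hball ?_
    obtain ⟨s, hs⟩ : ∃ s, s = sh p := ⟨_, rfl⟩
    rw [← hs] at hp1 hx ⊢
    have hs1 : 1 ≤ s ^ j := Nat.one_le_pow _ _ (by omega)
    have e : T (s ^ j) (T n (T x x₀)) = T n (T (s ^ j * x) x₀) := by
      rw [hTm (s ^ j) x hs1 hx1]
      have h1 := congrFun (hTm (s ^ j) n hs1 n.2) (T x x₀)
      have h2 := congrFun (hTm n (s ^ j) n.2 hs1) (T x x₀)
      rw [mul_comm] at h1
      simp only [Function.comp] at h1 h2 ⊢
      rw [← h1, h2]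
    rw [e, Metric.mem_ball]
    have h3 := huc n hnt (T (s ^ j * x) x₀) (T x x₀) (by
      have h4 : dist (T (s ^ j * x) x₀) (T x x₀) ≤ η / 2 := hx j hj
      linarith)
    calc dist (T n (T (s ^ j * x) x₀)) x₀
        ≤ dist (T n (T (s ^ j * x) x₀)) (T n (T x x₀)) + dist (T n (T x x₀)) x₀ :=
          dist_triangle _ _ _
      _ < r := by linarith


theorem approxD_down (ω : ℕ → ℝ) (hω : SummableWeights ω) : ApproxD ω (fun n => n - 1) := by
  intro F δ hδ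
  obtain ⟨M₁, hM₁, h⟩ := approx_near3 (fun n => n - 1) (Or.inl fun _ => rfl) ω hω F δ hδ
  refine ⟨M₁, hM₁, fun M hM hMM k hk => ?_⟩
  have h3 : 1 ≤ M ^ k := Nat.one_le_pow _ _ (by omega)
  exact h M hM hMM k hk (1 + M ^ k) (coprime_down M k hM hk)
    (fun n hn hrn => by
      obtain ⟨m, hm⟩ := (Nat.modEq_iff_dvd' hrn.le).1 hn.symm
      refine ⟨1 + M * m, ?_, by omega, ?_⟩
      · have : M ^ (k + 1) * m = M ^ k * (M * m) := by rw [pow_succ]; ring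
        rw [mul_add, mul_one, ← this, ← hm]
        change n - 1 = _
        omega
      · exact (Nat.modEq_iff_dvd' (by omega)).2 ⟨m, by omega⟩ |>.symm)

theorem approxD_up (ω : ℕ → ℝ) (hω : SummableWeights ω) : ApproxD ω (fun n => n + 1) := by
  intro F δ hδ
  obtain ⟨M₁, hM₁, h⟩ := approx_near3 (fun n => n + 1) (Or.inr fun _ => rfl) ω hω F δ hδ
  refine ⟨M₁, hM₁, fun M hM hMM k hk => ?_⟩
  have h3 : 1 ≤ M ^ k := Nat.one_le_pow _ _ (by omega)
  exact h M hM hMM k hk (M ^ k - 1) (coprime_up M k hM hk)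
    (fun n hn hrn => by
      obtain ⟨m, hm⟩ := (Nat.modEq_iff_dvd' hrn.le).1 hn.symm
      refine ⟨1 + M * m, ?_, by omega, ?_⟩
      · have : M ^ (k + 1) * m = M ^ k * (M * m) := by rw [pow_succ]; ring
        rw [mul_add, mul_one, ← this, ← hm]
        change n + 1 = _
        omega
      · exact (Nat.modEq_iff_dvd' (by omega)).2 ⟨m, by omega⟩ |>.symm)

lemma adm_indicator (E : Set ℕ)
    (hE : Summable (Set.indicator {q : ℕ | q.Prime ∧ q ∈ E} fun q => (1 : ℝ) / q)) :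
    SummableWeights (Set.indicator E fun _ => (1 : ℝ)) := by
  classical
  refine ⟨fun q => Set.indicator_nonneg (fun _ _ => zero_le_one) q, ?_⟩
  refine hE.congr fun q => ?_
  by_cases hq : q.Prime
  · rw [if_pos hq]
    by_cases hqE : q ∈ E
    · rw [Set.indicator_of_mem hqE, Set.indicator_of_mem
        (show q ∈ {q : ℕ | q.Prime ∧ q ∈ E} from ⟨hq, hqE⟩)]
    · rw [Set.indicator_of_notMem hqE, Set.indicator_of_notMem
        (show q ∉ {q : ℕ | q.Prime ∧ q ∈ E} from fun h => hqE h.2), zero_div]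
  · rw [if_neg hq, Set.indicator_of_notMem
        (show q ∉ {q : ℕ | q.Prime ∧ q ∈ E} from fun h => hq h.1)]

lemma recur_colour3 {sh : ℕ → ℕ} (hS : ∀ ω, SummableWeights ω → ApproxD ω sh) {κ : Type*}
    [Finite κ] (c : ℕ → κ) (M : ℕ) (hM : 1 ≤ M) (E : Set ℕ)
    (hE : Summable (Set.indicator {q : ℕ | q.Prime ∧ q ∈ E} fun q => (1 : ℝ) / q))
    (hc : ∀ u : ℕ, 1 ≤ u → Squarefree u → u ≡ 1 [MOD M] → (∀ q ∈ u.primeFactors, q ∉ E) →
      ∀ x : ℕ, 1 ≤ x → c (u * x) = c x) (l : ℕ) :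
    ∃ x : ℕ, 1 ≤ x ∧ PosDensity {p : ℕ | ∀ j ≤ l, c ((sh p) ^ j * x) = c x} := by
  classical
  obtain ⟨n, ⟨e⟩⟩ := Finite.exists_equiv_fin κ
  obtain ⟨x, hx, hd⟩ := recur_fun3 (hS _ (adm_indicator E hE))
    (fun m => ((e (c m) : ℕ) : ℝ))
    (by
      refine Set.Finite.totallyBounded ?_
      refine (Set.finite_range (fun i : Fin n => ((i : ℕ) : ℝ))).subset ?_
      rintro _ ⟨m, rfl⟩
      exact ⟨e (c m), rfl⟩)
    (fun ε hε => ⟨M, hM, ∅, 1 / 2, by norm_num, fun u hu x hx => by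
      have huE : ∀ q ∈ u.primeFactors, q ∉ E := by
        intro q hq hqE
        have h1 := Finset.single_le_sum (f := fun q => Set.indicator E (fun _ => (1 : ℝ)) q)
          (fun q _ => Set.indicator_nonneg (fun _ _ => zero_le_one) q) hq
        have h2 := hu.2.2.2.2
        simp only [Set.indicator_of_mem hqE] at h1
        linarith
      rw [hc u hu.1 hu.2.1 hu.2.2.1 huE x hx, dist_self]; exact hε.le⟩)
    (1 / 2) (by norm_num) l
  refine ⟨x, hx, hd.mono ?_⟩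
  rintro p ⟨_, h⟩ j hj
  have h1 := h j hj
  rw [Real.dist_eq] at h1
  have h2 : (e (c ((sh p) ^ j * x)) : ℕ) = (e (c x) : ℕ) := by
    by_contra hne
    rcases Nat.lt_or_gt_of_ne hne with h3 | h3
    · have h4 : ((e (c ((sh p) ^ j * x)) : ℕ) : ℝ) + 1 ≤ ((e (c x) : ℕ) : ℝ) := by
        exact_mod_cast h3
      have := (abs_le.1 h1).1
      linarith
    · have h4 : ((e (c x) : ℕ) : ℝ) + 1 ≤ ((e (c ((sh p) ^ j * x)) : ℕ) : ℝ) := by
        exact_mod_cast h3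
      have := (abs_le.1 h1).2
      linarith
  exact e.injective (Fin.ext h2)

/-- For an action with `dist (T q x) x ≤ d q` for all primes `q`, the displacement of a squarefree
`u` is at most the sum of the `d q` over the primes `q ∣ u`. -/
lemma displacement {X : Type*} [PseudoMetricSpace X] (T : ℕ → X → X) (hT1 : T 1 = id)
    (hTm : ∀ m n : ℕ, 1 ≤ m → 1 ≤ n → T (m * n) = T m ∘ T n) (d : ℕ → ℝ)
    (hd : ∀ q : ℕ, q.Prime → ∀ x : X, dist (T q x) x ≤ d q) (u : ℕ) (hu : Squarefree u) (x : X) :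
    dist (T u x) x ≤ ∑ q ∈ u.primeFactors, d q := by
  classical
  have key : ∀ A : Finset ℕ, (∀ q ∈ A, q.Prime) → dist (T (∏ q ∈ A, q) x) x ≤ ∑ q ∈ A, d q := by
    intro A
    induction A using Finset.induction_on with
    | empty => intro _; simp [hT1]
    | insert p A hp ih =>
      intro hA
      have hpp := hA p (Finset.mem_insert_self p A)
      have hA' : ∀ q ∈ A, q.Prime := fun q hq => hA q (Finset.mem_insert_of_mem hq)
      rw [Finset.prod_insert hp, Finset.sum_insert hp,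
        hTm p _ hpp.one_lt.le (Finset.prod_pos fun q hq => (hA' q hq).pos)]
      calc dist (T p (T (∏ q ∈ A, q) x)) x
          ≤ dist (T p (T (∏ q ∈ A, q) x)) (T (∏ q ∈ A, q) x) + dist (T (∏ q ∈ A, q) x) x :=
            dist_triangle _ _ _
        _ ≤ d p + ∑ q ∈ A, d q := add_le_add (hd p hpp _) (ih hA')
  have h := key u.primeFactors fun q hq => Nat.prime_of_mem_primeFactors hq
  rwa [Nat.prod_primeFactors_of_squarefree hu] at h

end LibSP23
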